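import Mathlib

/-!
Abstract operator system: a representation `U` of a normed space `V` in a ring and a family of
idempotents `M S` which is covariant inside a compact set `A`.  We extract the closed set `Spp`
of admissible displacements and its two basic properties.
-/

set_option linter.unusedSectionVars false

open Set Metric
open scoped Pointwise

namespace Pool.Agent.Lib.MP_61fe1c_an

variable {V : Type} [NormedAddCommGroup V] [MeasurableSpace V]

structure Sys (A : Set V) (R : Type) [Ring R] where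
  U : V → R
  M : Set V → R
  U_add : ∀ s t, U (s + t) = U s * U t
  U_zero : U 0 = 1
  M_inter : ∀ S T, MeasurableSet S → MeasurableSet T → M (S ∩ T) = M S * M T
  M_split : ∀ S T, MeasurableSet S → MeasurableSet T → M S = M (S ∩ T) + M (S \ T)
  M_A : M A = 1
  M_empty : M ∅ = 0
  cov : ∀ T s, MeasurableSet T → T ⊆ A → (∀ x ∈ T, x + s ∈ A) →
    M T * U s = U s * M ((fun x => x - s) ⁻¹' T)
  M_ne : ∀ a ∈ interior A, ∀ ε > 0, M (closedBall a ε) ≠ 0
  sigL : ∀ (S : ℕ → Set V) (X : R), (∀ n, MeasurableSet (S n)) → (∀ n, M (S n) * X = 0) →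
    M (⋃ n, S n) * X = 0
  sigR : ∀ (S : ℕ → Set V) (X : R), (∀ n, MeasurableSet (S n)) → (∀ n, X * M (S n) = 0) →
    X * M (⋃ n, S n) = 0

namespace Sys

variable [BorelSpace V] {A : Set V} {R : Type} [Ring R] (s : Sys A R)

lemma U_neg_mul (t : V) : s.U (-t) * s.U t = 1 := by
  rw [← s.U_add, neg_add_cancel, s.U_zero]

lemma U_mul_neg (t : V) : s.U t * s.U (-t) = 1 := by
  rw [← s.U_add, add_neg_cancel, s.U_zero]

lemma M_sub_left {S T : Set V} (hS : MeasurableSet S) (hT : MeasurableSet T) (h : S ⊆ T) :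
    s.M T * s.M S = s.M S := by
  rw [← s.M_inter _ _ hT hS, inter_eq_right.2 h]

lemma M_sub_right {S T : Set V} (hS : MeasurableSet S) (hT : MeasurableSet T) (h : S ⊆ T) :
    s.M S * s.M T = s.M S := by
  rw [← s.M_inter _ _ hS hT, inter_eq_left.2 h]

/-- vanishing at scale `ε` -/
def Z (a0 : V) (ε : ℝ) (t : V) : Prop :=
  s.M (closedBall a0 ε) * s.U t * s.M (closedBall a0 ε) = 0

lemma Z.mono {s : Sys A R} {a0 : V} {ε δ : ℝ} {t : V} (h : s.Z a0 ε t) (hδ : δ ≤ ε) :
    s.Z a0 δ t := by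
  unfold Z at h ⊢
  have h1 := s.M_sub_right (measurableSet_closedBall (x := a0) (ε := δ))
    (measurableSet_closedBall (x := a0) (ε := ε)) (closedBall_subset_closedBall hδ)
  have h2 := s.M_sub_left (measurableSet_closedBall (x := a0) (ε := δ))
    (measurableSet_closedBall (x := a0) (ε := ε)) (closedBall_subset_closedBall hδ)
  calc s.M (closedBall a0 δ) * s.U t * s.M (closedBall a0 δ)
      = (s.M (closedBall a0 δ) * s.M (closedBall a0 ε)) * s.U t *
        (s.M (closedBall a0 ε) * s.M (closedBall a0 δ)) := by rw [h1, h2]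
    _ = s.M (closedBall a0 δ) * (s.M (closedBall a0 ε) * s.U t * s.M (closedBall a0 ε)) *
        s.M (closedBall a0 δ) := by simp only [mul_assoc]
    _ = 0 := by rw [h]; simp

lemma conj {a0 a : V} {ε : ℝ} (hC : closedBall a0 ε ⊆ A) {T : Set V} (hT : MeasurableSet T)
    (hTA : T ⊆ A) (hTa : T ⊆ closedBall a ε) :
    ∃ T' : Set V, MeasurableSet T' ∧ T' ⊆ closedBall a0 ε ∧
      s.M T = s.U (a0 - a) * s.M T' * s.U (a - a0) := by
  have hm : MeasurableSet ((fun x => x + (a - a0)) ⁻¹' T) :=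
    hT.preimage (by fun_prop)
  have hsub : (fun x => x + (a - a0)) ⁻¹' T ⊆ closedBall a0 ε := by
    intro x hx
    have := hTa hx
    rw [mem_closedBall, dist_eq_norm] at this ⊢
    have e : x + (a - a0) - a = x - a0 := by abel
    rw [← e]; exact this
  refine ⟨_, hm, hsub, ?_⟩
  have h := s.cov _ (a - a0) hm (hsub.trans hC) (fun x hx => hTA hx)
  have h2 : (fun x => x - (a - a0)) ⁻¹' ((fun x => x + (a - a0)) ⁻¹' T) = T := by
    ext x; simp
  rw [h2] at h
  rw [mul_assoc, h, ← mul_assoc, ← s.U_add]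
  simp [s.U_zero]

lemma zero_loc {a0 a a' u : V} {ε : ℝ} (hC : closedBall a0 ε ⊆ A) (hZ : s.Z a0 ε (u + a' - a))
    {T T' : Set V} (hT : MeasurableSet T) (hTA : T ⊆ A) (hTa : T ⊆ closedBall a ε)
    (hT' : MeasurableSet T') (hTA' : T' ⊆ A) (hTa' : T' ⊆ closedBall a' ε) :
    s.M T' * s.U u * s.M T = 0 := by
  obtain ⟨S, hS, hSC, e⟩ := s.conj hC hT hTA hTa
  obtain ⟨S', hS', hSC', e'⟩ := s.conj hC hT' hTA' hTa'
  have h1 := s.M_sub_left hS measurableSet_closedBall hSC
  have h2 := s.M_sub_right hS' measurableSet_closedBall hSC'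
  have h3 : s.U (a' - a0) * s.U u * s.U (a0 - a) = s.U (u + a' - a) := by
    rw [← s.U_add, ← s.U_add]; congr 1; abel
  unfold Z at hZ
  rw [e, e', ← h1, ← h2]
  calc _ = s.U (a0 - a') * s.M S' * (s.M (closedBall a0 ε) *
        (s.U (a' - a0) * s.U u * s.U (a0 - a)) * s.M (closedBall a0 ε)) * s.M S *
        s.U (a - a0) := by simp only [mul_assoc]
    _ = 0 := by rw [h3, hZ]; simp

/-- the set of admissible displacements -/
def Spp (a0 : V) : Set V := {t | ∀ ε > 0, ¬ s.Z a0 ε t}

lemma exists_Z {a0 t : V} {r : ℝ} (hr : 0 < r) (ht : t ∉ s.Spp a0) :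
    ∃ ε, 0 < ε ∧ ε ≤ r ∧ s.Z a0 ε t := by
  simp only [Spp, mem_ofPred_eq, not_forall, not_not] at ht
  obtain ⟨ε, hε, h⟩ := ht
  exact ⟨min ε r, lt_min hε hr, min_le_right _ _, h.mono (min_le_left _ _)⟩

lemma zero_mem_Spp {a0 : V} (h0 : a0 ∈ interior A) : (0 : V) ∈ s.Spp a0 := by
  intro ε hε h
  unfold Z at h
  rw [s.U_zero, mul_one, ← s.M_inter _ _ measurableSet_closedBall measurableSet_closedBall,
    inter_self] at h
  exact s.M_ne a0 h0 ε hε h

lemma isClosed_Spp {a0 : V} {r : ℝ} (hr : 0 < r) (hC : closedBall a0 r ⊆ A) :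
    IsClosed (s.Spp a0) := by
  rw [← isOpen_compl_iff, Metric.isOpen_iff]
  intro t ht
  obtain ⟨ε, hε, hεr, h⟩ := s.exists_Z hr ht
  refine ⟨ε / 2, by linarith, fun u hu hu' => hu' (ε / 2) (by linarith) ?_⟩
  have hCε : closedBall a0 ε ⊆ A := (closedBall_subset_closedBall hεr).trans hC
  have hh : closedBall a0 (ε / 2) ⊆ closedBall a0 ε := closedBall_subset_closedBall (by linarith)
  refine s.zero_loc (a := a0) (a' := a0 - (u - t)) hCε (by convert h using 1; abel)
    measurableSet_closedBall (hh.trans hCε) hh measurableSet_closedBall (hh.trans hCε) ?_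
  intro x hx
  rw [mem_ball, dist_eq_norm] at hu
  rw [mem_closedBall, dist_eq_norm] at hx ⊢
  calc ‖x - (a0 - (u - t))‖ = ‖(x - a0) + (u - t)‖ := by congr 1; abel
    _ ≤ ‖x - a0‖ + ‖u - t‖ := norm_add_le _ _
    _ ≤ ε := by linarith

lemma not_mem_Spp {a0 p q : V} (h0 : a0 ∈ interior A) (hp : p ∈ interior A) (hq : q ∈ interior A)
    (hpq : p ≠ q) : p - q ∉ s.Spp a0 := by
  obtain ⟨r0, hr0, h0⟩ := Metric.nhds_basis_closedBall.mem_iff.1 (mem_interior_iff_mem_nhds.1 h0)
  obtain ⟨r1, hr1, h1⟩ := Metric.nhds_basis_closedBall.mem_iff.1 (mem_interior_iff_mem_nhds.1 hp)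
  obtain ⟨r2, hr2, h2⟩ := Metric.nhds_basis_closedBall.mem_iff.1 (mem_interior_iff_mem_nhds.1 hq)
  have hd : 0 < dist p q := dist_pos.2 hpq
  set ε := min (min r0 r1) (min r2 (dist p q / 3)) with hε
  have hε0 : 0 < ε := by positivity
  have e0 : ε ≤ r0 := (min_le_left _ _).trans (min_le_left _ _)
  have e1 : ε ≤ r1 := (min_le_left _ _).trans (min_le_right _ _)
  have e2 : ε ≤ r2 := (min_le_right _ _).trans (min_le_left _ _)
  have e3 : ε ≤ dist p q / 3 := (min_le_right _ _).trans (min_le_right _ _)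
  intro h
  apply h ε hε0
  have hA0 := (closedBall_subset_closedBall e0).trans h0
  have hA1 := (closedBall_subset_closedBall e1).trans h1
  have hA2 := (closedBall_subset_closedBall e2).trans h2
  have pre : ∀ a b : V, (fun x => x - (b - a)) ⁻¹' closedBall a ε = closedBall b ε := by
    intro a b; ext x
    simp only [mem_preimage, mem_closedBall, dist_eq_norm]
    rw [show x - (b - a) - a = x - b by abel]
  have sh : ∀ a b : V, closedBall b ε ⊆ A → ∀ x ∈ closedBall a ε, x + (b - a) ∈ A := by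
    intro a b hb x hx
    apply hb
    rw [mem_closedBall, dist_eq_norm] at hx ⊢
    rwa [show x + (b - a) - b = x - a by abel]
  have c1 := s.cov _ (p - a0) measurableSet_closedBall hA0 (sh a0 p hA1)
  have c2 := s.cov _ (a0 - q) measurableSet_closedBall hA2 (sh q a0 hA0)
  rw [pre] at c1 c2
  have hdis : closedBall p ε ∩ closedBall q ε = ∅ :=
    (closedBall_disjoint_closedBall (by linarith)).inter_eq
  unfold Z
  have : s.U (p - q) = s.U (p - a0) * s.U (a0 - q) := by rw [← s.U_add]; congr 1; abel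
  rw [this, ← mul_assoc, c1, mul_assoc, ← c2, ← mul_assoc, mul_assoc (s.U _),
    ← s.M_inter _ _ measurableSet_closedBall measurableSet_closedBall, hdis, s.M_empty]
  simp

/-- compact induction for a property of subsets -/
lemma compact_ind {K : Set V} (hK : IsCompact K) (X Y : ℝ → R)
    (hmono : ∀ (T : R) (δ ε : ℝ), 0 < δ → δ ≤ ε → X ε * T * Y ε = 0 → X δ * T * Y δ = 0)
    (hloc : ∀ a ∈ K, ∃ ε > 0, ∀ T, MeasurableSet T → T ⊆ K → T ⊆ closedBall a ε →
      X ε * s.M T * Y ε = 0) :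
    ∃ ε > 0, X ε * s.M K * Y ε = 0 := by
  have : ∃ ε > 0, ∀ T, MeasurableSet T → T ⊆ K → X ε * s.M T * Y ε = 0 := by
    have key := hK.induction_on
      (p := fun S => ∃ S', MeasurableSet S' ∧ S ⊆ S' ∧ ∃ ε > 0, ∀ T, MeasurableSet T → T ⊆ K →
        T ⊆ S' → X ε * s.M T * Y ε = 0) ?_ ?_ ?_ ?_
    · obtain ⟨S', -, hS, ε, hε, h⟩ := key
      exact ⟨ε, hε, fun T hT hTK => h T hT hTK (hTK.trans hS)⟩
    · refine ⟨∅, MeasurableSet.empty, Subset.rfl, 1, one_pos, fun T _ _ h => ?_⟩
      rw [subset_empty_iff.1 h, s.M_empty]; simp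
    · rintro S1 S2 h12 ⟨S', hm, hS, h⟩
      exact ⟨S', hm, h12.trans hS, h⟩
    · rintro S1 S2 ⟨S1', hm1, hS1, ε1, hε1, h1⟩ ⟨S2', hm2, hS2, ε2, hε2, h2⟩
      refine ⟨S1' ∪ S2', hm1.union hm2, union_subset_union hS1 hS2, min ε1 ε2, lt_min hε1 hε2,
        fun T hT hTK hTS => ?_⟩
      rw [s.M_split T S1' hT hm1, mul_add, add_mul,
        hmono _ _ _ (lt_min hε1 hε2) (min_le_left _ _)
          (h1 _ (hT.inter hm1) (inter_subset_left.trans hTK) inter_subset_right),
        hmono _ _ _ (lt_min hε1 hε2) (min_le_right _ _)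
          (h2 _ (hT.diff hm1) (sdiff_subset.trans hTK) ?_), add_zero]
      intro x hx
      exact (hTS hx.1).resolve_left hx.2
    · intro a ha
      obtain ⟨ε, hε, h⟩ := hloc a ha
      exact ⟨closedBall a ε, mem_nhdsWithin_of_mem_nhds (closedBall_mem_nhds a hε),
        closedBall a ε, measurableSet_closedBall, Subset.rfl, ε, hε, h⟩
  obtain ⟨ε, hε, h⟩ := this
  exact ⟨ε, hε, h K hK.measurableSet Subset.rfl⟩

lemma triangle {a0 : V} {r : ℝ} (hA : IsCompact A) (hr : 0 < r) (hC : closedBall a0 r ⊆ A)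
    {t : V} (ht : t ∈ s.Spp a0) (w : V) :
    ∃ z, z - w ∈ A ∧ z ∈ s.Spp a0 ∧ t - z ∈ s.Spp a0 := by
  by_contra hcon
  push Not at hcon
  have key := s.compact_ind hA
    (fun ε => s.M (closedBall a0 ε) * s.U (t - (w + a0)))
    (fun ε => s.U (w + a0) * s.M (closedBall a0 ε)) ?_ ?_
  · obtain ⟨ε, hε, h⟩ := key
    apply ht ε hε
    unfold Z
    rw [s.M_A, mul_one] at h
    have : s.U t = s.U (t - (w + a0)) * s.U (w + a0) := by rw [← s.U_add]; congr 1; abel
    rw [this]
    simpa only [mul_assoc] using h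
  · intro T δ ε _ hδ h
    have h1 := s.M_sub_right (measurableSet_closedBall (x := a0) (ε := δ))
      (measurableSet_closedBall (x := a0) (ε := ε)) (closedBall_subset_closedBall hδ)
    have h2 := s.M_sub_left (measurableSet_closedBall (x := a0) (ε := δ))
      (measurableSet_closedBall (x := a0) (ε := ε)) (closedBall_subset_closedBall hδ)
    calc _ = s.M (closedBall a0 δ) * (s.M (closedBall a0 ε) * s.U (t - (w + a0)) * T *
        (s.U (w + a0) * s.M (closedBall a0 ε))) * s.M (closedBall a0 δ) := by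
          conv_lhs => rw [← h1, ← h2]
          simp only [mul_assoc, h1, h2]
          rw [← mul_assoc (s.M (closedBall a0 δ)) (s.M (closedBall a0 ε)), h1]
      _ = 0 := by rw [h]; simp
  · intro a ha
    by_cases h1 : a + w ∈ s.Spp a0
    · have h2 := hcon (a + w) (by simpa using ha) h1
      obtain ⟨ε, hε, hεr, hZ⟩ := s.exists_Z hr h2
      have hCε : closedBall a0 ε ⊆ A := (closedBall_subset_closedBall hεr).trans hC
      refine ⟨ε, hε, fun T hT hTA hTa => ?_⟩
      have := s.zero_loc (a := a) (a' := a0) (u := t - (w + a0)) hCε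
        (by convert hZ using 1; abel) hT hTA hTa measurableSet_closedBall hCε Subset.rfl
      rw [this, zero_mul]
    · obtain ⟨ε, hε, hεr, hZ⟩ := s.exists_Z hr h1
      have hCε : closedBall a0 ε ⊆ A := (closedBall_subset_closedBall hεr).trans hC
      refine ⟨ε, hε, fun T hT hTA hTa => ?_⟩
      have := s.zero_loc (a := a0) (a' := a) (u := w + a0) hCε
        (by convert hZ using 1; abel) measurableSet_closedBall hCε Subset.rfl hT hTA hTa
      rw [mul_assoc, ← mul_assoc (s.M T), this, mul_zero]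

lemma zero_compact {a0 : V} {r : ℝ} (hr : 0 < r) (hC : closedBall a0 r ⊆ A)
    {K K' : Set V} (hK : IsCompact K) (hK' : IsCompact K') (hKA : K ⊆ A) (hKA' : K' ⊆ A) {u : V}
    (h : ∀ a ∈ K, ∀ a' ∈ K', u + a' - a ∉ s.Spp a0) : s.M K' * s.U u * s.M K = 0 := by
  have key := s.compact_ind hK (fun _ => s.M K' * s.U u) (fun _ => 1)
    (fun _ _ _ _ _ h => h) ?_
  · obtain ⟨_, -, h1⟩ := key
    simpa using h1
  intro a ha
  have key := s.compact_ind hK' (fun _ => 1)
    (fun ε => s.U u * s.M (K ∩ closedBall a ε)) ?_ ?_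
  · obtain ⟨ε, hε, h1⟩ := key
    refine ⟨ε, hε, fun T hT hTK hTa => ?_⟩
    have h2 := s.M_sub_left hT (hK.measurableSet.inter measurableSet_closedBall)
      (subset_inter hTK hTa)
    rw [← h2, mul_one]
    simp only [one_mul] at h1
    calc _ = s.M K' * (s.U u * s.M (K ∩ closedBall a ε)) * s.M T := by simp only [mul_assoc]
      _ = 0 := by rw [h1, zero_mul]
  · intro T δ ε _ hδ h
    have h2 := s.M_sub_left (hK.measurableSet.inter (measurableSet_closedBall (x := a) (ε := δ)))
      (hK.measurableSet.inter (measurableSet_closedBall (x := a) (ε := ε)))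
      (inter_subset_inter_right _ (closedBall_subset_closedBall hδ))
    rw [← h2]
    calc _ = 1 * T * (s.U u * s.M (K ∩ closedBall a ε)) * s.M (K ∩ closedBall a δ) := by
          simp only [mul_assoc]
      _ = 0 := by rw [h, zero_mul]
  · intro a' ha'
    obtain ⟨ε, hε, hεr, hZ⟩ := s.exists_Z hr (h a ha a' ha')
    have hCε : closedBall a0 ε ⊆ A := (closedBall_subset_closedBall hεr).trans hC
    refine ⟨ε, hε, fun T hT hTK hTa => ?_⟩
    have := s.zero_loc hCε hZ (hK.measurableSet.inter measurableSet_closedBall)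
      (inter_subset_left.trans hKA) inter_subset_right hT (hTK.trans hKA') hTa
    rw [one_mul, ← mul_assoc, this]

lemma commute_ball [ProperSpace V] {a0 : V} {r : ℝ} (hA : IsCompact A) (hr : 0 < r)
    (hC : closedBall a0 r ⊆ interior A) {τ : V}
    (h : ∀ t ∈ interior (A - A), t ≠ 0 → τ + t ∉ s.Spp a0) :
    s.U τ * s.M (closedBall a0 r) = s.M (closedBall a0 r) * s.U τ := by
  have hCA : closedBall a0 r ⊆ A := hC.trans interior_subset
  let K : ℕ → Set V := fun n => A \ ball a0 (r + 1 / ((n : ℝ) + 1))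
  have hK : ∀ n, IsCompact (K n) := fun n => hA.diff isOpen_ball
  have hU : ⋃ n, K n = A \ closedBall a0 r := by
    ext x
    simp only [K, mem_iUnion, mem_sdiff, mem_ball, mem_closedBall, not_lt, not_le]
    constructor
    · rintro ⟨n, h1, h2⟩
      have : (0 : ℝ) < 1 / ((n : ℝ) + 1) := by positivity
      exact ⟨h1, by linarith⟩
    · rintro ⟨h1, h2⟩
      obtain ⟨n, hn⟩ := exists_nat_one_div_lt (sub_pos.2 h2)
      exact ⟨n, h1, by linarith⟩
  have hne : ∀ n, ∀ a ∈ closedBall a0 r, ∀ a' ∈ K n, a ≠ a' := by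
    rintro n a ha a' ha' rfl
    have : a ∈ ⋃ n, K n := mem_iUnion.2 ⟨n, ha'⟩
    rw [hU] at this
    exact this.2 ha
  have h1 : s.M (A \ closedBall a0 r) * (s.U τ * s.M (closedBall a0 r)) = 0 := by
    rw [← hU]
    refine s.sigL K _ (fun n => (hK n).measurableSet) fun n => ?_
    rw [← mul_assoc]
    refine s.zero_compact hr hCA (isCompact_closedBall _ _) (hK n) hCA sdiff_subset ?_
    intro a ha a' ha'
    rw [add_sub_assoc]
    exact h _ (subset_interior_sub_right (sub_mem_sub ha'.1 (hC ha)))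
      (sub_ne_zero.2 (hne n a ha a' ha').symm)
  have h2 : (s.M (closedBall a0 r) * s.U τ) * s.M (A \ closedBall a0 r) = 0 := by
    rw [← hU]
    refine s.sigR K _ (fun n => (hK n).measurableSet) fun n => ?_
    refine s.zero_compact hr hCA (hK n) (isCompact_closedBall _ _) sdiff_subset hCA ?_
    intro a ha a' ha'
    rw [add_sub_assoc]
    exact h _ (subset_interior_sub_left (sub_mem_sub (hC ha') ha.1))
      (sub_ne_zero.2 (hne n a' ha' a ha))
  have h3 := s.M_split A (closedBall a0 r) hA.measurableSet measurableSet_closedBall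
  rw [s.M_A, inter_eq_right.2 hCA] at h3
  calc s.U τ * s.M (closedBall a0 r) = 1 * (s.U τ * s.M (closedBall a0 r)) := (one_mul _).symm
    _ = s.M (closedBall a0 r) * (s.U τ * s.M (closedBall a0 r)) := by
        rw [h3, add_mul, h1, add_zero]
    _ = (s.M (closedBall a0 r) * s.U τ) * 1 := by
        rw [h3, mul_add, h2, add_zero, mul_assoc]
    _ = _ := mul_one _

end Sys

end Pool.Agent.Lib.MP_61fe1c_an
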