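import Pool.Agent.Lib.MP_61fe1c_an.Vor

/-!
Affine images of Voronoi cells.
-/

set_option linter.unusedSectionVars false

open Set Filter Topology MeasureTheory ComplexConjugate
open scoped Pointwise

namespace Pool.Agent.Lib.MP_61fe1c_an

lemma Stmt.shift {V : Type} [NormedAddCommGroup V] [NormedSpace ℝ V] [FiniteDimensional ℝ V]
    [MeasurableSpace V] [BorelSpace V] {A : Set V} (hA : MeasurableSet A) (h : Stmt V A) (b : V) :
    Stmt V ((fun x => x + b) ⁻¹' A) := by
  intro μ _ Y _ ν _ I ξ k J hk h1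
  have hm : MeasurableSet ((fun x => x + b) ⁻¹' A) := hA.preimage (by fun_prop)
  have hf := (measurePreserving_add_right μ (-b)).restrict_preimage hm
  have e : (fun x => x + -b) ⁻¹' ((fun x => x + b) ⁻¹' A) = A := by ext x; simp
  rw [e] at hf
  let g : V × Y ≃ᵐ V × Y :=
    MeasurableEquiv.prodCongr (MeasurableEquiv.addRight (-b)) (MeasurableEquiv.refl Y)
  have hg : MeasurePreserving g ((μ.restrict A).prod ν)
      ((μ.restrict ((fun x => x + b) ⁻¹' A)).prod ν) := hf.prod (MeasurePreserving.id ν)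
  have h2 := h1.comp g hg
  have h3 : (fun i x => pr ξ k i (g x)) = pr ξ fun i y => ch (ξ i) (-b) * k i y := by
    ext i ⟨x, y⟩
    change ch (ξ i) (x + -b) * k i y = ch (ξ i) x * (ch (ξ i) (-b) * k i y)
    rw [ch_add, mul_assoc]
  rw [h3] at h2
  obtain ⟨J', hJ, h4, h5⟩ := h μ Y ν I ξ _ J ⟨fun i => (hk.meas i).const_mul _,
    fun i y => by rw [norm_mul, ch_norm, hk.norm, one_mul]⟩ h2
  have e1 : ∀ (i : I) (f : Y → ℂ), ∫ y, conj (ch (ξ i) (-b) * k i y) * f y ∂ν =
      conj (ch (ξ i) (-b)) * ∫ y, conj (k i y) * f y ∂ν := fun i f => by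
    rw [← integral_const_mul]
    congr 1; ext y
    rw [map_mul, mul_assoc]
  refine ⟨J', hJ, fun i hi j hj hij => ?_, fun f hf h0 => h5 f hf fun i hi => by
    rw [e1, h0 i hi, mul_zero]⟩
  have h6 := h4 i hi j hj hij
  rw [e1, mul_eq_zero, map_eq_zero] at h6
  have h7 := h6.resolve_left (ch_ne_zero _ _)
  simp_rw [mul_left_comm (conj (k i _))] at h7
  rw [integral_const_mul] at h7
  exact (mul_eq_zero.1 h7).resolve_left (ch_ne_zero _ _)

variable {E : Type} [NormedAddCommGroup E] [InnerProductSpace ℝ E] [FiniteDimensional ℝ E]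

lemma exists_lat (L : Submodule ℤ E) [DiscreteTopology L] [IsZLattice ℝ L] :
    ∃ ρ, Lat L.toAddSubgroup ρ := by
  classical
  let b := (Module.Free.chooseBasis ℤ L).ofZLatticeBasis ℝ L
  have hb : Submodule.span ℤ (range b) = L := Module.Basis.ofZLatticeBasis_span ℝ L _
  refine ⟨∑ i, ‖b i‖, fun R => ?_, fun x => ⟨ZSpan.floor b x, ?_, ZSpan.norm_fract_le b x⟩⟩
  · refine (ZSpan.setFinite_inter b (s := Metric.closedBall 0 R)
      Metric.isBounded_closedBall).subset fun x hx => ⟨by simpa using hx.2, ?_⟩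
    rw [hb]; exact hx.1
  · exact hb.le (ZSpan.floor b x).2

lemma pre_eq {V : Type} [AddCommGroup V] [Module ℝ V] (L : Set E) (T : V ≃ᵃ[ℝ] E) :
    T ⁻¹' {x | ∀ l ∈ L, ‖x‖ ≤ ‖x - l‖} =
      (fun x => x + T.linear.symm (T 0)) ⁻¹' (T.linear ⁻¹' vor L) := by
  ext x
  have : T x = T.linear x + T 0 := by simpa using T.map_vadd 0 x
  simp [vor, norm_le_iff, this]

theorem spectral_of_good {n m : ℕ} {L : Set E} (hL : Good (vor L)) (T : (Fin n → ℝ) ≃ᵃ[ℝ] E)
    {B : Set (Fin m → ℝ)} (hB : Bornology.IsBounded B) (hBm : MeasurableSet B)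
    (hs : isSpectral (N0f6e0b2f.productSet (T ⁻¹' {x | ∀ l ∈ L, ‖x‖ ≤ ‖x - l‖}) B)) :
    isSpectral B := by
  rw [pre_eq] at hs
  have hG : Good (T.linear ⁻¹' vor L) := hL.pre T.linear.toContinuousLinearEquiv
  exact bridge (hG.cpt.measurableSet.preimage (by fun_prop))
    ((stmt_of_good _ _ _ rfl hG).shift hG.cpt.measurableSet _) hBm hB.measure_lt_top.ne hs

end Pool.Agent.Lib.MP_61fe1c_an
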