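import Pool.Agent.Lib.MP_61fe1c_an.Main
import Pool.Prelude.Def_F_5667f3e8

/-!
Bridge to the frozen definitions.
-/

set_option linter.unusedSectionVars false

open Set Filter Topology MeasureTheory ComplexConjugate
open scoped Pointwise InnerProductSpace

namespace Pool.Agent.Lib.MP_61fe1c_an

lemma spectralPair_iff {d : ℕ} {Ω Λ : Set (Fin d → ℝ)} (hΩ : volume Ω ≠ ⊤) :
    spectralPair Ω Λ ↔ OB (volume.restrict Ω) (fun ξ => exponentialCharacter ξ) Λ := by
  have hin : ∀ (ξ : Fin d → ℝ) {f : (Fin d → ℝ) → ℂ} (hf : MemLp f 2 (volume.restrict Ω)),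
      ⟪(exponentialCharacter_memLp hΩ ξ).toLp _, hf.toLp f⟫_ℂ =
        ∫ x in Ω, conj (exponentialCharacter ξ x) * f x := fun ξ f hf =>
    inner_eq (MemLp.coeFn_toLp _) (MemLp.coeFn_toLp _)
  constructor
  · rintro ⟨_, h1, h2⟩
    refine ⟨fun i hi j hj hij => ?_, fun f hf h0 => ?_⟩
    · rw [← hin i (exponentialCharacter_memLp hΩ j)]
      exact h1 i hi j hj hij
    · rw [Submodule.topologicalClosure_eq_top_iff, Submodule.eq_bot_iff] at h2
      have h3 := h2 (hf.toLp f) (by
        rw [Submodule.mem_orthogonal']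
        intro u hu
        rw [inner_eq_zero_symm]
        induction hu using Submodule.span_induction with
        | mem x hx =>
          obtain ⟨ξ, rfl⟩ := hx
          exact (hin ξ hf).trans (h0 ξ ξ.2)
        | zero => simp
        | add x y _ _ hx hy => rw [inner_add_left, hx, hy, add_zero]
        | smul a x _ hx => rw [inner_smul_left, hx, mul_zero])
      have h4 := hf.coeFn_toLp
      rw [h3] at h4
      exact h4.symm.trans (Lp.coeFn_zero _ _ _)
  · rintro ⟨h1, h2⟩
    refine ⟨hΩ, fun i hi j hj hij => ?_, ?_⟩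
    · exact (hin i (exponentialCharacter_memLp hΩ j)).trans (h1 i hi j hj hij)
    · rw [Submodule.topologicalClosure_eq_top_iff]
      refine orth_bot _ fun f hf => ?_
      have := h2 f (Lp.memLp f) fun i hi => by
        rw [← hin i (Lp.memLp f), Lp.toLp_coeFn]
        exact hf ⟨i, hi⟩
      exact Lp.ext (this.trans (Lp.coeFn_zero _ _ _).symm)

/-- splitting of coordinates -/
def splitE (n m : ℕ) : (Fin (n + m) → ℝ) ≃ₗ[ℝ] (Fin n → ℝ) × (Fin m → ℝ) where
  toFun x := (fun i => x (Fin.castAdd m i), fun j => x (Fin.natAdd n j))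
  map_add' _ _ := rfl
  map_smul' _ _ := rfl
  invFun p := Fin.append p.1 p.2
  left_inv x := by
    ext i
    refine Fin.addCases (fun i => ?_) (fun j => ?_) i <;> simp
  right_inv p := by ext <;> simp

/-- the functional attached to a vector -/
def dotL {n : ℕ} (ξ : Fin n → ℝ) : (Fin n → ℝ) →ₗ[ℝ] ℝ where
  toFun x := ∑ i, ξ i * x i
  map_add' x y := by simp [mul_add, Finset.sum_add_distrib]
  map_smul' c x := by simp [Finset.mul_sum, mul_left_comm]

theorem bridge {n m : ℕ} {A : Set (Fin n → ℝ)} (hA : MeasurableSet A) (h : Stmt _ A)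
    {B : Set (Fin m → ℝ)} (hB : MeasurableSet B) (hB' : volume B ≠ ⊤)
    (hs : isSpectral (N0f6e0b2f.productSet A B)) : isSpectral B := by
  obtain ⟨Λ, hΛ⟩ := hs
  have hfin := hΛ.1
  rw [spectralPair_iff hfin] at hΛ
  let f : ((Fin n → ℝ) × (Fin m → ℝ)) ≃L[ℝ] (Fin (n + m) → ℝ) :=
    (splitE n m).symm.toContinuousLinearEquiv
  obtain ⟨μ₁, _, hf⟩ := exists_haar f volume volume
  have e : f ⁻¹' N0f6e0b2f.productSet A B = A ×ˢ B := by
    ext p
    change _ ∈ A ∧ _ ∈ B ↔ _
    simp [f, splitE]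
  have hm : MeasurableSet (N0f6e0b2f.productSet A B) :=
    (hA.preimage (by fun_prop)).inter (hB.preimage (by fun_prop))
  have hf' := hf.restrict_preimage hm
  rw [e, ← Measure.prod_restrict] at hf'
  have h1 := hΛ.comp f.toHomeomorph.toMeasurableEquiv hf'
  have : IsFiniteMeasure (volume.restrict B) := ⟨by simpa using hB'.lt_top⟩
  obtain ⟨J, -, h2⟩ := h μ₁ _ (volume.restrict B) (Fin (n + m) → ℝ)
    (fun l => dotL (splitE n m l).1) (fun l => exponentialCharacter (splitE n m l).2) Λ
    ⟨fun _ => (continuous_exponentialCharacter _).measurable,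
      fun _ _ => norm_exponentialCharacter _ _⟩ (by
      convert h1 using 1
      ext l p
      change ch _ _ * _ = exponentialCharacter l (Fin.append p.1 p.2)
      simp only [ch, exponentialCharacter, ← Complex.exp_add, Fin.sum_univ_add, Fin.append_left,
        Fin.append_right]
      congr 1
      simp only [dotL, splitE, LinearMap.coe_mk, AddHom.coe_mk, LinearEquiv.coe_mk]
      push_cast
      ring)
  refine ⟨(fun l => (splitE n m l).2) '' J, (spectralPair_iff hB').2 ⟨?_, fun g hg h0 => ?_⟩⟩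
  · rintro _ ⟨i, hi, rfl⟩ _ ⟨j, hj, rfl⟩ hij
    exact h2.1 i hi j hj fun h => hij (by rw [h])
  · exact h2.2 g hg fun i hi => h0 _ ⟨i, hi, rfl⟩

end Pool.Agent.Lib.MP_61fe1c_an
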