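import Pool.Agent.Lib.MP_61fe1c_an.Geo

/-!
A polytope whose facet vectors lie in a packing group `L` tiles with `L`; the locked case.
-/

set_option linter.unusedSectionVars false

open Set Filter Topology MeasureTheory ComplexConjugate
open scoped Pointwise

namespace Pool.Agent.Lib.MP_61fe1c_an

variable {V : Type} [NormedAddCommGroup V] [NormedSpace ℝ V] [FiniteDimensional ℝ V]
variable {A : Set V}

/-- `A` is an intersection of finitely many half-spaces -/
def IsH (A : Set V) : Prop :=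
  ∃ (ι : Type) (_ : Finite ι) (n : ι → V →ₗ[ℝ] ℝ) (h : ι → ℝ), A = {x | ∀ i, n i x ≤ h i}

lemma dirs_of_H {ι : Type} [Finite ι] {n : ι → V →ₗ[ℝ] ℝ} {h : ι → ℝ} {y v : V}
    (hy : ∀ i, n i y ≤ h i) (hv : ∀ i, n i y = h i → n i v = 0) :
    v ∈ dirs {x | ∀ i, n i x ≤ h i} y := by
  refine eventually_all.2 fun i => ?_
  rcases (hy i).eq_or_lt with h1 | h1
  · exact Eventually.of_forall fun t => by simp [hv i h1, h1]
  · have hc : ContinuousAt (fun t : ℝ => n i y + t * n i v) 0 := by fun_prop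
    have := hc.eventually (gt_mem_nhds (a := h i) (by simpa using h1))
    filter_upwards [this] with t ht
    simpa using ht.le

lemma cone (hA : Convex ℝ A) (hi : (interior A).Nonempty) {φ : V →ₗ[ℝ] ℝ} (h0 : φ ≠ 0) {y d : V}
    (hy : y ∈ face A φ) (hk : ∀ v, φ v = 0 → v ∈ dirs A y) (hd : φ d ≤ 0) :
    ∀ᶠ ε in 𝓝[>] (0 : ℝ), y + ε • d ∈ A := by
  obtain ⟨a, ha⟩ := hi
  have h1 : φ (a - y) < 0 := by
    rw [map_sub, sub_neg]
    refine lt_of_le_of_ne (hy.2 a (interior_subset ha)) fun h => h0 ?_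
    exact eq_zero_of_max ha fun z hz => h ▸ hy.2 z hz
  set l := φ d / φ (a - y) with hl
  have hl0 : 0 ≤ l := div_nonneg_of_nonpos hd h1.le
  have hv : φ (d - l • (a - y)) = 0 := by
    rw [map_sub, map_smul, smul_eq_mul, hl, div_mul_cancel₀ _ h1.ne, sub_self]
  have hc : ContinuousAt (fun t : ℝ => 2 * t * l) 0 := by fun_prop
  have h2 := hc.eventually (gt_mem_nhds (a := 1) (by simp))
  filter_upwards [eventually_mem_nhdsWithin (s := Ioi (0 : ℝ)) (a := 0),
    Eventually.filter_mono nhdsWithin_le_nhds h2,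
    Eventually.filter_mono nhdsWithin_le_nhds (dirs_smul (hk _ hv) 2)] with t ht h3 h4
  have ht' : 0 < t := ht
  have h5 := hA.add_smul_sub_mem hy.1 (interior_subset ha) (t := 2 * t * l)
    ⟨by positivity, h3.le⟩
  have := hA h4 h5 (a := 1 / 2) (b := 1 / 2) (by norm_num) (by norm_num) (by norm_num)
  convert this using 1
  module

lemma opp_reg {φ : V →ₗ[ℝ] ℝ} {α τ : V} (hF : α ∈ face A φ) (hk : ∀ v, φ v = 0 → v ∈ dirs A α)
    (hτ : ∀ y, y ∈ face A φ ↔ y - τ ∈ face A (-φ)) :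
    ∀ v, (-φ) v = 0 → v ∈ dirs A (α - τ) := by
  intro v hv
  have hv' : φ v = 0 := by simpa using hv
  filter_upwards [hk v hv'] with r hr
  have := ((hτ (α + r • v)).1 ⟨hr, fun y hy => by simpa [hv'] using hF.2 y hy⟩).1
  convert this using 1
  abel

lemma discrete_of_pack (hi : (interior A).Nonempty) {L : AddSubgroup V}
    (hL : ∀ l ∈ L, l ∈ interior (A - A) → l = 0) : DiscreteTopology L := by
  refine discreteTopology_of_isOpen_singleton_zero ?_
  have : ({0} : Set L) = (fun x : L => (x : V)) ⁻¹' interior (A - A) := by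
    ext x
    constructor
    · rintro rfl; exact zero_mem_G hi
    · intro hx; exact Subtype.ext (hL x x.2 hx)
  rw [this]
  exact isOpen_interior.preimage continuous_subtype_val

lemma dense_ne (ψ : V →ₗ[ℝ] ℝ) : Dense {d | ψ ≠ 0 → ψ d ≠ 0} := by
  by_cases h : ψ = 0
  · simp [h]
  · have : {d | ψ ≠ 0 → ψ d ≠ 0} = {d | ψ d = 0}ᶜ := by ext d; simp [h]
    rw [this, ← interior_eq_empty_iff_dense_compl, eq_empty_iff_forall_notMem]
    intro x hx
    refine h (eq_zero_of_max hx fun y hy => ?_)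
    have h1 : ψ x = 0 := interior_subset (s := {d | ψ d = 0}) hx
    rw [h1]; exact le_of_eq hy

lemma isOpen_ne (ψ : V →ₗ[ℝ] ℝ) : IsOpen {d | ψ ≠ 0 → ψ d ≠ 0} := by
  by_cases h : ψ = 0
  · simp [h]
  · have : {d | ψ ≠ 0 → ψ d ≠ 0} = {d | ψ d ≠ 0} := by ext d; simp [h]
    rw [this]
    exact isOpen_ne_fun ψ.continuous_of_finiteDimensional continuous_const

theorem cover (hA : Convex ℝ A) (hK : IsCompact A) (hi : (interior A).Nonempty) (hH : IsH A)
    {L : AddSubgroup V} (hL : ∀ l ∈ L, l ∈ interior (A - A) → l = 0)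
    (hreg : ∀ (φ : V →ₗ[ℝ] ℝ) (c : V), φ ≠ 0 → c ∈ face A φ → (∀ v, φ v = 0 → v ∈ dirs A c) →
      ∃ τ ∈ L, ∀ y, y ∈ face A φ ↔ y - τ ∈ face A (-φ)) (p : V) : ∃ l ∈ L, p + l ∈ A := by
  obtain ⟨ι, _, n, h, hAH⟩ := hH
  have := discrete_of_pack hi hL
  have : Countable L := countable_of_Lindelof_of_discrete
  have hC : IsClosed {p | ∃ l ∈ (L : Set V), p + l ∈ A} :=
    closed_ex AddSubgroup.isClosed_of_discrete hK
  set C := {p | ∃ l ∈ (L : Set V), p + l ∈ A} with hCdef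
  by_contra hp
  obtain ⟨a, ha⟩ := id hi
  let H : L → ι → ℝ := fun l i => h i - n i (a + l)
  have hD : Dense ((⋂ x : L × ι × ι, {d | (H x.1 x.2.1 • n x.2.2 - H x.1 x.2.2 • n x.2.1) ≠ 0 →
      (H x.1 x.2.1 • n x.2.2 - H x.1 x.2.2 • n x.2.1) d ≠ 0}) ∩ ⋂ i, {d | n i ≠ 0 → n i d ≠ 0}) :=
    (dense_iInter_of_isOpen (fun _ => isOpen_ne _) fun _ => dense_ne _).inter_of_isOpen_right
      (dense_iInter_of_isOpen (fun _ => isOpen_ne _) fun _ => dense_ne _)
      (isOpen_iInter_of_finite fun _ => isOpen_ne _)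
  obtain ⟨d, hd1, hd2, hd3⟩ := hD.inter_open_nonempty {d | a + d ∈ Cᶜ}
    (hC.isOpen_compl.preimage (f := fun d => a + d) (by fun_prop)) ⟨p - a, by
      change a + (p - a) ∉ C
      rw [add_sub_cancel]; exact hp⟩
  rw [mem_iInter] at hd2 hd3
  have hΘ : IsCompact (Icc (0 : ℝ) 1 ∩ {θ | a + θ • d ∈ C}) :=
    isCompact_Icc.inter_right (hC.preimage (f := fun θ : ℝ => a + θ • d) (by fun_prop))
  obtain ⟨θ, ⟨hθ, l, hl, hy⟩, hmax⟩ := hΘ.exists_isGreatest
    ⟨0, ⟨le_rfl, zero_le_one⟩, 0, L.zero_mem, by simpa using interior_subset ha⟩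
  have hθ1 : θ < 1 := lt_of_le_of_ne hθ.2 fun h => hd1 ⟨l, hl, by simpa [h] using hy⟩
  suffices hs : ∀ᶠ ε in 𝓝[>] (0 : ℝ), a + θ • d + ε • d ∈ C by
    have h2 : ∀ᶠ ε in 𝓝 (0 : ℝ), ε ≤ 1 - θ := Iic_mem_nhds (by linarith)
    obtain ⟨ε, h3, h4, h5⟩ := ((eventually_mem_nhdsWithin (s := Ioi (0 : ℝ)) (a := 0)).and
      ((Eventually.filter_mono nhdsWithin_le_nhds h2).and hs)).exists
    have h3' : 0 < ε := h3
    have := hmax (a := θ + ε) ⟨⟨by linarith [hθ.1], by linarith⟩, by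
      change a + (θ + ε) • d ∈ C
      rwa [add_smul, ← add_assoc]⟩
    linarith
  rcases hθ.1.eq_or_lt with h0 | h0
  · subst h0
    have hc : ContinuousAt (fun t : ℝ => a + t • d) 0 := by fun_prop
    have := hc.eventually (p := fun x => x ∈ A) (by simpa using mem_interior_iff_mem_nhds.1 ha)
    filter_upwards [Eventually.filter_mono nhdsWithin_le_nhds this] with t ht
    exact ⟨0, L.zero_mem, by simpa using ht⟩
  set y := a + θ • d + l with hydef
  have hy' : ∀ i, n i y ≤ h i := by rw [hAH] at hy; exact hy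
  have hH : ∀ i, n i y = h i → H ⟨l, hl⟩ i = θ * n i d := by
    intro i hi
    simp only [H, hydef, map_add, map_smul, smul_eq_mul] at hi ⊢
    linarith
  have e : ∀ (t : ℝ) (w : V), a + θ • d + t • d + (l + w) = y + w + t • d := by
    intro t w; rw [hydef]; abel
  by_cases ht : ∃ i, n i y = h i ∧ n i ≠ 0
  · obtain ⟨i, hi1, hi2⟩ := ht
    have hF : y ∈ face A (n i) := ⟨hy, fun z hz => by rw [hAH] at hz; rw [hi1]; exact hz i⟩
    have hk : ∀ v, n i v = 0 → v ∈ dirs A y := by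
      intro v hv
      rw [hAH]
      refine dirs_of_H hy' fun j hj => ?_
      have h1 : H ⟨l, hl⟩ i • n j - H ⟨l, hl⟩ j • n i = 0 := by
        by_contra h'
        apply hd2 (⟨l, hl⟩, i, j) h'
        simp only [LinearMap.sub_apply, LinearMap.smul_apply, smul_eq_mul, hH i hi1, hH j hj]
        ring
      have h2 := congrArg (fun ψ : V →ₗ[ℝ] ℝ => ψ v) h1
      simp only [LinearMap.sub_apply, LinearMap.smul_apply, smul_eq_mul, hv, mul_zero, sub_zero,
        LinearMap.zero_apply, hH i hi1] at h2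
      exact (mul_eq_zero.1 h2).resolve_left (mul_ne_zero h0.ne' (hd3 i hi2))
    rcases le_total (n i d) 0 with h1 | h1
    · filter_upwards [cone hA hi hi2 hF hk h1] with t ht
      exact ⟨l + 0, by simpa using hl, by rw [e]; simpa using ht⟩
    · obtain ⟨τ, hτL, hτ⟩ := hreg _ _ hi2 hF hk
      filter_upwards [cone hA hi (neg_ne_zero.2 hi2) ((hτ y).1 hF) (opp_reg hF hk hτ) (d := d)
        (by simpa using h1)] with t ht
      exact ⟨l + -τ, L.add_mem hl (L.neg_mem hτL), by rw [e, ← sub_eq_add_neg]; exact ht⟩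
  · push Not at ht
    have : d ∈ dirs A y := by
      rw [hAH]
      exact dirs_of_H hy' fun j hj => by simp [ht j hj]
    filter_upwards [Eventually.filter_mono nhdsWithin_le_nhds this] with t ht
    exact ⟨l + 0, by simpa using hl, by rw [e]; simpa using ht⟩

variable [MeasurableSpace V] [BorelSpace V]

theorem integral_ch_eq_zero (μ : Measure V) [μ.IsAddHaarMeasure] (hA : Convex ℝ A)
    (hK : IsCompact A) (hi : (interior A).Nonempty)
    {L : AddSubgroup V} (hL : ∀ l ∈ L, l ∈ interior (A - A) → l = 0)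
    (hc : ∀ p, ∃ l ∈ L, p + l ∈ A) {γ : V →ₗ[ℝ] ℝ} (h0 : γ ≠ 0)
    (hγ : ∀ l ∈ L, ∃ n : ℤ, γ l = n) : ∫ x in A, ch γ x ∂μ = 0 := by
  have := discrete_of_pack hi hL
  have : Countable L := countable_of_Lindelof_of_discrete
  have hF : IsAddFundamentalDomain L A μ := by
    refine IsAddFundamentalDomain.mk'' hK.measurableSet.nullMeasurableSet
      (ae_of_all _ fun x => ?_) (fun g hg => ?_)
      (fun g => (measurePreserving_vadd g μ).quasiMeasurePreserving)
    · obtain ⟨l, hl, h⟩ := hc x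
      exact ⟨⟨l, hl⟩, by rw [add_comm] at h; exact h⟩
    · refine measure_mono_null ?_ (hA.addHaar_frontier μ)
      rintro _ ⟨⟨x, hx, rfl⟩, hx'⟩
      refine ⟨subset_closure hx', fun h => hg (Subtype.ext (hL _ g.2 ?_))⟩
      have := subset_interior_sub_left (sub_mem_sub h hx)
      simpa [AddSubgroup.vadd_def] using this
  obtain ⟨u, hu⟩ : ∃ u, γ u ≠ 0 := by
    by_contra h'
    push Not at h'
    exact h0 (LinearMap.ext h')
  set t := (1 / 2 / γ u) • u with ht
  have h1 : ch γ t ≠ 1 := by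
    rw [Ne, ch_eq_one_iff]
    rintro ⟨n, hn⟩
    rw [ht, map_smul, smul_eq_mul, div_mul_cancel₀ _ hu] at hn
    have h2 : (1 : ℤ) = 2 * n := by
      have : (1 : ℝ) = 2 * n := by linarith
      exact_mod_cast this
    omega
  have h2 := hF.setIntegral_eq (hF.vadd_of_comm t) (f := ch γ) (fun g x => by
    rw [AddSubgroup.vadd_def, vadd_eq_add, ch_add, (ch_eq_one_iff _ _).2 (hγ _ g.2), one_mul])
  have h3 : t +ᵥ A = (fun x => x - t) ⁻¹' A := by
    ext x
    rw [mem_vadd_set_iff_neg_vadd_mem, vadd_eq_add, mem_preimage, neg_add_eq_sub]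
  rw [h3, setIntegral_ch_shift μ γ hK.measurableSet] at h2
  have h4 : (1 - ch γ t) * ∫ x in A, ch γ x ∂μ = 0 := by rw [sub_mul, one_mul, ← h2, sub_self]
  exact (mul_eq_zero.1 h4).resolve_left (sub_ne_zero.2 h1.symm)

variable {Y : Type} [MeasurableSpace Y] {I : Type}

theorem locked_case (μ : Measure V) [μ.IsAddHaarMeasure] (hK : IsCompact A)
    (hi : (interior A).Nonempty) (ν : Measure Y) [IsFiniteMeasure ν]
    (ξ : I → V →ₗ[ℝ] ℝ) {k : I → Y → ℂ} (hk : Uni k) {J : Set I}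
    (h : OB ((μ.restrict A).prod ν) (pr ξ k) J) (Γ : AddSubgroup (V →ₗ[ℝ] ℝ))
    (hΓ : ∀ γ ∈ Γ, γ ≠ 0 → ∫ x in A, ch γ x ∂μ = 0)
    (hrel : ∀ i ∈ J, ∀ j ∈ J, ∫ y, conj (k i y) * k j y ∂ν ≠ 0 → ξ j - ξ i ∈ Γ) :
    ∃ J' ⊆ J, OB ν k J' := by
  have : IsFiniteMeasure (μ.restrict A) := ⟨by simpa using hK.measure_lt_top⟩
  have hpos : ∫ x in A, ch (0 : V →ₗ[ℝ] ℝ) x ∂μ ≠ 0 := by
    simp only [ch_zero_left, integral_const, Complex.real_smul, mul_one]
    have : 0 < μ.real A := ENNReal.toReal_pos (Measure.measure_pos_of_nonempty_interior μ hi).ne'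
      hK.measure_lt_top.ne
    simpa using this.ne'
  have hprod : ∀ (i : I) (ψ : V →ₗ[ℝ] ℝ) (g : Y → ℂ),
      ∫ p, conj (pr ξ k i p) * (ch ψ p.1 * g p.2) ∂(μ.restrict A).prod ν =
        (∫ x in A, ch (ψ - ξ i) x ∂μ) * ∫ y, conj (k i y) * g y ∂ν := by
    intro i ψ g
    rw [← integral_prod_mul]
    congr 1; ext p
    rw [ch_sub_left]; simp only [pr, map_mul]; ring
  have hmem : ∀ (ψ : V →ₗ[ℝ] ℝ) {g : Y → ℂ}, MemLp g 2 ν →
      MemLp (fun p : V × Y => ch ψ p.1 * g p.2) 2 ((μ.restrict A).prod ν) := by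
    intro ψ g hg
    have h1 : MemLp (fun p : V × Y => g p.2) 2 ((μ.restrict A).prod ν) := hg.comp_snd _
    refine h1.of_le (((continuous_ch ψ).measurable.comp measurable_fst).aestronglyMeasurable.mul
      h1.1) (ae_of_all _ fun p => ?_)
    rw [norm_mul, ch_norm, one_mul]
  let s : (V →ₗ[ℝ] ℝ) → (V →ₗ[ℝ] ℝ) := fun φ => (QuotientAddGroup.mk (s := Γ) φ).out
  have hs1 : ∀ φ, s φ - φ ∈ Γ := fun φ => by
    have := QuotientAddGroup.eq.1 (QuotientAddGroup.out_eq' (QuotientAddGroup.mk (s := Γ) φ)).symm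
    rwa [neg_add_eq_sub] at this
  have hs2 : ∀ φ ψ, φ - ψ ∈ Γ → s φ = s ψ := fun φ ψ h => by
    have : (QuotientAddGroup.mk (s := Γ) ψ) = QuotientAddGroup.mk (s := Γ) φ :=
      QuotientAddGroup.eq.2 (by rwa [neg_add_eq_sub])
    simp only [s, this]
  refine ⟨{i ∈ J | ξ i = s (ξ i)}, fun i hi => hi.1, fun i hi j hj hij => ?_, fun g hg hg0 => ?_⟩
  · by_contra hne
    have h1 : ξ j = ξ i := by rw [hi.2, hj.2]; exact hs2 _ _ (hrel i hi.1 j hj.1 hne)
    have h2 := hprod i (ξ j) (k j)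
    rw [h1, sub_self, ← h1] at h2
    exact mul_ne_zero hpos hne (h2.symm.trans (h.1 i hi.1 j hj.1 hij))
  · have key : ∀ j ∈ J, ∫ y, conj (k j y) * g y ∂ν = 0 := by
      intro j hj
      have h1 := h.pz (hk.pr ξ) (hmem (s (ξ j)) (hk.memLp j)) (hmem (s (ξ j)) hg) ?_
      · have h2 : ∫ p, conj (ch (s (ξ j)) p.1 * k j p.2) * (ch (s (ξ j)) p.1 * g p.2)
            ∂(μ.restrict A).prod ν = (∫ x in A, ch (0 : V →ₗ[ℝ] ℝ) x ∂μ) *
              ∫ y, conj (k j y) * g y ∂ν := by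
          rw [← integral_prod_mul, ← sub_self (s (ξ j))]
          congr 1; ext p
          rw [ch_sub_left]; simp only [map_mul]; ring
        rw [h2] at h1
        exact (mul_eq_zero.1 h1).resolve_left hpos
      · intro i hi
        rw [hprod, hprod]
        by_cases h1 : ∫ y, conj (k i y) * k j y ∂ν = 0
        · left; rw [h1, mul_zero]
        · have h2 := hrel i hi j hj h1
          by_cases h3 : s (ξ j) - ξ i = 0
          · right
            rw [hg0 i ⟨hi, by rw [← hs2 _ _ h2]; exact (sub_eq_zero.1 h3).symm⟩, mul_zero]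
          · left
            rw [hΓ _ (by simpa using Γ.add_mem (hs1 (ξ j)) h2) h3, zero_mul]
    have h1 := h.2 _ (hmem 0 hg) fun i hi => by rw [hprod, key i hi, mul_zero]
    have h2 : ∀ᵐ x ∂μ.restrict A, ∀ᵐ y ∂ν, ch (0 : V →ₗ[ℝ] ℝ) x * g y = 0 :=
      Measure.ae_ae_of_ae_prod h1
    have h3 : (ae (μ.restrict A)).NeBot := by
      rw [ae_neBot, Ne, Measure.restrict_eq_zero]
      exact (Measure.measure_pos_of_nonempty_interior μ hi).ne'
    obtain ⟨x, hx⟩ := h2.exists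
    filter_upwards [hx] with y hy
    simpa [ch_zero_left] using hy

end Pool.Agent.Lib.MP_61fe1c_an
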