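import Mathlib

open scoped Pointwise

namespace Pool.Agent.Lib.MP_61fe1c_an

/-- The face of `A` on which the linear functional `φ` is maximal. -/
def face {V : Type} [AddCommGroup V] [Module ℝ V] (A : Set V) (φ : V →ₗ[ℝ] ℝ) : Set V :=
  {x ∈ A | ∀ y ∈ A, φ y ≤ φ x}

end Pool.Agent.Lib.MP_61fe1c_an
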