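import Pool.Agent.Lib.MP_61fe1c_an.Bridge

/-!
From the hypotheses stated with exposed faces to the internal class.
-/

set_option linter.unusedSectionVars false

open Set Filter Topology
open scoped Pointwise

namespace Pool.Agent.Lib.MP_61fe1c_an

variable {V : Type} [NormedAddCommGroup V] [NormedSpace ℝ V] [FiniteDimensional ℝ V] {A : Set V}

lemma mem_interior_of_dirs (hA : Convex ℝ A) {a c : V} (ha : a ∈ interior A)
    (h2 : c - a ∈ dirs A c) : c ∈ interior A := by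
  obtain ⟨ε, hε, h3⟩ := dirs_pos h2
  have h4 := hA.combo_interior_self_mem_interior ha h3 (a := ε / (1 + ε))
    (b := 1 / (1 + ε)) (by positivity) (by positivity) (by field_simp; ring)
  convert h4 using 1
  have h5 : (1 + ε) ≠ 0 := by positivity
  match_scalars
  · field_simp
  · field_simp; ring

lemma exists_face (hH : IsH A) {c : V} (hc : c ∈ A) : ∃ φ : V →ₗ[ℝ] ℝ, Ef A c = face A φ := by
  classical
  obtain ⟨ι, _, n, h, rfl⟩ := hH
  have := Fintype.ofFinite ι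
  let s : Finset ι := Finset.univ.filter fun i => n i c = h i
  have hmax : ∀ y ∈ {x | ∀ i, n i x ≤ h i}, (∑ i ∈ s, n i) y ≤ (∑ i ∈ s, n i) c := by
    intro y hy
    simp only [LinearMap.coe_sum, Finset.sum_apply]
    exact Finset.sum_le_sum fun i hi => (hy i).trans_eq (Finset.mem_filter.1 hi).2.symm
  refine ⟨∑ i ∈ s, n i, Subset.antisymm (fun x hx => ⟨hx.1, fun y hy => ?_⟩) fun x hx => ⟨hx.1, ?_⟩⟩
  · have h1 := map_dirs_eq_zero hmax hx.2
    have h2 := hmax y hy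
    rw [map_sub] at h1
    linarith
  · have h1 : (∑ i ∈ s, n i) x = (∑ i ∈ s, n i) c := le_antisymm (hmax x hx.1) (hx.2 c hc)
    simp only [LinearMap.coe_sum, Finset.sum_apply] at h1
    rw [Finset.sum_eq_sum_iff_of_le
      fun i hi => (hx.1 i).trans_eq (Finset.mem_filter.1 hi).2.symm] at h1
    exact dirs_of_H hc fun i hi => by
      rw [map_sub, h1 i (Finset.mem_filter.2 ⟨Finset.mem_univ _, hi⟩), sub_self]

lemma const_affineSpan {E : Set V} {ψ : V →ₗ[ℝ] ℝ} {r : ℝ} (h : ∀ e ∈ E, ψ e = r) {y : V}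
    (hy : y ∈ affineSpan ℝ E) : ψ y = r :=
  affineSpan_induction (p := fun y => ψ y = r) hy h fun c u v w hu hv hw => by
    simp [hu, hv, hw]

lemma Eo_subset_intrinsicInterior (hA : Convex ℝ A) (hH : IsH A) {c : V} (hc : c ∈ A) :
    Eo A c ⊆ intrinsicInterior ℝ (Ef A c) := by
  intro x hx
  obtain ⟨φ, hφ⟩ := exists_face hH hc
  obtain ⟨ι, _, n, h, hAH⟩ := hH
  have hU : IsOpen {y | ∀ i, n i x < h i → n i y < h i} := by
    rw [ofPred_forall]
    refine isOpen_iInter_of_finite fun i => ?_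
    by_cases hi : n i x < h i
    · simpa [hi] using isOpen_lt (n i).continuous_of_finiteDimensional continuous_const
    · simp [hi]
  refine mem_intrinsicInterior.2 ⟨⟨x, subset_affineSpan _ _ hx.1⟩, ?_, rfl⟩
  refine mem_interior.2 ⟨_, fun y hy => ?_, hU.preimage continuous_subtype_val, fun _ h => h⟩
  have hxA : ∀ i, n i x ≤ h i := by have := hx.1.1; rw [hAH] at this; exact this
  have hyA : (y : V) ∈ A := by
    refine hAH.ge fun i => ?_
    rcases (hxA i).eq_or_lt with h1 | h1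
    · refine (const_affineSpan (fun e he => ?_) y.2).le
      have h2 : e - x ∈ dirs A x := by
        rw [dirs_eq hA hc hx]
        simpa using dirs_sub hA he.2 hx.1.2
      have h3 := map_dirs_eq_zero (φ := n i)
        (fun z hz => by rw [hAH] at hz; rw [h1]; exact hz i) h2
      rw [map_sub] at h3
      linarith
    · exact (hy i h1).le
  have hcF : c ∈ face A φ := hφ ▸ (self_mem_Eo hc).1
  have h4 : φ y = φ c := const_affineSpan (fun e he => by
    rw [hφ] at he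
    exact le_antisymm (hcF.2 e he.1) (he.2 c hc)) y.2
  exact hφ.ge ⟨hyA, fun z hz => h4 ▸ hcF.2 z hz⟩

lemma Ef_sdiff_Eo (hA : Convex ℝ A) (hK : IsCompact A) (hH : IsH A) {c x : V} (hc : c ∈ A)
    (hx : x ∈ intrinsicFrontier ℝ (Ef A c)) : x ∈ Ef A c ∧ x ∉ Eo A c := by
  refine ⟨intrinsicFrontier_subset (isCompact_Ef hA hK hc).isClosed hx, fun h => ?_⟩
  rw [← intrinsicClosure_sdiff_intrinsicInterior] at hx
  exact hx.2 (Eo_subset_intrinsicInterior hA hH hc h)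

lemma g1_of_ext (hf : ∀ φ : V →ₗ[ℝ] ℝ, vectorSpan ℝ (face A φ) = LinearMap.ker φ →
      ∃ τ : V, face A φ = τ +ᵥ face A (-φ)) (φ : V →ₗ[ℝ] ℝ) (c : V) (hc : c ∈ face A φ)
    (hk : ∀ v, φ v = 0 → v ∈ dirs A c) : ∃ τ, ∀ y, y ∈ face A φ ↔ y - τ ∈ face A (-φ) := by
  have key := hf φ (le_antisymm ?_ ?_)
  · obtain ⟨τ, hτ⟩ := key
    refine ⟨τ, fun y => ?_⟩
    rw [hτ, mem_vadd_set_iff_neg_vadd_mem, vadd_eq_add, neg_add_eq_sub]
  · rw [vectorSpan_def, Submodule.span_le]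
    rintro _ ⟨p, hp, q, hq, rfl⟩
    simp only [vsub_eq_sub, SetLike.mem_coe, LinearMap.mem_ker, map_sub]
    linarith [hp.2 q hq.1, hq.2 p hp.1]
  · intro v hv
    have hv' : φ v = 0 := hv
    obtain ⟨ε, hε, h⟩ := dirs_pos (hk v hv')
    have h1 := vsub_mem_vectorSpan ℝ (s := face A φ) (p₁ := c + ε • v) (p₂ := c)
      ⟨h, fun y hy => by simpa [hv'] using hc.2 y hy⟩ hc
    rw [vsub_eq_sub, add_sub_cancel_left] at h1
    exact (Submodule.smul_mem_iff _ hε.ne').1 h1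

lemma vs_le {φ : V →ₗ[ℝ] ℝ} {E : Set V} (h : E ⊆ face A φ) :
    vectorSpan ℝ E ≤ LinearMap.ker φ := by
  rw [vectorSpan_def, Submodule.span_le]
  rintro _ ⟨p, hp, q, hq, rfl⟩
  simp only [vsub_eq_sub, SetLike.mem_coe, LinearMap.mem_ker, map_sub]
  linarith [(h hp).2 q (h hq).1, (h hq).2 p (h hp).1]

lemma mem_vs {E : Set V} {c v : V} {ε : ℝ} (hε : 0 < ε) (hc : c ∈ E) (h : c + ε • v ∈ E) :
    v ∈ vectorSpan ℝ E := by
  have h1 := vsub_mem_vectorSpan ℝ h hc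
  rw [vsub_eq_sub, add_sub_cancel_left] at h1
  exact (Submodule.smul_mem_iff _ hε.ne').1 h1

lemma noT_of_ext (hA : Convex ℝ A) (hi : (interior A).Nonempty) {φ : V →ₗ[ℝ] ℝ}
    (h : ∀ χ : V →ₗ[ℝ] ℝ, χ ≠ 0 → (face A φ ∩ face A χ).Nonempty →
      vectorSpan ℝ (face A φ ∩ face A χ) = LinearMap.ker φ ⊓ LinearMap.ker χ →
      Disjoint (face A φ) (face A (-χ))) : NoT A φ := by
  rintro x hx ψ hψ ⟨u, hu1, hu2⟩ hd y hy
  by_contra hxy
  obtain ⟨χ, h0, hχ⟩ := sep hA hi hxy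
  have h1 : x ∈ face A χ := ⟨hx.1, fun p hp => by
    have := hχ p hp y hy.1
    simp only [map_sub] at this
    linarith⟩
  have h2 : y ∈ face A (-χ) := ⟨hy.1, fun q hq => by
    have := hχ x hx.1 q hq
    simp only [map_sub, LinearMap.neg_apply] at this ⊢
    linarith⟩
  have h3 : ∀ v, φ v = 0 → χ v = ψ v / ψ u * χ u := fun v hv => by
    have := map_dirs_eq_zero h1.2 (hd (v - (ψ v / ψ u) • u) (by simp [hv, hu1]) (by simp [hu2]))
    simp only [map_sub, map_smul, smul_eq_mul] at this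
    linarith
  have h4 : χ u ≠ 0 := by
    intro h'
    obtain ⟨a, ha⟩ := hi
    refine h0 (eq_zero_of_max ha fun p hp => ?_)
    have h5 := hχ p hp a (interior_subset ha)
    have h6 := h3 (x - y) (by
      rw [map_sub, sub_eq_zero]; exact le_antisymm (hy.2 x hx.1) (hx.2 y hy.1))
    rw [h', mul_zero] at h6
    rw [h6, map_sub] at h5
    linarith
  refine Set.disjoint_left.1 (h χ h0 ⟨x, hx, h1⟩ (le_antisymm
    (le_inf (vs_le inter_subset_left) (vs_le inter_subset_right)) fun v hv => ?_)) hy h2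
  have hv1 : φ v = 0 := hv.1
  have hv2 : χ v = 0 := hv.2
  have hv3 : ψ v = 0 := by
    have := h3 v hv1
    rw [hv2, eq_comm, mul_eq_zero, div_eq_zero_iff] at this
    tauto
  obtain ⟨ε, hε, h5⟩ := dirs_pos (hd v hv1 hv3)
  exact mem_vs hε ⟨hx, h1⟩ ⟨⟨h5, fun y hy => by simpa [hv1] using hx.2 y hy⟩,
    ⟨h5, fun y hy => by simpa [hv2] using h1.2 y hy⟩⟩

lemma sm_of_ext (hA : Convex ℝ A) (hK : IsCompact A) (hH : IsH A) {φ : V →ₗ[ℝ] ℝ}
    (ht : ∀ ψ : V →ₗ[ℝ] ℝ, face A ψ ⊆ face A φ → (face A ψ).Nontrivial →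
      (∀ x ∈ intrinsicFrontier ℝ (face A ψ), ∃ y ∈ face A ψ, x - y ∉ interior (A - A)) →
      ∃ A', A = face A ψ + A') : Sm A φ := by
  rintro c hc ⟨v, hv, hv0⟩ htt
  obtain ⟨ψ, hψ⟩ := exists_face hH hc.1
  rw [hψ]
  refine ht ψ ?_ ?_ ?_
  · rw [← hψ]
    intro x hx
    refine ⟨hx.1, fun y hy => ?_⟩
    have h1 := map_dirs_eq_zero hc.2 hx.2
    have h2 := hc.2 y hy
    rw [map_sub] at h1
    linarith
  · rw [← hψ]
    obtain ⟨ε, hε, h⟩ := dirs_pos hv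
    refine ⟨c, (self_mem_Eo hc.1).1, c + ε • v, ⟨h, by simpa using dirs_smul hv ε⟩, ?_⟩
    simp [hε.ne', hv0]
  · rw [← hψ]
    intro x hx
    obtain ⟨h1, h2⟩ := Ef_sdiff_Eo hA hK hH hc.1 hx
    exact htt x h1 h2

theorem good_of_ext (hA : Convex ℝ A) (hK : IsCompact A) (hi : (interior A).Nonempty)
    (hH : IsH A)
    (hf : ∀ φ : V →ₗ[ℝ] ℝ, vectorSpan ℝ (face A φ) = LinearMap.ker φ →
      ∃ τ : V, face A φ = τ +ᵥ face A (-φ))
    (ht : ∀ φ : V →ₗ[ℝ] ℝ, φ ≠ 0 → vectorSpan ℝ (face A φ) = LinearMap.ker φ →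
      (∀ χ : V →ₗ[ℝ] ℝ, χ ≠ 0 → (face A φ ∩ face A χ).Nonempty →
        vectorSpan ℝ (face A φ ∩ face A χ) = LinearMap.ker φ ⊓ LinearMap.ker χ →
        Disjoint (face A φ) (face A (-χ))) ∨
      ∀ ψ : V →ₗ[ℝ] ℝ, face A ψ ⊆ face A φ → (face A ψ).Nontrivial →
        (∀ x ∈ intrinsicFrontier ℝ (face A ψ), ∃ y ∈ face A ψ, x - y ∉ interior (A - A)) →
        ∃ A', A = face A ψ + A') : Good A := by
  refine ⟨hA, hK, hi, hH, g1_of_ext hf, fun φ c h0 hc hk => ?_⟩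
  refine (ht φ h0 (le_antisymm (vs_le Subset.rfl) fun v hv => ?_)).imp (noT_of_ext hA hi)
    (sm_of_ext hA hK hH)
  have hv' : φ v = 0 := hv
  obtain ⟨ε, hε, h⟩ := dirs_pos (hk v hv')
  exact mem_vs hε hc ⟨h, fun y hy => by simpa [hv'] using hc.2 y hy⟩

lemma isH_of_finset (H : Finset ((V →ₗ[ℝ] ℝ) × ℝ)) (h : A = {x | ∀ p ∈ H, p.1 x ≤ p.2}) :
    IsH A :=
  ⟨H, inferInstance, fun p => p.1.1, fun p => p.1.2, by rw [h]; ext x; simp⟩

end Pool.Agent.Lib.MP_61fe1c_an
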