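import Pool.Agent.Lib.MP_61fe1c_an.Ops
import Pool.Agent.Lib.MP_61fe1c_an.Defs

/-!
Faces through points and the descent of the two-sided covering property.
-/

set_option linter.unusedSectionVars false

open Set Filter Topology
open scoped Pointwise

namespace Pool.Agent.Lib.MP_61fe1c_an

variable {V : Type} [NormedAddCommGroup V] [NormedSpace ℝ V] [FiniteDimensional ℝ V]
variable {A S : Set V}

/-- directions of segments through `c` inside `A` -/
def dirs (A : Set V) (c : V) : Set V := {v | ∀ᶠ t in 𝓝 (0 : ℝ), c + t • v ∈ A}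

lemma dirs_smul {c v : V} (h : v ∈ dirs A c) (r : ℝ) : r • v ∈ dirs A c := by
  have : Tendsto (fun t : ℝ => t * r) (𝓝 0) (𝓝 0) := by
    have : Continuous fun t : ℝ => t * r := by fun_prop
    simpa using this.tendsto 0
  filter_upwards [this.eventually h] with t ht
  rwa [smul_smul]

lemma dirs_neg {c v : V} (h : v ∈ dirs A c) : -v ∈ dirs A c := by
  simpa using dirs_smul h (-1)

lemma dirs_add (hA : Convex ℝ A) {c v w : V} (h : v ∈ dirs A c) (h' : w ∈ dirs A c) :
    v + w ∈ dirs A c := by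
  filter_upwards [dirs_smul h 2, dirs_smul h' 2] with t h1 h2
  have := hA h1 h2 (a := 1 / 2) (b := 1 / 2) (by norm_num) (by norm_num) (by norm_num)
  convert this using 1
  module

lemma dirs_sub (hA : Convex ℝ A) {c v w : V} (h : v ∈ dirs A c) (h' : w ∈ dirs A c) :
    v - w ∈ dirs A c := by
  rw [sub_eq_add_neg]; exact dirs_add hA h (dirs_neg h')

lemma dirs_zero {c : V} (hc : c ∈ A) : (0 : V) ∈ dirs A c :=
  Eventually.of_forall fun t => by simpa using hc

/-- the direction space of the smallest face through `c` -/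
def Wd (hA : Convex ℝ A) {c : V} (hc : c ∈ A) : Submodule ℝ V where
  carrier := dirs A c
  add_mem' := dirs_add hA
  zero_mem' := dirs_zero hc
  smul_mem' r _ h := dirs_smul h r

lemma isClosed_dirs (hA : Convex ℝ A) {c : V} (hc : c ∈ A) : IsClosed (dirs A c) :=
  (Wd hA hc).closed_of_finiteDimensional

lemma mem_dirs_of (hA : Convex ℝ A) {c v : V} {a b : ℝ} (ha : 0 < a) (hb : 0 < b)
    (h1 : c + a • v ∈ A) (h2 : c - b • v ∈ A) : v ∈ dirs A c := by
  have hconv : Convex ℝ {t : ℝ | c + t • v ∈ A} := by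
    intro s hs t ht p q hp hq hpq
    have := hA hs ht hp hq hpq
    change c + (p • s + q • t) • v ∈ A
    convert this using 1
    have hq' : q = 1 - p := by linarith
    subst hq'
    simp only [smul_eq_mul]
    module
  have h3 : Icc (-b) a ⊆ {t : ℝ | c + t • v ∈ A} :=
    hconv.ordConnected.out (by simpa [sub_eq_add_neg] using h2) h1
  exact mem_of_superset (Icc_mem_nhds (by linarith) ha) h3

lemma dirs_pos {c v : V} (h : v ∈ dirs A c) : ∃ ε : ℝ, 0 < ε ∧ c + ε • v ∈ A := by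
  obtain ⟨ε, h1, h2⟩ := ((eventually_mem_nhdsWithin (s := Ioi (0 : ℝ)) (a := 0)).and
    (Eventually.filter_mono nhdsWithin_le_nhds h)).exists
  exact ⟨ε, h1, h2⟩

lemma dirs_combo (hA : Convex ℝ A) {p q : V} (hp : p ∈ A) {θ : ℝ} (h0 : 0 < θ) (h1 : θ ≤ 1) :
    dirs A q ⊆ dirs A (p + θ • (q - p)) := by
  intro v hv
  filter_upwards [dirs_smul hv θ⁻¹] with t ht
  have := hA hp ht (a := 1 - θ) (b := θ) (by linarith) h0.le (by ring)
  convert this using 1
  have : θ • t • θ⁻¹ • v = t • v := by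
    rw [smul_comm θ t, smul_smul θ, mul_inv_cancel₀ h0.ne', one_smul]
  rw [smul_add, this]
  module

/-- smallest face through `c` -/
def Ef (A : Set V) (c : V) : Set V := {x ∈ A | x - c ∈ dirs A c}

/-- its relative interior -/
def Eo (A : Set V) (c : V) : Set V := {x ∈ Ef A c | x - c ∈ dirs A x}

lemma self_mem_Eo {c : V} (hc : c ∈ A) : c ∈ Eo A c :=
  ⟨⟨hc, by rw [sub_self]; exact dirs_zero hc⟩, by rw [sub_self]; exact dirs_zero hc⟩

lemma dirs_mono (hA : Convex ℝ A) {c x : V} (hx : x ∈ Ef A c) : dirs A x ⊆ dirs A c := by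
  obtain ⟨δ, hδ, h⟩ := dirs_pos (dirs_neg hx.2)
  have := dirs_combo hA (q := x) h (θ := δ / (1 + δ)) (by positivity)
    (by rw [div_le_one (by positivity)]; linarith)
  convert this using 2
  have h1 : (1 + δ) ≠ 0 := by positivity
  have : x - (c + δ • -(x - c)) = (1 + δ) • (x - c) := by module
  rw [this, smul_smul, div_mul_cancel₀ _ h1]
  module

lemma dirs_eq (hA : Convex ℝ A) {c x : V} (hc : c ∈ A) (hx : x ∈ Eo A c) :
    dirs A x = dirs A c :=
  (dirs_mono hA hx.1).antisymm (dirs_mono hA ⟨hc, by simpa using dirs_neg hx.2⟩)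

lemma Ef_trans (hA : Convex ℝ A) {c x y : V} (hx : x ∈ Ef A c) (hy : y ∈ Ef A x) :
    y ∈ Ef A c :=
  ⟨hy.1, by simpa using dirs_add hA (dirs_mono hA hx hy.2) hx.2⟩

lemma combo_mem_Eo (hA : Convex ℝ A) {c q : V} (hc : c ∈ A) (hq : q ∈ Ef A c) {θ : ℝ}
    (h0 : 0 < θ) (h1 : θ ≤ 1) : q + θ • (c - q) ∈ Eo A c := by
  have h2 : q + θ • (c - q) - c ∈ dirs A c := by
    convert dirs_smul hq.2 (1 - θ) using 1
    module
  exact ⟨⟨hA.add_smul_sub_mem hq.1 hc ⟨h0.le, h1⟩, h2⟩, dirs_combo hA hq.1 h0 h1 h2⟩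

lemma isCompact_Ef (hA : Convex ℝ A) (hK : IsCompact A) {c : V} (hc : c ∈ A) :
    IsCompact (Ef A c) :=
  hK.inter_right ((isClosed_dirs hA hc).preimage (f := fun x => x - c) (by fun_prop))

lemma convex_Ef (hA : Convex ℝ A) {c : V} : Convex ℝ (Ef A c) := by
  intro x hx y hy a b ha hb hab
  refine ⟨hA hx.1 hy.1 ha hb hab, ?_⟩
  convert dirs_add hA (dirs_smul hx.2 a) (dirs_smul hy.2 b) using 1
  have : b = 1 - a := by linarith
  subst this
  module

lemma map_dirs_eq_zero {x v : V} {φ : V →ₗ[ℝ] ℝ} (hx : ∀ y ∈ A, φ y ≤ φ x) (hv : v ∈ dirs A x) :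
    φ v = 0 := by
  obtain ⟨a, ha, h1⟩ := dirs_pos hv
  obtain ⟨b, hb, h2⟩ := dirs_pos (dirs_neg hv)
  have h3 := hx _ h1
  have h4 := hx _ h2
  simp only [map_add, map_smul, map_neg, smul_eq_mul] at h3 h4
  apply le_antisymm <;> nlinarith

lemma eq_zero_of_max {x : V} {φ : V →ₗ[ℝ] ℝ} (hx : x ∈ interior A) (h : ∀ y ∈ A, φ y ≤ φ x) :
    φ = 0 := by
  ext v
  refine map_dirs_eq_zero h ?_
  have hc : ContinuousAt (fun t : ℝ => x + t • v) 0 := by fun_prop
  exact hc.eventually (by simpa using mem_interior_iff_mem_nhds.1 hx)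

lemma neg_mem_G {z : V} (h : z ∈ interior (A - A)) : -z ∈ interior (A - A) := by
  have h1 : -(A - A) = A - A := neg_sub A A
  have : (fun x : V => -x) ⁻¹' interior (A - A) ⊆ interior (A - A) := by
    refine interior_maximal ?_ (isOpen_interior.preimage (by fun_prop))
    intro x hx
    rw [← h1]
    exact mem_neg.2 (interior_subset hx)
  exact this (by simpa using h)

lemma zero_mem_G (hi : (interior A).Nonempty) : (0 : V) ∈ interior (A - A) := by
  obtain ⟨a, ha⟩ := hi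
  exact subset_interior_sub ⟨a, ha, a, ha, sub_self a⟩

lemma sep (hA : Convex ℝ A) (hi : (interior A).Nonempty) {z : V} (hz : z ∉ interior (A - A)) :
    ∃ φ : V →ₗ[ℝ] ℝ, φ ≠ 0 ∧ ∀ p ∈ A, ∀ q ∈ A, φ (p - q) ≤ φ z := by
  obtain ⟨f, hf⟩ := geometric_hahn_banach_open_point (hA.sub hA).interior isOpen_interior hz
  refine ⟨f, fun h => ?_, fun p hp q hq => ?_⟩
  · have h1 := hf 0 (zero_mem_G hi)
    have h2 : f z = 0 := congrArg (fun g : V →ₗ[ℝ] ℝ => g z) h
    simp [h2] at h1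
  · have h1 : p - q ∈ closure (interior (A - A)) := by
      rw [(hA.sub hA).closure_interior_eq_closure_of_nonempty_interior ⟨0, zero_mem_G hi⟩]
      exact subset_closure (sub_mem_sub hp hq)
    exact closure_minimal (t := {a | f a ≤ f z}) (fun a ha => (hf a ha).le)
      (isClosed_le f.continuous continuous_const) h1

lemma not_mem_G {z : V} {φ : V →ₗ[ℝ] ℝ} (h0 : φ ≠ 0) (h : ∀ p ∈ A, ∀ q ∈ A, φ (p - q) ≤ φ z) :
    z ∉ interior (A - A) := fun hz =>
  h0 (eq_zero_of_max hz (by rintro _ ⟨p, hp, q, hq, rfl⟩; exact h p hp q hq))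

lemma closed_ex {X K : Set V} (hX : IsClosed X) (hK : IsCompact K) :
    IsClosed {p | ∃ z ∈ X, p + z ∈ K} := by
  have := (hX.neg).add_left_of_isCompact hK
  convert this using 1
  ext p
  constructor
  · rintro ⟨z, hz, h⟩
    exact ⟨_, h, -z, by simpa using hz, by simp⟩
  · rintro ⟨a, ha, z, hz, rfl⟩
    exact ⟨-z, hz, by simpa using ha⟩

lemma exists_small {N : Set V} (hN : IsClosed N) {p : V} (hp : p ∉ N) (v : V) :
    ∃ κ : ℝ, 0 < κ ∧ κ ≤ 1 ∧ p + κ • v ∉ N := by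
  have hc : ContinuousAt (fun t : ℝ => p + t • v) 0 := by fun_prop
  have h1 : ∀ᶠ t in 𝓝 (0 : ℝ), p + t • v ∈ Nᶜ :=
    hc.eventually (hN.isOpen_compl.mem_nhds (by simpa using hp))
  have h2 : ∀ᶠ t in 𝓝 (0 : ℝ), t ≤ 1 := Iic_mem_nhds one_pos
  obtain ⟨ε, h3, h4⟩ := ((eventually_mem_nhdsWithin (s := Ioi (0 : ℝ)) (a := 0)).and
    (Eventually.filter_mono nhdsWithin_le_nhds (h2.and h1))).exists
  exact ⟨ε, h3, h4.1, h4.2⟩

lemma mem_of_small {N : Set V} (hN : IsClosed N) {p v : V}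
    (h : ∀ κ : ℝ, 0 < κ → κ ≤ 1 → p + κ • v ∈ N) : p ∈ N := by
  by_contra hp
  obtain ⟨κ, h1, h2, h3⟩ := exists_small hN hp v
  exact h3 (h κ h1 h2)

/-- covering property of the face through `c` -/
def Lam (A S : Set V) (τ : V) (σ : ℝ) (c : V) : Prop :=
  ∀ t, τ + t ∈ S → ∀ α ∈ Eo A c, ∃ s ∈ dirs A c, τ + s ∈ S ∧ α + σ • s ∈ A ∧ t - s ∈ S

lemma claimA (hA : Convex ℝ A) (hK : IsCompact A) (hS : Adm A S) {τ c : V} {σ : ℝ}
    (hσ : σ = 1 ∨ σ = -1) (hc : c ∈ A) (hL : Lam A S τ (-σ) c) {α : V} (hα : α ∈ Ef A c)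
    (hnt : ∀ y ∈ Ef A c, α - y ∈ interior (A - A)) {s : V} (hs : s ∈ dirs A c) (hτ : τ + s ∈ S)
    (hαs : α + σ • s ∈ A) : s ∈ dirs A α := by
  by_contra hcon
  have hσσ : σ * σ = 1 := by rcases hσ with rfl | rfl <;> norm_num
  have hN : IsClosed {p | ∃ z ∈ (interior (A - A))ᶜ, p + z ∈ Ef A c} :=
    closed_ex isOpen_interior.isClosed_compl (isCompact_Ef hA hK hc)
  have hαN : α ∉ {p | ∃ z ∈ (interior (A - A))ᶜ, p + z ∈ Ef A c} := by
    rintro ⟨z, hz, h⟩
    exact hz (by simpa using neg_mem_G (hnt _ h))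
  obtain ⟨κ, hκ0, hκ1, hκ⟩ := exists_small hN hαN (-(σ • s))
  have hp1 : α + κ • -(σ • s) ∉ A := by
    intro h
    have := mem_dirs_of hA one_pos hκ0 (by simpa using hαs)
      (by rw [smul_neg, ← sub_eq_add_neg] at h; exact h)
    apply hcon
    simpa [smul_smul, hσσ] using dirs_smul this σ
  set q := α + (1 - κ) • σ • s with hq
  have hqE : q ∈ Ef A c := by
    refine ⟨?_, ?_⟩
    · have := hA.add_smul_sub_mem hα.1 hαs (t := 1 - κ) ⟨by linarith, by linarith⟩
      simpa using this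
    · convert dirs_add hA hα.2 (dirs_smul (dirs_smul hs σ) (1 - κ)) using 1
      rw [hq]; abel
  obtain ⟨κ', h0, h1, h2⟩ := exists_small (hN.union hK.isClosed) (p := α + κ • -(σ • s))
    (by rintro (h | h); exacts [hκ h, hp1 h]) (c - q)
  obtain ⟨s', hs', -, h3, h4⟩ := hL s hτ _ (combo_mem_Eo hA hc hqE h0 h1)
  have hy : q + κ' • (c - q) + (-σ) • s' ∈ Ef A c := by
    refine ⟨h3, ?_⟩
    convert dirs_add hA (combo_mem_Eo hA hc hqE h0 h1).1.2 (dirs_smul hs' (-σ)) using 1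
    abel
  have e : α + κ • -(σ • s) + κ' • (c - q) + σ • (s - s') = q + κ' • (c - q) + (-σ) • s' := by
    rw [hq]; module
  have h5 : σ • (s - s') ∈ interior (A - A) := by
    by_contra h
    exact h2 (Or.inl ⟨_, h, by rw [e]; exact hy⟩)
  have h6 : s - s' = 0 := by
    refine hS.pack _ h4 ?_
    rcases hσ with rfl | rfl
    · simpa using h5
    · simpa using neg_mem_G h5
  rw [h6, smul_zero, add_zero] at e
  exact h2 (Or.inr (by rw [e]; exact h3))

lemma claimB (hA : Convex ℝ A) (hK : IsCompact A) (hi : (interior A).Nonempty) (hS : Adm A S)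
    {τ c : V} {σ : ℝ} (hσ : σ = 1 ∨ σ = -1) (hc : c ∈ A) (hL : Lam A S τ σ c)
    (hL' : Lam A S τ (-σ) c) {α : V} (hα : α ∈ Ef A c)
    (hnt : ∀ y ∈ Ef A c, α - y ∈ interior (A - A)) : Lam A S τ σ α := by
  intro t ht α' hα'
  have hσσ : σ * σ = 1 := by rcases hσ with rfl | rfl <;> norm_num
  have hE : α' ∈ Ef A c := Ef_trans hA hα hα'.1
  have hnt' : ∀ y ∈ Ef A c, α' - y ∈ interior (A - A) := by
    intro y hy
    by_contra h
    obtain ⟨ψ, h0, hψ⟩ := sep hA hi h
    have h1 : ψ (α' - α) = 0 := map_dirs_eq_zero (fun p hp => by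
      have := hψ p hp y hy.1
      simp only [map_sub] at this
      linarith) hα'.2
    refine not_mem_G h0 (fun p hp q hq => ?_) (hnt y hy)
    have := hψ p hp q hq
    simp only [map_sub] at this h1 ⊢
    linarith
  have hX : IsClosed {z | σ • z ∈ dirs A c ∧ τ + σ • z ∈ S ∧ t - σ • z ∈ S} :=
    ((isClosed_dirs hA hc).preimage (f := fun z => σ • z) (by fun_prop)).inter
      ((hS.closed.preimage (f := fun z => τ + σ • z) (by fun_prop)).inter
        (hS.closed.preimage (f := fun z => t - σ • z) (by fun_prop)))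
  obtain ⟨z, ⟨h1, h2, h3⟩, h4⟩ := mem_of_small (closed_ex hX hK) (p := α') (v := c - α')
    (fun κ h0 h1 => by
      obtain ⟨s, hs, h2, h3, h4⟩ := hL t ht _ (combo_mem_Eo hA hc hE h0 h1)
      refine ⟨σ • s, ?_, h3⟩
      simp only [mem_ofPred_eq, smul_smul, hσσ, one_smul]
      exact ⟨hs, h2, h4⟩)
  have h5 : α' + σ • σ • z ∈ A := by rwa [smul_smul, hσσ, one_smul]
  refine ⟨σ • z, ?_, h2, h5, h3⟩
  rw [← dirs_eq hA hα.1 hα']
  exact claimA hA hK hS hσ hc hL' hE hnt' h1 h2 h5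

/-- every relative boundary point of the face through `c` is antipodal to a point of the face -/
def Tight (A : Set V) (c : V) : Prop :=
  ∀ x ∈ Ef A c, x ∉ Eo A c → ∃ y ∈ Ef A c, x - y ∉ interior (A - A)

theorem descent (hA : Convex ℝ A) (hK : IsCompact A) (hi : (interior A).Nonempty) (hS : Adm A S)
    {τ : V} (n : ℕ) : ∀ (c : V) (hc : c ∈ A), Module.finrank ℝ (Wd hA hc) = n →
      Lam A S τ 1 c → Lam A S τ (-1) c →
      (∀ t, τ + t ∈ S → t ∈ S) ∨ ∃ c' ∈ Ef A c, (∃ v ∈ dirs A c', v ≠ 0) ∧ Tight A c' := by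
  induction n using Nat.strong_induction_on with
  | _ n ih =>
  intro c hc hn h1 h2
  by_cases ht : Tight A c
  · by_cases hv : ∃ v ∈ dirs A c, v ≠ 0
    · exact Or.inr ⟨c, (self_mem_Eo hc).1, hv, ht⟩
    · push Not at hv
      refine Or.inl fun t h => ?_
      obtain ⟨s, hs, -, -, h3⟩ := h1 t h c (self_mem_Eo hc)
      simpa [hv s hs] using h3
  · simp only [Tight, not_forall, not_exists, not_and, not_not] at ht
    obtain ⟨α, hα, hα', hnt⟩ := ht
    have hlt : Wd hA hα.1 < Wd hA hc :=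
      lt_of_le_of_ne (dirs_mono hA hα) fun h => hα' ⟨hα, by
        have : α - c ∈ Wd hA hc := hα.2
        rwa [← h] at this⟩
    rcases ih _ (hn ▸ Submodule.finrank_lt_finrank_of_lt hlt) α hα.1 rfl
      (claimB hA hK hi hS (Or.inl rfl) hc h1 h2 hα hnt)
      (claimB hA hK hi hS (Or.inr rfl) hc h2 (by simpa using h1) hα hnt) with h | ⟨c', h, h'⟩
    · exact Or.inl h
    · exact Or.inr ⟨c', Ef_trans hA hα h, h'⟩

lemma eq_smul_of_ker {φ ψ : V →ₗ[ℝ] ℝ} (h0 : φ ≠ 0) (h : ∀ v, φ v = 0 → ψ v = 0) :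
    ∃ κ : ℝ, ∀ v, ψ v = κ * φ v := by
  obtain ⟨u, hu⟩ : ∃ u, φ u ≠ 0 := by
    by_contra h'
    push Not at h'
    exact h0 (LinearMap.ext h')
  refine ⟨ψ u / φ u, fun v => ?_⟩
  have := h (φ u • v - φ v • u) (by simp [mul_comm])
  simp only [map_sub, map_smul, smul_eq_mul] at this
  field_simp
  linarith

lemma reg (hA : Convex ℝ A) (hi : (interior A).Nonempty) {φ : V →ₗ[ℝ] ℝ} (h0 : φ ≠ 0) {α a : V}
    (hα : α ∈ face A φ) (hk : ∀ v, φ v = 0 → v ∈ dirs A α) (ha : a ∈ A)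
    (h : α - a ∉ interior (A - A)) : a ∈ face A (-φ) := by
  obtain ⟨ψ, hψ0, hψ⟩ := sep hA hi h
  have h1 : ∀ p ∈ A, ψ p ≤ ψ α := fun p hp => by
    have := hψ p hp a ha
    simp only [map_sub] at this
    linarith
  have h2 : ∀ q ∈ A, ψ a ≤ ψ q := fun q hq => by
    have := hψ α hα.1 q hq
    simp only [map_sub] at this
    linarith
  obtain ⟨κ, hκ⟩ := eq_smul_of_ker h0 fun v hv => map_dirs_eq_zero h1 (hk v hv)
  obtain ⟨x, hx⟩ := hi
  have hκ0 : 0 < κ := by
    by_contra hneg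
    push Not at hneg
    refine hψ0 (eq_zero_of_max hx fun y hy => (h1 y hy).trans ?_)
    rw [hκ, hκ]
    exact mul_le_mul_of_nonpos_left (hα.2 x (interior_subset hx)) hneg
  refine ⟨ha, fun y hy => ?_⟩
  have := h2 y hy
  rw [hκ, hκ] at this
  simpa using le_of_mul_le_mul_left this hκ0

lemma lam_top (hA : Convex ℝ A) (hK : IsCompact A) (hi : (interior A).Nonempty) (hS : Adm A S)
    {φ : V →ₗ[ℝ] ℝ} (h0 : φ ≠ 0) {c τ : V} (hc : c ∈ face A φ) (hk : ∀ v, φ v = 0 → v ∈ dirs A c)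
    (hτ : ∀ y, y ∈ face A φ ↔ y - τ ∈ face A (-φ)) : Lam A S τ 1 c ∧ Lam A S τ (-1) c := by
  obtain ⟨u, hu⟩ : ∃ u, 0 < φ u := by
    by_contra h'
    push Not at h'
    refine h0 (LinearMap.ext fun v => le_antisymm (h' v) ?_)
    simpa using h' (-v)
  have key : ∀ α ∈ Eo A c, α ∈ face A φ ∧ ∀ v, φ v = 0 → v ∈ dirs A α := by
    intro α hα
    have h1 : φ (α - c) = 0 := map_dirs_eq_zero hc.2 hα.1.2
    refine ⟨⟨hα.1.1, fun y hy => ?_⟩, fun v hv => ?_⟩
    · have := hc.2 y hy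
      simp only [map_sub] at h1
      linarith
    · rw [dirs_eq hA hc.1 hα]; exact hk v hv
  have hX : ∀ t, IsClosed {z | z ∈ S ∧ τ + t - z ∈ S ∧ z ∉ interior (A - A)} := fun t =>
    hS.closed.inter ((hS.closed.preimage (f := fun z => τ + t - z) (by fun_prop)).inter
      isOpen_interior.isClosed_compl)
  constructor
  · intro t ht α hα
    obtain ⟨hF, hker⟩ := key α hα
    have hβ := (hτ α).1 hF
    have hβk : ∀ v, (-φ) v = 0 → v ∈ dirs A (α - τ) := by
      intro v hv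
      have hv' : φ v = 0 := by simpa using hv
      filter_upwards [hker v hv'] with r hr
      have := ((hτ (α + r • v)).1 ⟨hr, fun y hy => by simpa [hv'] using hF.2 y hy⟩).1
      convert this using 1
      abel
    obtain ⟨z, ⟨h1, h2, h3⟩, h4⟩ := mem_of_small (closed_ex (hX t) hK) (p := α - τ) (v := -u)
      (fun κ hκ _ => by
        obtain ⟨z, h1, h2, h3⟩ := hS.tri _ ht (-(α - τ + κ • -u))
        refine ⟨z, ⟨h2, h3, fun h => ?_⟩, by convert h1 using 1; abel⟩
        rw [hS.pack z h2 h, zero_sub, neg_neg] at h1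
        have := hβ.2 _ h1
        simp only [LinearMap.neg_apply, map_add, map_smul, map_neg, smul_eq_mul] at this
        nlinarith)
    have h5 := reg hA hi (neg_ne_zero.2 h0) hβ hβk h4
      (fun h => h3 (by simpa using neg_mem_G h))
    rw [neg_neg] at h5
    refine ⟨z - τ, hk _ ?_, by simpa using h1, by convert h4 using 1; module,
      by convert h2 using 1; abel⟩
    have e1 := h5.2 _ hF.1
    have e2 := hF.2 _ h5.1
    simp only [map_add, map_sub] at e1 e2 ⊢
    linarith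
  · intro t ht α hα
    obtain ⟨hF, hker⟩ := key α hα
    obtain ⟨z, ⟨h1, h2, h3⟩, h4⟩ := mem_of_small (closed_ex (hX t).neg hK) (p := α) (v := u)
      (fun κ hκ _ => by
        obtain ⟨z, h1, h2, h3⟩ := hS.tri _ ht (τ + t - (α + κ • u))
        have h1' : α + κ • u + (z - (τ + t)) ∈ A := by convert h1 using 1; abel
        refine ⟨z - (τ + t), ⟨by simpa using h3, by simpa using h2, fun h => ?_⟩, h1'⟩
        have h5 := hS.pack _ h3 (by simpa using h)
        rw [← neg_sub, h5, neg_zero, add_zero] at h1'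
        have := hF.2 _ h1'
        simp only [map_add, map_smul, smul_eq_mul] at this
        nlinarith)
    have h5 := reg hA hi h0 hF hker h4 (by simpa using h3)
    have h6 := (hτ (α + z + τ)).2 (by simpa using h5)
    refine ⟨-z - τ, hk _ ?_, by simpa using h1, by convert h6.1 using 1; module,
      by convert h2 using 1; abel⟩
    have e1 := h6.2 _ hF.1
    have e2 := hF.2 _ h6.1
    simp only [map_add, map_sub, map_neg] at e1 e2 ⊢
    linarith

end Pool.Agent.Lib.MP_61fe1c_an
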