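import Mathlib

/-!
Orthogonal bases of unimodular functions, Hilbert bases, multiplication by indicators,
diagonal unitaries.
-/

set_option linter.unusedSectionVars false

open Set MeasureTheory ComplexConjugate
open scoped InnerProductSpace

namespace Pool.Agent.Lib.MP_61fe1c_an

variable {X : Type} [MeasurableSpace X] {m : Measure X} {I : Type}

/-- the functions `e i`, `i ∈ J`, form an orthogonal basis of `L²(m)` -/
def OB (m : Measure X) (e : I → X → ℂ) (J : Set I) : Prop :=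
  (∀ i ∈ J, ∀ j ∈ J, i ≠ j → ∫ x, conj (e i x) * e j x ∂m = 0) ∧
  ∀ f : X → ℂ, MemLp f 2 m → (∀ i ∈ J, ∫ x, conj (e i x) * f x ∂m = 0) → f =ᵐ[m] 0

structure Uni (e : I → X → ℂ) : Prop where
  meas : ∀ i, Measurable (e i)
  norm : ∀ i x, ‖e i x‖ = 1

lemma Uni.memLp {e : I → X → ℂ} (hu : Uni e) [IsFiniteMeasure m] (i : I) : MemLp (e i) 2 m :=
  MemLp.of_bound (hu.meas i).aestronglyMeasurable 1 (ae_of_all _ fun x => (hu.norm i x).le)

lemma Uni.conj_mul {e : I → X → ℂ} (hu : Uni e) (i : I) (x : X) : conj (e i x) * e i x = 1 := by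
  rw [Complex.conj_mul', hu.norm]; simp

lemma inner_eq {f g : Lp ℂ 2 m} {f' g' : X → ℂ} (hf : f =ᵐ[m] f') (hg : g =ᵐ[m] g') :
    ⟪f, g⟫_ℂ = ∫ x, conj (f' x) * g' x ∂m := by
  rw [L2.inner_def]
  refine integral_congr_ae ?_
  filter_upwards [hf, hg] with x h1 h2
  rw [h1, h2, RCLike.inner_apply, mul_comm]

lemma orth_bot {H : Type} [NormedAddCommGroup H] [InnerProductSpace ℂ H] {ι : Type} (v : ι → H)
    (h : ∀ f, (∀ i, ⟪v i, f⟫_ℂ = 0) → f = 0) : (Submodule.span ℂ (range v))ᗮ = ⊥ := by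
  rw [Submodule.eq_bot_iff]
  intro f hf
  exact h f fun i => (Submodule.mem_orthogonal _ _).1 hf _ (Submodule.subset_span ⟨i, rfl⟩)

lemma exists_basis [IsFiniteMeasure m] (hm : m ≠ 0) {e : I → X → ℂ} {J : Set I} (hu : Uni e)
    (h : OB m e J) :
    ∃ (b : HilbertBasis J ℂ (Lp ℂ 2 m)) (c : ℝ), c ≠ 0 ∧
      ∀ i : J, (b i : X → ℂ) =ᵐ[m] fun x => c * e i x := by
  have hpos : 0 < m.real univ := by
    rw [measureReal_def]
    exact ENNReal.toReal_pos (by simpa using hm) (measure_ne_top _ _)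
  set c : ℝ := (Real.sqrt (m.real univ))⁻¹ with hc
  have hc0 : c ≠ 0 := inv_ne_zero (Real.sqrt_pos.2 hpos).ne'
  have hcc : c * c * m.real univ = 1 := by
    rw [hc, ← mul_inv, Real.mul_self_sqrt hpos.le, inv_mul_cancel₀ hpos.ne']
  let v : J → Lp ℂ 2 m := fun i => ((hu.memLp i).const_mul (c : ℂ)).toLp (fun x => c * e i x)
  have hv : ∀ i : J, (v i : X → ℂ) =ᵐ[m] fun x => c * e i x := fun i => MemLp.coeFn_toLp _
  have hin : ∀ (i : J) (f : Lp ℂ 2 m) (f' : X → ℂ), f =ᵐ[m] f' →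
      ⟪v i, f⟫_ℂ = c * ∫ x, conj (e i x) * f' x ∂m := by
    intro i f f' hf
    rw [inner_eq (hv i) hf, ← integral_const_mul]
    congr 1; ext x; simp [mul_assoc]
  have hon : Orthonormal ℂ v := by
    classical
    rw [orthonormal_iff_ite]
    intro i j
    rw [hin i _ _ (hv j)]
    have : ∫ x, conj (e i x) * (c * e j x) ∂m = c * ∫ x, conj (e i x) * e j x ∂m := by
      rw [← integral_const_mul]; congr 1; ext x; ring
    rw [this]
    split_ifs with hij
    · subst hij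
      simp only [hu.conj_mul, integral_const, Complex.real_smul, mul_one]
      rw [← mul_assoc]
      exact_mod_cast hcc
    · rw [h.1 i i.2 j j.2 (fun h' => hij (Subtype.ext h'))]; simp
  have hsp : (Submodule.span ℂ (range v))ᗮ = ⊥ := by
    refine orth_bot v fun f hf => ?_
    have := h.2 f (Lp.memLp f) fun i hi => by
      have h1 := hf ⟨i, hi⟩
      rw [hin ⟨i, hi⟩ f f (ae_eq_refl _)] at h1
      exact (mul_eq_zero.1 h1).resolve_left (by exact_mod_cast hc0)
    exact Lp.ext (this.trans (Lp.coeFn_zero _ _ _).symm)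
  refine ⟨HilbertBasis.mkOfOrthogonalEqBot hon hsp, c, hc0, fun i => ?_⟩
  rw [HilbertBasis.coe_mkOfOrthogonalEqBot]
  exact hv i

/-- Parseval with vanishing terms -/
lemma OB.pz [IsFiniteMeasure m] {e : I → X → ℂ} {J : Set I} (hu : Uni e)
    (h : OB m e J) {f g : X → ℂ} (hf : MemLp f 2 m) (hg : MemLp g 2 m)
    (hz : ∀ i ∈ J, ∫ x, conj (e i x) * f x ∂m = 0 ∨ ∫ x, conj (e i x) * g x ∂m = 0) :
    ∫ x, conj (f x) * g x ∂m = 0 := by
  by_cases hm : m = 0
  · simp [hm]
  obtain ⟨b, c, -, hb⟩ := exists_basis hm hu h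
  have hin : ∀ (i : J) {f : X → ℂ} (hf : MemLp f 2 m),
      ⟪b i, hf.toLp f⟫_ℂ = c * ∫ x, conj (e i x) * f x ∂m := by
    intro i f hf
    rw [inner_eq (hb i) (MemLp.coeFn_toLp hf), ← integral_const_mul]
    congr 1; ext x; simp [mul_assoc]
  rw [← inner_eq (MemLp.coeFn_toLp hf) (MemLp.coeFn_toLp hg), ← b.tsum_inner_mul_inner]
  have : ∀ i : J, ⟪hf.toLp f, b i⟫_ℂ * ⟪b i, hg.toLp g⟫_ℂ = 0 := by
    intro i
    rcases hz i i.2 with h1 | h1
    · rw [← inner_conj_symm, hin i hf, h1]; simp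
    · rw [hin i hg, h1]; simp
  simp [this]

noncomputable def ind0 {S : Set X} (hS : MeasurableSet S) (f : Lp ℂ 2 m) : Lp ℂ 2 m :=
  MemLp.toLp (S.indicator (f : X → ℂ)) (MemLp.indicator hS (Lp.memLp f))

lemma ind0_coe {S : Set X} (hS : MeasurableSet S) (f : Lp ℂ 2 m) :
    (ind0 hS f : X → ℂ) =ᵐ[m] S.indicator f :=
  MemLp.coeFn_toLp _

lemma ind0_add {S : Set X} (hS : MeasurableSet S) (f g : Lp ℂ 2 m) :
    ind0 hS (f + g) = ind0 hS f + ind0 hS g := by
  refine Lp.ext ?_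
  filter_upwards [ind0_coe hS (f + g), ind0_coe hS f, ind0_coe hS g, Lp.coeFn_add f g,
    Lp.coeFn_add (ind0 hS f) (ind0 hS g)] with x h1 h2 h3 h4 h5
  rw [h1, h5, Pi.add_apply, h2, h3]
  by_cases hx : x ∈ S
  · simp only [indicator_of_mem hx, h4, Pi.add_apply]
  · simp only [indicator_of_notMem hx, add_zero]

lemma ind0_smul {S : Set X} (hS : MeasurableSet S) (c : ℂ) (f : Lp ℂ 2 m) :
    ind0 hS (c • f) = c • ind0 hS f := by
  refine Lp.ext ?_
  filter_upwards [ind0_coe hS (c • f), ind0_coe hS f, Lp.coeFn_smul c f,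
    Lp.coeFn_smul c (ind0 hS f)] with x h1 h2 h4 h5
  rw [h1, h5, Pi.smul_apply, h2]
  by_cases hx : x ∈ S
  · simp only [indicator_of_mem hx, h4, Pi.smul_apply]
  · simp only [indicator_of_notMem hx, smul_zero]

lemma ind0_norm {S : Set X} (hS : MeasurableSet S) (f : Lp ℂ 2 m) :
    ‖ind0 hS f‖ ≤ 1 * ‖f‖ := by
  rw [one_mul]
  refine Lp.norm_le_norm_of_ae_le ?_
  filter_upwards [ind0_coe hS f] with x h1
  rw [h1]
  exact norm_indicator_le_norm_self _ _

/-- multiplication by an indicator -/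
noncomputable def indL (m : Measure X) {S : Set X} (hS : MeasurableSet S) :
    Lp ℂ 2 m →L[ℂ] Lp ℂ 2 m :=
  LinearMap.mkContinuous
    { toFun := ind0 hS
      map_add' := ind0_add hS
      map_smul' := ind0_smul hS } 1 (ind0_norm hS)

lemma indL_coe {S : Set X} (hS : MeasurableSet S) (f : Lp ℂ 2 m) :
    (indL m hS f : X → ℂ) =ᵐ[m] S.indicator f :=
  ind0_coe hS f

lemma indL_inter {S T : Set X} (hS : MeasurableSet S) (hT : MeasurableSet T) :
    indL m (hS.inter hT) = indL m hS * indL m hT := by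
  ext1 f
  refine Lp.ext ?_
  filter_upwards [indL_coe (hS.inter hT) f, indL_coe hS (indL m hT f), indL_coe hT f]
    with x h1 h2 h3
  rw [h1, mul_apply_eq_comp, h2]
  by_cases hx : x ∈ S <;> by_cases hx' : x ∈ T <;> simp [hx, hx', h3]

lemma indL_split {S T : Set X} (hS : MeasurableSet S) (hT : MeasurableSet T) :
    indL m hS = indL m (hS.inter hT) + indL m (hS.diff hT) := by
  ext1 f
  refine Lp.ext ?_
  filter_upwards [indL_coe (hS.inter hT) f, indL_coe (hS.diff hT) f, indL_coe hS f,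
    Lp.coeFn_add (indL m (hS.inter hT) f) (indL m (hS.diff hT) f)] with x h1 h2 h3 h4
  rw [_root_.add_apply, h4, Pi.add_apply, h1, h2, h3]
  by_cases hx : x ∈ S <;> by_cases hx' : x ∈ T <;> simp [hx, hx']

lemma indL_one {S : Set X} (hS : MeasurableSet S) (h : ∀ᵐ x ∂m, x ∈ S) : indL m hS = 1 := by
  ext1 f
  refine Lp.ext ?_
  filter_upwards [indL_coe hS f, h] with x h1 h2
  rw [h1]; simp [h2]

lemma indL_eq_zero_iff {S : Set X} (hS : MeasurableSet S) (f : Lp ℂ 2 m) :
    indL m hS f = 0 ↔ ∀ᵐ x ∂m, x ∈ S → f x = 0 := by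
  constructor
  · intro h
    have h1 := indL_coe hS f
    rw [h] at h1
    filter_upwards [h1, Lp.coeFn_zero ℂ 2 m] with x h2 h3 hx
    rw [h3] at h2
    simpa [hx] using h2.symm
  · intro h
    refine Lp.ext ?_
    filter_upwards [indL_coe hS f, h, Lp.coeFn_zero ℂ 2 m] with x h1 h2 h3
    rw [h1, h3]
    by_cases hx : x ∈ S
    · simp [hx, h2 hx]
    · simp [hx]

lemma inner_indL {S : Set X} (hS : MeasurableSet S) {f g : Lp ℂ 2 m} {f' g' : X → ℂ}
    (hf : f =ᵐ[m] f') (hg : g =ᵐ[m] g') :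
    ⟪f, indL m hS g⟫_ℂ = ∫ x, S.indicator (fun x => conj (f' x) * g' x) x ∂m := by
  rw [inner_eq hf (indL_coe hS g)]
  refine integral_congr_ae ?_
  filter_upwards [hg] with x h1
  by_cases hx : x ∈ S <;> simp [hx, h1]

lemma star_indL {S : Set X} (hS : MeasurableSet S) : star (indL m hS) = indL m hS := by
  rw [ContinuousLinearMap.star_eq_adjoint]
  symm
  rw [ContinuousLinearMap.eq_adjoint_iff]
  intro f g
  rw [inner_indL hS (ae_eq_refl _) (ae_eq_refl _), inner_eq (indL_coe hS f) (ae_eq_refl _)]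
  congr 1; ext x
  by_cases hx : x ∈ S <;> simp [hx]

section Diag

variable {H : Type} [NormedAddCommGroup H] [InnerProductSpace ℂ H] [CompleteSpace H] {ι : Type}

lemma clm_ext (b : HilbertBasis ι ℂ H) {G : Type} [NormedAddCommGroup G] [NormedSpace ℂ G]
    {P Q : H →L[ℂ] G} (h : ∀ i, P (b i) = Q (b i)) : P = Q := by
  refine ContinuousLinearMap.ext_on (s := range b) ?_ ?_
  · rw [Submodule.dense_iff_topologicalClosure_eq_top]; exact b.dense_span
  · rintro _ ⟨i, rfl⟩; exact h i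

lemma clm_ext2 (b : HilbertBasis ι ℂ H) {P Q : H →L[ℂ] H}
    (h : ∀ i j, ⟪b i, P (b j)⟫_ℂ = ⟪b i, Q (b j)⟫_ℂ) : P = Q := by
  refine clm_ext b fun j => b.repr.injective ?_
  ext i
  rw [b.repr_apply_apply, b.repr_apply_apply, h]

lemma exists_diag (b : HilbertBasis ι ℂ H) (a : ι → ℂ) (ha : ∀ i, ‖a i‖ = 1) :
    ∃ U : H →L[ℂ] H, (∀ i, U (b i) = a i • b i) ∧ ∀ i x, ⟪b i, U x⟫_ℂ = a i * ⟪b i, x⟫_ℂ := by
  classical
  have hc : ∀ i, conj (a i) * a i = 1 := fun i => by rw [Complex.conj_mul', ha]; simp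
  have hon : Orthonormal ℂ (fun i => a i • b i) := by
    rw [orthonormal_iff_ite]
    intro i j
    rw [inner_smul_left, inner_smul_right, orthonormal_iff_ite.1 b.orthonormal]
    split_ifs with hij
    · subst hij; rw [mul_one, hc]
    · simp
  have hsp : (Submodule.span ℂ (range fun i => a i • b i))ᗮ = ⊥ := by
    refine orth_bot _ fun f hf => b.repr.injective ?_
    ext i
    have h1 := hf i
    rw [inner_smul_left] at h1
    have h2 : conj (a i) ≠ 0 := fun h => by simpa [h] using hc i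
    rw [b.repr_apply_apply, (mul_eq_zero.1 h1).resolve_left h2]
    simp
  let b' := HilbertBasis.mkOfOrthogonalEqBot hon hsp
  let U : H →L[ℂ] H := (b.repr.trans b'.repr.symm).toContinuousLinearEquiv
  have hU : ∀ i, U (b i) = a i • b i := by
    intro i
    change b'.repr.symm (b.repr (b i)) = _
    rw [b.repr_self, b'.repr_symm_single]
    simp [b']
  refine ⟨U, hU, fun i x => ?_⟩
  have : (innerSL ℂ (b i)).comp U = a i • innerSL ℂ (b i) := by
    refine clm_ext b fun j => ?_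
    simp only [ContinuousLinearMap.comp_apply, innerSL_apply_apply, hU,
      _root_.smul_apply, inner_smul_right, smul_eq_mul]
    rw [orthonormal_iff_ite.1 b.orthonormal]
    split_ifs with hij
    · rw [hij]
    · simp
  simpa using congrArg (fun P : H →L[ℂ] ℂ => P x) this

end Diag

end Pool.Agent.Lib.MP_61fe1c_an
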