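import Pool.Agent.Lib.MP_61fe1c_an.Split

/-!
Induction on the dimension.
-/

set_option linter.unusedSectionVars false

open Set Filter Topology MeasureTheory ComplexConjugate
open scoped Pointwise

namespace Pool.Agent.Lib.MP_61fe1c_an

lemma OB.comp {X X' I : Type} [MeasurableSpace X] [MeasurableSpace X'] {m : Measure X}
    {m' : Measure X'} {e : I → X → ℂ} {J : Set I} (h : OB m e J) (g : X' ≃ᵐ X)
    (hg : MeasurePreserving g m' m) : OB m' (fun i x => e i (g x)) J := by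
  refine ⟨fun i hi j hj hij => ?_, fun f hf h0 => ?_⟩
  · rw [← h.1 i hi j hj hij]
    exact hg.integral_comp' (fun x => conj (e i x) * e j x)
  · have h1 := h.2 (f ∘ g.symm) (hf.comp_measurePreserving hg.symm) fun i hi => by
      rw [← h0 i hi, ← hg.integral_comp']
      simp
    have h2 := hg.quasiMeasurePreserving.ae_eq_comp h1
    filter_upwards [h2] with x hx
    simpa using hx

section

variable {V V₁ V₂ : Type} [NormedAddCommGroup V] [NormedSpace ℝ V] [FiniteDimensional ℝ V]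
  [MeasurableSpace V] [BorelSpace V]
  [NormedAddCommGroup V₁] [NormedSpace ℝ V₁] [FiniteDimensional ℝ V₁]
  [MeasurableSpace V₁] [BorelSpace V₁]
  [NormedAddCommGroup V₂] [NormedSpace ℝ V₂] [FiniteDimensional ℝ V₂]
  [MeasurableSpace V₂] [BorelSpace V₂]

lemma exists_haar (f : (V₁ × V₂) ≃L[ℝ] V) (μ : Measure V) [μ.IsAddHaarMeasure]
    (μ₂ : Measure V₂) [μ₂.IsAddHaarMeasure] :
    ∃ (μ₁ : Measure V₁) (_ : μ₁.IsAddHaarMeasure), MeasurePreserving f (μ₁.prod μ₂) μ := by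
  let μ₀ : Measure V₁ := Measure.addHaar
  have h1 := Measure.isAddLeftInvariant_eq_smul (μ.map f.symm) (μ₀.prod μ₂)
  have h2 := Measure.addHaarScalarFactor_pos_of_isAddHaarMeasure (μ.map f.symm) (μ₀.prod μ₂)
  refine ⟨_, Measure.IsAddHaarMeasure.nnreal_smul μ₀ h2.ne', f.continuous.measurable, ?_⟩
  rw [Measure.prod_smul_left, ← h1,
    Measure.map_map f.continuous.measurable f.symm.continuous.measurable]
  simp

end

/-- the statement proved by induction -/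
def Stmt (V : Type) [NormedAddCommGroup V] [NormedSpace ℝ V] [MeasurableSpace V] (A : Set V) :
    Prop :=
  ∀ (μ : Measure V) [μ.IsAddHaarMeasure] (Y : Type) [MeasurableSpace Y] (ν : Measure Y)
    [IsFiniteMeasure ν] (I : Type) (ξ : I → V →ₗ[ℝ] ℝ) (k : I → Y → ℂ) (J : Set I), Uni k →
    OB ((μ.restrict A).prod ν) (pr ξ k) J → ∃ J' ⊆ J, OB ν k J'

section

variable {V V₁ V₂ : Type} [NormedAddCommGroup V] [NormedSpace ℝ V] [FiniteDimensional ℝ V]
  [MeasurableSpace V] [BorelSpace V]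
  [NormedAddCommGroup V₁] [NormedSpace ℝ V₁] [FiniteDimensional ℝ V₁]
  [MeasurableSpace V₁] [BorelSpace V₁]
  [NormedAddCommGroup V₂] [NormedSpace ℝ V₂] [FiniteDimensional ℝ V₂]
  [MeasurableSpace V₂] [BorelSpace V₂]

lemma stmt_sum (f : (V₁ × V₂) ≃L[ℝ] V) {A : Set V} {A₁ : Set V₁} {A₂ : Set V₂}
    (hA : MeasurableSet A) (hA₂ : IsCompact A₂) (e : f ⁻¹' A = A₁ ×ˢ A₂)
    (h₁ : Stmt V₁ A₁) (h₂ : Stmt V₂ A₂) : Stmt V A := by
  intro μ _ Y _ ν _ I ξ k J hk h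
  let μ₂ : Measure V₂ := Measure.addHaar
  obtain ⟨μ₁, _, hf⟩ := exists_haar f μ μ₂
  have : IsFiniteMeasure (μ₂.restrict A₂) := ⟨by simpa using hA₂.measure_lt_top⟩
  have hf' := hf.restrict_preimage hA
  rw [e, ← Measure.prod_restrict] at hf'
  let g : V₁ × (V₂ × Y) ≃ᵐ V × Y := MeasurableEquiv.prodAssoc.symm.trans
    (MeasurableEquiv.prodCongr f.toHomeomorph.toMeasurableEquiv (MeasurableEquiv.refl Y))
  have hg : MeasurePreserving g ((μ₁.restrict A₁).prod ((μ₂.restrict A₂).prod ν))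
      ((μ.restrict A).prod ν) :=
    (hf'.prod (MeasurePreserving.id ν)).comp (measurePreserving_prodAssoc _ _ _).symm
  have h1 := h.comp g hg
  let ξ₁ : I → V₁ →ₗ[ℝ] ℝ := fun i => ξ i ∘ₗ (f : (V₁ × V₂) →ₗ[ℝ] V) ∘ₗ LinearMap.inl ℝ V₁ V₂
  let ξ₂ : I → V₂ →ₗ[ℝ] ℝ := fun i => ξ i ∘ₗ (f : (V₁ × V₂) →ₗ[ℝ] V) ∘ₗ LinearMap.inr ℝ V₁ V₂
  have h2 : (fun i x => pr ξ k i (g x)) = pr ξ₁ (pr ξ₂ k) := by
    ext i ⟨x, y, z⟩
    change ch (ξ i) (f (x, y)) * k i z = ch (ξ i) (f (x, 0)) * (ch (ξ i) (f (0, y)) * k i z)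
    rw [← mul_assoc, ← ch_add, ← map_add]
    simp
  rw [h2] at h1
  obtain ⟨J₁, hJ₁, h3⟩ := h₁ μ₁ _ _ I ξ₁ _ J (hk.pr ξ₂) h1
  obtain ⟨J₂, hJ₂, h4⟩ := h₂ μ₂ _ _ I ξ₂ _ J₁ hk h3
  exact ⟨J₂, hJ₂.trans hJ₁, h4⟩

/-- the group of periods -/
def periods (S : Set V) : AddSubgroup V where
  carrier := {τ | ∀ t, τ + t ∈ S ↔ t ∈ S}
  add_mem' := fun {a b} ha hb t => by rw [add_assoc, ha, hb]
  zero_mem' := fun t => by rw [zero_add]
  neg_mem' := fun {a} ha t => by rw [← ha, add_neg_cancel_left]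

/-- the dual group -/
def dualGrp (L : AddSubgroup V) : AddSubgroup (V →ₗ[ℝ] ℝ) where
  carrier := {γ | ∀ l ∈ L, ∃ n : ℤ, γ l = n}
  add_mem' := fun {a b} ha hb l hl => by
    obtain ⟨n, hn⟩ := ha l hl
    obtain ⟨m, hm⟩ := hb l hl
    exact ⟨n + m, by simp [hn, hm]⟩
  zero_mem' := fun l _ => ⟨0, by simp⟩
  neg_mem' := fun {a} ha l hl => by
    obtain ⟨n, hn⟩ := ha l hl
    exact ⟨-n, by simp [hn]⟩

lemma stmt_locked {A : Set V} (hA : Convex ℝ A) (hK : IsCompact A) (hi : (interior A).Nonempty)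
    (hcov : ∀ S, Adm A S → ∀ p, ∃ l ∈ periods S, p + l ∈ A) : Stmt V A := by
  intro μ _ Y _ ν _ I ξ k J hk h
  by_cases hν : ν = 0
  · exact ⟨∅, empty_subset _, fun i hi => hi.elim, fun f _ _ => by simp [hν, EventuallyEq]⟩
  obtain ⟨S, hS, hrel⟩ := exists_adm μ hK hA hi ν hν ξ hk h
  refine locked_case μ hK hi ν ξ hk h (dualGrp (periods S)) (fun γ hγ h0 => ?_)
    fun i hi j hj hij l hl => hrel l (fun t => (hl t).1) i hi j hj hij
  exact integral_ch_eq_zero μ hA hK hi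
    (fun l hl => hS.pack l (by simpa using (hl 0).2 hS.zero)) (hcov S hS) h0 hγ

lemma Good.cover_or_tight {A : Set V} (h : Good A) :
    (∀ S, Adm A S → ∀ p, ∃ l ∈ periods S, p + l ∈ A) ∨
      ∃ c ∈ A, c ∉ interior A ∧ (∃ v ∈ dirs A c, v ≠ 0) ∧ Tight A c ∧ ∃ A', A = Ef A c + A' := by
  by_contra hcon
  rw [not_or] at hcon
  obtain ⟨h1, h2⟩ := hcon
  apply h1
  intro S hS
  have key : ∀ (φ : V →ₗ[ℝ] ℝ) (c τ : V), φ ≠ 0 → c ∈ face A φ → (∀ v, φ v = 0 → v ∈ dirs A c) →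
      (∀ y, y ∈ face A φ ↔ y - τ ∈ face A (-φ)) → ∀ t, τ + t ∈ S → t ∈ S := by
    intro φ c τ h0 hc hk hτ
    obtain ⟨h3, h4⟩ := lam_top h.conv h.cpt h.int hS h0 hc hk hτ
    rcases h.g2 φ c h0 hc hk with hN | hM
    · exact lock_of_noT h.conv h.cpt h.poly hS hc hk hN h3 h4
    rcases descent h.conv h.cpt h.int hS _ c hc.1 rfl h3 h4 with h5 | ⟨c', h5, h6⟩
    · exact h5
    · have h8 : ∀ y ∈ A, φ y ≤ φ c' := fun y hy => by
        have := map_dirs_eq_zero hc.2 h5.2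
        have := hc.2 y hy
        simp only [map_sub] at *
        linarith
      exact (h2 ⟨c', h5.1, fun h7 => h0 (eq_zero_of_max h7 h8), h6.1, h6.2,
        hM c' ⟨h5.1, h8⟩ h6.1 h6.2⟩).elim
  refine cover h.conv h.cpt h.int h.poly
    (fun l hl => hS.pack l (by simpa using (hl 0).2 hS.zero)) fun φ c h0 hc hk => ?_
  obtain ⟨τ, hτ⟩ := h.g1 φ c hc hk
  refine ⟨τ, fun t => ⟨key φ c τ h0 hc hk hτ t, fun ht => ?_⟩, hτ⟩
  refine key (-φ) (c - τ) (-τ) (neg_ne_zero.2 h0) ((hτ c).1 hc) (opp_reg hc hk hτ)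
    (fun y => ?_) _ (by simpa using ht)
  rw [neg_neg, hτ]
  simp

end

theorem stmt_of_good (n : ℕ) : ∀ (V : Type) [NormedAddCommGroup V] [NormedSpace ℝ V]
    [FiniteDimensional ℝ V] [MeasurableSpace V] [BorelSpace V] (A : Set V),
    Module.finrank ℝ V = n → Good A → Stmt V A := by
  induction n using Nat.strong_induction_on with
  | _ n ih =>
  intro V _ _ _ _ _ A hn h
  rcases h.cover_or_tight with h1 | ⟨c, hc, hci, hv, ht, A', hA'⟩
  · exact stmt_locked h.conv h.cpt h.int h1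
  obtain ⟨W', hW, hrect⟩ := split h.conv h.cpt h.int hc ht hA'
  set W := Wd h.conv hc with hWdef
  let f : (W × W') ≃L[ℝ] V := (Submodule.prodEquivOfIsCompl W W' hW).toContinuousLinearEquiv
  have hf : ∀ x : W × W', f x = x.1 + x.2 := fun x => rfl
  have e : f ⁻¹' A = (Prod.fst '' (f ⁻¹' A)) ×ˢ (Prod.snd '' (f ⁻¹' A)) := by
    refine Subset.antisymm (fun x hx => ⟨⟨x, hx, rfl⟩, ⟨x, hx, rfl⟩⟩) ?_
    rintro x ⟨⟨y, hy, h1⟩, ⟨z, hz, h2⟩⟩
    refine hrect _ hy _ hz _ ?_ ?_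
    · rw [hf, hf, h1, add_sub_add_left_eq_sub]
      exact W'.sub_mem x.2.2 y.2.2
    · rw [hf, hf, h2, add_sub_add_right_eq_sub]
      exact W.sub_mem x.1.2 z.1.2
  have hG := h.pre f
  rw [e] at hG
  have hd := Submodule.finrank_add_eq_of_isCompl hW
  have h1 : Module.finrank ℝ W < n := by
    rw [← hn]
    refine Submodule.finrank_lt fun htop => hci ?_
    obtain ⟨a, ha⟩ := h.int
    have h2 : c - a ∈ W := htop ▸ Submodule.mem_top
    obtain ⟨ε, hε, h3⟩ := dirs_pos h2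
    have h4 := h.conv.combo_interior_self_mem_interior ha h3 (a := ε / (1 + ε))
      (b := 1 / (1 + ε)) (by positivity) (by positivity) (by field_simp; ring)
    convert h4 using 1
    have h5 : (1 + ε) ≠ 0 := by positivity
    match_scalars
    · field_simp
    · field_simp; ring
  have h2 : Module.finrank ℝ W' < n := by
    obtain ⟨v, hv, hv0⟩ := hv
    have : Module.finrank ℝ W ≠ 0 := by
      rw [Ne, Submodule.finrank_eq_zero, Submodule.eq_bot_iff]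
      exact fun h => hv0 (h v hv)
    omega
  let _ : MeasurableSpace W := borel W
  let _ : MeasurableSpace W' := borel W'
  have : BorelSpace W := ⟨rfl⟩
  have : BorelSpace W' := ⟨rfl⟩
  exact stmt_sum f h.cpt.measurableSet hG.snd.cpt e (ih _ h1 W _ rfl hG.fst)
    (ih _ h2 W' _ rfl hG.snd)

end Pool.Agent.Lib.MP_61fe1c_an
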