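import Pool.Agent.Lib.MP_61fe1c_an.Abs
import Pool.Agent.Lib.MP_61fe1c_an.Hil

/-!
The concrete operator system attached to an orthogonal basis of `L²(A) ⊗ L²(ν)`.
-/

set_option linter.unusedSectionVars false

open Set Metric MeasureTheory ComplexConjugate
open scoped InnerProductSpace Pointwise

namespace Pool.Agent.Lib.MP_61fe1c_an

section ch

variable {V : Type} [AddCommGroup V] [Module ℝ V]

/-- the character attached to a linear functional -/
noncomputable def ch (φ : V →ₗ[ℝ] ℝ) (x : V) : ℂ :=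
  Complex.exp (2 * Real.pi * Complex.I * (φ x : ℝ))

lemma ch_norm (φ : V →ₗ[ℝ] ℝ) (x : V) : ‖ch φ x‖ = 1 := by
  unfold ch
  rw [show 2 * (Real.pi : ℂ) * Complex.I * (φ x : ℝ) = ((2 * Real.pi * φ x : ℝ) : ℂ) * Complex.I by
    push_cast; ring]
  exact Complex.norm_exp_ofReal_mul_I _

lemma ch_ne_zero (φ : V →ₗ[ℝ] ℝ) (x : V) : ch φ x ≠ 0 := Complex.exp_ne_zero _

lemma ch_add (φ : V →ₗ[ℝ] ℝ) (x y : V) : ch φ (x + y) = ch φ x * ch φ y := by
  unfold ch; rw [← Complex.exp_add]; congr 1; simp; ring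

lemma ch_zero (φ : V →ₗ[ℝ] ℝ) : ch φ 0 = 1 := by simp [ch]

lemma ch_zero_left (x : V) : ch (0 : V →ₗ[ℝ] ℝ) x = 1 := by simp [ch]

lemma ch_sub_left (φ ψ : V →ₗ[ℝ] ℝ) (x : V) : ch (φ - ψ) x = conj (ch ψ x) * ch φ x := by
  unfold ch
  rw [← Complex.exp_conj, ← Complex.exp_add]; congr 1
  simp [Complex.conj_ofReal, map_ofNat]; ring

lemma ch_mul_sub (φ ψ : V →ₗ[ℝ] ℝ) (x : V) : ch ψ x * ch (φ - ψ) x = ch φ x := by
  unfold ch; rw [← Complex.exp_add]; congr 1; simp; ring

lemma ch_eq_one_iff (φ : V →ₗ[ℝ] ℝ) (x : V) : ch φ x = 1 ↔ ∃ n : ℤ, φ x = n := by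
  unfold ch
  rw [Complex.exp_eq_one_iff]
  have h : (2 * Real.pi * Complex.I : ℂ) ≠ 0 := Complex.two_pi_I_ne_zero
  constructor
  · rintro ⟨n, hn⟩
    refine ⟨n, ?_⟩
    rw [mul_comm (n : ℂ)] at hn
    exact_mod_cast mul_left_cancel₀ h hn
  · rintro ⟨n, hn⟩
    exact ⟨n, by rw [hn]; push_cast; ring⟩

end ch

variable {V : Type} [NormedAddCommGroup V] [NormedSpace ℝ V] [FiniteDimensional ℝ V]
  [MeasurableSpace V] [BorelSpace V]

lemma continuous_ch (φ : V →ₗ[ℝ] ℝ) : Continuous (ch φ) := by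
  have := φ.continuous_of_finiteDimensional
  unfold ch
  fun_prop

variable {Y : Type} [MeasurableSpace Y] {I : Type}

/-- product functions -/
noncomputable def pr (ξ : I → V →ₗ[ℝ] ℝ) (k : I → Y → ℂ) (i : I) (p : V × Y) : ℂ :=
  ch (ξ i) p.1 * k i p.2

lemma Uni.pr {k : I → Y → ℂ} (hk : Uni k) (ξ : I → V →ₗ[ℝ] ℝ) : Uni (pr ξ k) where
  meas i := ((continuous_ch (ξ i)).measurable.comp measurable_fst).mul
    ((hk.meas i).comp measurable_snd)
  norm i x := by simp [Pool.Agent.Lib.MP_61fe1c_an.pr, ch_norm, hk.norm]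

lemma setIntegral_ch_shift (μ : Measure V) [μ.IsAddHaarMeasure] (φ : V →ₗ[ℝ] ℝ) {T : Set V}
    (hT : MeasurableSet T) (s : V) :
    ∫ x in (fun x => x - s) ⁻¹' T, ch φ x ∂μ = ch φ s * ∫ x in T, ch φ x ∂μ := by
  have hm : MeasurableSet ((fun x => x - s) ⁻¹' T) := hT.preimage (by fun_prop)
  rw [← integral_indicator hm, ← integral_indicator hT, ← integral_const_mul,
    ← integral_add_right_eq_self _ s]
  congr 1; ext x
  by_cases hx : x ∈ T
  · rw [indicator_of_mem hx, indicator_of_mem (by simpa using hx), ch_add, mul_comm]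
  · rw [indicator_of_notMem hx, indicator_of_notMem (by simpa using hx), mul_zero]

lemma exists_ball_integral_ne (μ : Measure V) [μ.IsAddHaarMeasure] (φ : V →ₗ[ℝ] ℝ) (a : V)
    {r : ℝ} (hr : 0 < r) : ∃ δ, 0 < δ ∧ δ ≤ r ∧ ∫ x in closedBall a δ, ch φ x ∂μ ≠ 0 := by
  have hc : Continuous fun x => (conj (ch φ a) * ch φ x).re := by
    have := continuous_ch φ
    fun_prop
  have h1 : (conj (ch φ a) * ch φ a).re = 1 := by
    rw [Complex.conj_mul', ch_norm]; simp
  have : ∀ᶠ x in nhds a, (1 / 2 : ℝ) < (conj (ch φ a) * ch φ x).re :=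
    hc.continuousAt.eventually (lt_mem_nhds (by simp only [h1]; norm_num))
  obtain ⟨δ, hδ, h2⟩ := Metric.nhds_basis_closedBall.mem_iff.1 this
  refine ⟨min δ r, lt_min hδ hr, min_le_right _ _, fun h0 => ?_⟩
  have hint : IntegrableOn (fun x => conj (ch φ a) * ch φ x) (closedBall a (min δ r)) μ :=
    (continuous_const.mul (continuous_ch φ)).continuousOn.integrableOn_compact
      (isCompact_closedBall _ _)
  have h3 : ∫ x in closedBall a (min δ r), (conj (ch φ a) * ch φ x).re ∂μ = 0 := by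
    have := integral_re hint
    simp only [RCLike.re_to_complex] at this
    rw [this, integral_const_mul, h0]; simp
  have h4 : (1 / 2 : ℝ) * μ.real (closedBall a (min δ r)) ≤
      ∫ x in closedBall a (min δ r), (conj (ch φ a) * ch φ x).re ∂μ :=
    setIntegral_ge_of_const_le_real measurableSet_closedBall measure_closedBall_lt_top.ne
      (fun x hx => (h2 (closedBall_subset_closedBall (min_le_left _ _) hx)).le)
      (hc.continuousOn.integrableOn_compact (isCompact_closedBall _ _))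
  have h5 : 0 < μ.real (closedBall a (min δ r)) :=
    ENNReal.toReal_pos (measure_closedBall_pos μ a (lt_min hδ hr)).ne' measure_closedBall_lt_top.ne
  linarith

lemma interior_sub_subset {A : Set V} (hc : Convex ℝ A) {a0 : V} (h0 : a0 ∈ interior A) {t : V}
    (ht : t ∈ interior (A - A)) : ∃ p ∈ interior A, ∃ q ∈ interior A, t = p - q := by
  have : ∀ᶠ c : ℝ in nhds 1, c • t ∈ A - A := by
    have hc : ContinuousAt (fun c : ℝ => c • t) 1 := by fun_prop
    exact hc.eventually (by simpa using mem_interior_iff_mem_nhds.1 ht)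
  obtain ⟨c, hc1, p, hp, q, hq, e⟩ : ∃ c : ℝ, 1 < c ∧ c • t ∈ A - A :=
    ((eventually_mem_nhdsWithin (s := Ioi (1 : ℝ)) (a := 1)).and
      (this.filter_mono nhdsWithin_le_nhds)).exists
  have hc0 : 0 < c := by linarith
  have h1 : 0 < 1 - c⁻¹ := sub_pos.2 (inv_lt_one_of_one_lt₀ hc1)
  have h2 : 0 ≤ c⁻¹ := by positivity
  refine ⟨_, hc.combo_interior_self_mem_interior h0 hp h1 h2 (by ring),
    _, hc.combo_interior_self_mem_interior h0 hq h1 h2 (by ring), ?_⟩
  simp only at e
  rw [add_sub_add_left_eq_sub, ← smul_sub, e, smul_smul, inv_mul_cancel₀ hc0.ne', one_smul]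

/-- the combinatorial data extracted from an orthogonal basis -/
structure Adm (A S : Set V) : Prop where
  closed : IsClosed S
  zero : (0 : V) ∈ S
  pack : ∀ t ∈ S, t ∈ interior (A - A) → t = 0
  tri : ∀ t ∈ S, ∀ w, ∃ z, z - w ∈ A ∧ z ∈ S ∧ t - z ∈ S

theorem exists_adm (μ : Measure V) [μ.IsAddHaarMeasure] {A : Set V} (hA : IsCompact A)
    (hc : Convex ℝ A) (hi : (interior A).Nonempty) (ν : Measure Y) [IsFiniteMeasure ν]
    (hν : ν ≠ 0) (ξ : I → V →ₗ[ℝ] ℝ) {k : I → Y → ℂ} (hk : Uni k) {J : Set I}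
    (h : OB ((μ.restrict A).prod ν) (pr ξ k) J) :
    ∃ S : Set V, Adm A S ∧ ∀ τ, (∀ t, τ + t ∈ S → t ∈ S) → ∀ i ∈ J, ∀ j ∈ J,
      ∫ y, conj (k i y) * k j y ∂ν ≠ 0 → ∃ n : ℤ, (ξ j - ξ i) τ = n := by
  classical
  obtain ⟨a0, h0⟩ := hi
  have : IsFiniteMeasure (μ.restrict A) := ⟨by simpa using hA.measure_lt_top⟩
  set m := (μ.restrict A).prod ν with hm
  have hνu : ν univ ≠ 0 := by simpa using hν
  have hpos : ∀ a ∈ interior A, ∀ ε > 0, m (closedBall a ε ×ˢ univ) ≠ 0 := by
    intro a ha ε hε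
    rw [hm, Measure.prod_prod, Measure.restrict_apply measurableSet_closedBall]
    refine mul_ne_zero ?_ hνu
    exact (Measure.measure_pos_of_mem_nhds μ (Filter.inter_mem (closedBall_mem_nhds a hε)
      (mem_interior_iff_mem_nhds.1 ha))).ne'
  have hm0 : m ≠ 0 := fun h' => hpos a0 h0 1 one_pos (by rw [h']; simp)
  obtain ⟨b, c, hc0, hb⟩ := exists_basis hm0 (hk.pr ξ) h
  choose U hU hU' using fun t : V => exists_diag b (fun i => ch (ξ i) t) (fun i => ch_norm _ _)
  let M : Set V → (Lp ℂ 2 m →L[ℂ] Lp ℂ 2 m) := fun T =>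
    if hT : MeasurableSet T then indL m (hT.prod MeasurableSet.univ) else 0
  have hM : ∀ T (hT : MeasurableSet T), M T = indL m (hT.prod MeasurableSet.univ) :=
    fun T hT => dif_pos hT
  have hin : ∀ T, MeasurableSet T → T ⊆ A → ∀ i j : J, ⟪b i, M T (b j)⟫_ℂ =
      c * c * ((∫ x in T, ch (ξ j - ξ i) x ∂μ) * ∫ y, conj (k i y) * k j y ∂ν) := by
    intro T hT hTA i j
    rw [hM T hT, inner_indL _ (hb i) (hb j)]
    have : ∫ x in T, ch (ξ j - ξ i) x ∂μ = ∫ x in A, T.indicator (ch (ξ j - ξ i)) x ∂μ := by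
      rw [integral_indicator hT, Measure.restrict_restrict hT, inter_eq_left.2 hTA]
    rw [this, ← integral_prod_mul, ← integral_const_mul]
    congr 1; ext p
    by_cases hp : p.1 ∈ T
    · rw [indicator_of_mem hp, indicator_of_mem (by simpa using hp), ch_sub_left]
      simp only [pr, map_mul, Complex.conj_ofReal]; ring
    · rw [indicator_of_notMem hp, indicator_of_notMem (by simpa using hp)]; simp
  have hsig : ∀ (S : ℕ → Set V) (X : Lp ℂ 2 m →L[ℂ] Lp ℂ 2 m), (∀ n, MeasurableSet (S n)) →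
      (∀ n, M (S n) * X = 0) → M (⋃ n, S n) * X = 0 := by
    intro S X hS hX
    ext1 f
    rw [mul_apply_eq_comp, hM _ (MeasurableSet.iUnion hS), _root_.zero_apply,
      indL_eq_zero_iff]
    have : ∀ n, ∀ᵐ p ∂m, p ∈ S n ×ˢ (univ : Set Y) → (X f) p = 0 := by
      intro n
      rw [← indL_eq_zero_iff ((hS n).prod MeasurableSet.univ), ← hM _ (hS n), ← mul_apply_eq_comp,
        hX n, _root_.zero_apply]
    filter_upwards [ae_all_iff.2 this] with p hp hp'
    obtain ⟨n, hn⟩ := mem_iUnion.1 hp'.1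
    exact hp n ⟨hn, trivial⟩
  have hstar : ∀ T, star (M T) = M T := by
    intro T
    by_cases hT : MeasurableSet T
    · rw [hM T hT, star_indL]
    · simp only [M, dif_neg hT, star_zero]
  let s : Sys A (Lp ℂ 2 m →L[ℂ] Lp ℂ 2 m) :=
    { U := U
      M := M
      U_add := fun s t => clm_ext b fun i => by
        rw [mul_apply_eq_comp, hU, hU, map_smul, hU, smul_smul, ch_add, mul_comm]
      U_zero := clm_ext b fun i => by rw [hU, ch_zero, one_smul]; rfl
      M_inter := fun S T hS hT => by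
        rw [hM _ (hS.inter hT), hM _ hS, hM _ hT, ← indL_inter]
        congr 1; ext p; simp
      M_split := fun S T hS hT => by
        rw [hM _ (hS.inter hT), hM _ hS, hM _ (hS.diff hT),
          indL_split _ (hT.prod MeasurableSet.univ)]
        congr 2 <;> ext p <;> simp
      M_A := by
        rw [hM _ hA.measurableSet]
        refine indL_one _ ?_
        rw [hm, ae_iff]
        have : {a : V × Y | ¬ a ∈ A ×ˢ (univ : Set Y)} = Aᶜ ×ˢ univ := by ext p; simp
        rw [this, Measure.prod_prod, Measure.restrict_apply hA.measurableSet.compl]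
        simp
      M_empty := by
        rw [hM _ MeasurableSet.empty]
        ext1 f
        rw [_root_.zero_apply, indL_eq_zero_iff]
        exact ae_of_all _ fun p hp => hp.1.elim
      cov := fun T s hT hTA hTs => clm_ext2 b fun i j => by
        have hm' : MeasurableSet ((fun x => x - s) ⁻¹' T) := hT.preimage (by fun_prop)
        rw [mul_apply_eq_comp, mul_apply_eq_comp, hU, map_smul, inner_smul_right, hU',
          hin T hT hTA, hin _ hm' (fun x hx => by simpa using hTs _ hx),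
          setIntegral_ch_shift μ _ hT, ← ch_mul_sub (ξ j) (ξ i) s]
        ring
      M_ne := fun a ha ε hε h' => by
        have h1 : MemLp (fun _ : V × Y => (1 : ℂ)) 2 m := memLp_const 1
        have h2 : M (closedBall a ε) (h1.toLp _) = 0 := by rw [h']; rfl
        rw [hM _ measurableSet_closedBall, indL_eq_zero_iff] at h2
        apply hpos a ha ε hε
        rw [measure_eq_zero_iff_ae_notMem]
        filter_upwards [h2, h1.coeFn_toLp] with p h3 h4 hp
        rw [h3 hp] at h4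
        exact zero_ne_one h4
      sigL := hsig
      sigR := fun S X hS hX => by
        have := hsig S (star X) hS fun n => by
          rw [← hstar (S n), ← star_mul, hX n, star_zero]
        rw [← hstar, ← star_mul, star_eq_zero] at this
        exact this }
  obtain ⟨r, hr, hC⟩ := Metric.nhds_basis_closedBall.mem_iff.1
    (isOpen_interior.mem_nhds h0)
  have hCA := hC.trans interior_subset
  have hpack : ∀ t ∈ s.Spp a0, t ∈ interior (A - A) → t = 0 := by
    intro t ht ht'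
    obtain ⟨p, hp, q, hq, rfl⟩ := interior_sub_subset hc h0 ht'
    by_contra hne
    exact s.not_mem_Spp h0 hp hq (fun h => hne (by rw [h, sub_self])) ht
  refine ⟨s.Spp a0, ⟨s.isClosed_Spp hr hCA, s.zero_mem_Spp h0, hpack,
    fun t ht w => s.triangle hA hr hCA ht w⟩, fun τ hτ i hi j hj hij => ?_⟩
  obtain ⟨δ, hδ, hδr, hne⟩ := exists_ball_integral_ne μ (ξ j - ξ i) a0 hr
  have hCδ := (closedBall_subset_closedBall hδr).trans hC
  have hcomm := s.commute_ball hA hδ hCδ (τ := τ)
    (fun t ht ht0 h' => ht0 (hpack t (hτ t h') ht))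
  have h1 := congrArg (fun P : Lp ℂ 2 m →L[ℂ] Lp ℂ 2 m => ⟪b ⟨i, hi⟩, P (b ⟨j, hj⟩)⟫_ℂ) hcomm
  simp only [s, mul_apply_eq_comp] at h1
  rw [hU', hU, map_smul, inner_smul_right,
    hin _ measurableSet_closedBall (hCδ.trans interior_subset)] at h1
  have hc1 : (c : ℂ) ≠ 0 := by exact_mod_cast hc0
  have h2 := mul_right_cancel₀ (mul_ne_zero (mul_ne_zero hc1 hc1) (mul_ne_zero hne hij)) h1
  rw [← ch_eq_one_iff]
  have h3 := ch_mul_sub (ξ j) (ξ i) τ
  rw [← h2] at h3
  exact mul_left_cancel₀ (ch_ne_zero (ξ i) τ) (by rw [h3, mul_one])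

end Pool.Agent.Lib.MP_61fe1c_an
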