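import Pool.Agent.Lib.MP_61fe1c_an.Cover

/-!
The class of good polytopes; a tight face which is a summand splits the polytope as a direct sum.
-/

set_option linter.unusedSectionVars false

open Set Filter Topology
open scoped Pointwise

namespace Pool.Agent.Lib.MP_61fe1c_an

variable {V : Type} [NormedAddCommGroup V] [NormedSpace ℝ V] [FiniteDimensional ℝ V]
variable {V' : Type} [NormedAddCommGroup V'] [NormedSpace ℝ V'] [FiniteDimensional ℝ V']

/-- no ridge of the facet is tight -/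
def NoT (A : Set V) (φ : V →ₗ[ℝ] ℝ) : Prop :=
  ∀ x ∈ face A φ, ∀ ψ : V →ₗ[ℝ] ℝ, x ∈ face A ψ → (∃ u, φ u = 0 ∧ ψ u ≠ 0) →
    (∀ v, φ v = 0 → ψ v = 0 → v ∈ dirs A x) → ∀ y ∈ face A φ, x - y ∈ interior (A - A)

/-- tight faces of the facet are summands -/
def Sm (A : Set V) (φ : V →ₗ[ℝ] ℝ) : Prop :=
  ∀ c ∈ face A φ, (∃ v ∈ dirs A c, v ≠ 0) → Tight A c → ∃ A', A = Ef A c + A'

structure Good (A : Set V) : Prop where
  conv : Convex ℝ A
  cpt : IsCompact A
  int : (interior A).Nonempty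
  poly : IsH A
  g1 : ∀ (φ : V →ₗ[ℝ] ℝ) (c : V), c ∈ face A φ → (∀ v, φ v = 0 → v ∈ dirs A c) →
    ∃ τ, ∀ y, y ∈ face A φ ↔ y - τ ∈ face A (-φ)
  g2 : ∀ (φ : V →ₗ[ℝ] ℝ) (c : V), φ ≠ 0 → c ∈ face A φ → (∀ v, φ v = 0 → v ∈ dirs A c) →
    NoT A φ ∨ Sm A φ

section transport

variable {A : Set V} (f : V' ≃L[ℝ] V)

lemma dirs_pre {c v : V'} : v ∈ dirs (f ⁻¹' A) c ↔ f v ∈ dirs A (f c) := by
  simp [dirs]

lemma Ef_pre {c x : V'} : x ∈ Ef (f ⁻¹' A) c ↔ f x ∈ Ef A (f c) := by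
  simp [Ef, dirs_pre]

lemma Eo_pre {c x : V'} : x ∈ Eo (f ⁻¹' A) c ↔ f x ∈ Eo A (f c) := by
  simp [Eo, Ef_pre, dirs_pre]

lemma int_pre {x : V'} : x ∈ interior (f ⁻¹' A) ↔ f x ∈ interior A := by
  have := f.toHomeomorph.preimage_interior A
  simp only [ContinuousLinearEquiv.coe_toHomeomorph] at this
  rw [← this]; rfl

lemma G_pre {x : V'} : x ∈ interior (f ⁻¹' A - f ⁻¹' A) ↔ f x ∈ interior (A - A) := by
  rw [← int_pre]
  congr! 2
  ext z
  constructor
  · rintro ⟨p, hp, q, hq, rfl⟩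
    exact ⟨_, hp, _, hq, by simp⟩
  · rintro ⟨p, hp, q, hq, h⟩
    refine ⟨f.symm p, by simpa using hp, f.symm q, by simpa using hq, f.injective ?_⟩
    simpa using h

lemma face_pre {φ : V' →ₗ[ℝ] ℝ} {x : V'} :
    x ∈ face (f ⁻¹' A) φ ↔ f x ∈ face A (φ ∘ₗ (f.symm : V →ₗ[ℝ] V')) := by
  simp only [face, mem_ofPred_eq, mem_preimage]
  refine and_congr_right fun _ => ⟨fun h y hy => ?_, fun h y hy => ?_⟩
  · simpa using h (f.symm y) (by simpa using hy)
  · simpa using h _ hy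

lemma Good.pre (h : Good A) : Good (f ⁻¹' A) where
  conv := h.conv.linear_preimage (f : V' →ₗ[ℝ] V)
  cpt := f.toHomeomorph.isCompact_preimage.2 h.cpt
  int := by
    obtain ⟨a, ha⟩ := h.int
    exact ⟨f.symm a, (int_pre f).2 (by simpa using ha)⟩
  poly := by
    obtain ⟨ι, hι, n, b, rfl⟩ := h.poly
    exact ⟨ι, hι, fun i => n i ∘ₗ (f : V' →ₗ[ℝ] V), b, rfl⟩
  g1 := by
    intro φ c hc hk
    obtain ⟨τ, hτ⟩ := h.g1 _ _ ((face_pre f).1 hc) fun v hv => by
      simpa using (dirs_pre f).1 (hk (f.symm v) hv)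
    refine ⟨f.symm τ, fun y => ?_⟩
    rw [face_pre, face_pre, hτ, map_sub, f.apply_symm_apply, LinearMap.neg_comp]
  g2 := by
    intro φ c0 h0 hc0 hk
    refine (h.g2 _ _ (fun h' => h0 (LinearMap.ext fun v => by
      simpa using congrArg (fun g : V →ₗ[ℝ] ℝ => g (f v)) h')) ((face_pre f).1 hc0) fun v hv => by
        simpa using (dirs_pre f).1 (hk (f.symm v) hv)).imp (fun hN => ?_) (fun hS => ?_)
    · rintro x hx ψ hψ ⟨u, hu1, hu2⟩ hd y hy
      rw [G_pre, map_sub]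
      exact hN _ ((face_pre f).1 hx) _ ((face_pre f).1 hψ) ⟨f u, by simpa using hu1,
        by simpa using hu2⟩ (fun v h1 h2 => by
          simpa using (dirs_pre f).1 (hd (f.symm v) h1 h2)) _ ((face_pre f).1 hy)
    rintro c hc ⟨v, hv, hv0⟩ ht
    obtain ⟨A', hA'⟩ := hS (f c) ((face_pre f).1 hc)
      ⟨f v, (dirs_pre f).1 hv, by simpa using hv0⟩ (fun x hx hx' => by
        obtain ⟨y, hy, hxy⟩ := ht (f.symm x) ((Ef_pre f).2 (by simpa using hx))
          (fun h' => hx' (by simpa using (Eo_pre f).1 h'))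
        exact ⟨f y, (Ef_pre f).1 hy, fun h' => hxy ((G_pre f).2 (by simpa using h'))⟩)
    refine ⟨f ⁻¹' A', ?_⟩
    ext x
    constructor
    · intro hx
      rw [mem_preimage, hA'] at hx
      obtain ⟨p, hp, q, hq, e⟩ := hx
      refine ⟨f.symm p, (Ef_pre f).2 (by simpa using hp), f.symm q, by simpa using hq,
        f.injective ?_⟩
      simpa using e
    · rintro ⟨p, hp, q, hq, rfl⟩
      rw [mem_preimage, hA']
      exact ⟨_, (Ef_pre f).1 hp, _, hq, by simp⟩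

end transport

section prod

variable {A : Set V} {B : Set V'}

lemma dirs_prod {c v : V × V'} : v ∈ dirs (A ×ˢ B) c ↔ v.1 ∈ dirs A c.1 ∧ v.2 ∈ dirs B c.2 := by
  simp [dirs]

lemma face_prod {φ : V →ₗ[ℝ] ℝ} {x : V × V'} (hB : B.Nonempty) :
    x ∈ face (A ×ˢ B) (φ ∘ₗ LinearMap.fst ℝ V V') ↔ x.1 ∈ face A φ ∧ x.2 ∈ B := by
  obtain ⟨b, hb⟩ := hB
  constructor
  · rintro ⟨h1, h2⟩
    exact ⟨⟨h1.1, fun y hy => h2 (y, b) ⟨hy, hb⟩⟩, h1.2⟩
  · rintro ⟨h1, h2⟩
    exact ⟨⟨h1.1, h2⟩, fun y hy => h1.2 _ hy.1⟩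

lemma dirs_of_interior {x : V} (hx : x ∈ interior A) (v : V) : v ∈ dirs A x := by
  have hc : ContinuousAt (fun t : ℝ => x + t • v) 0 := by fun_prop
  exact hc.eventually (by simpa using mem_interior_iff_mem_nhds.1 hx)

lemma Good.fst (h : Good (A ×ˢ B)) : Good A := by
  obtain ⟨⟨a, b⟩, hab⟩ := h.int
  rw [interior_prod_eq] at hab
  have hB : B.Nonempty := ⟨b, interior_subset hab.2⟩
  have hA : A.Nonempty := ⟨a, interior_subset hab.1⟩
  refine ⟨?_, ?_, ⟨a, hab.1⟩, ?_, ?_, ?_⟩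
  · have := h.conv.linear_image (LinearMap.fst ℝ V V')
    rwa [LinearMap.coe_fst, fst_image_prod _ hB] at this
  · have := h.cpt.image continuous_fst
    rwa [fst_image_prod _ hB] at this
  · obtain ⟨ι, hι, n, c, e⟩ := h.poly
    refine ⟨ι, hι, fun i => n i ∘ₗ LinearMap.inl ℝ V V', fun i => c i - n i (0, b), ?_⟩
    ext x
    have h1 : x ∈ A ↔ (x, b) ∈ A ×ˢ B := ⟨fun h => ⟨h, interior_subset hab.2⟩, fun h => h.1⟩
    rw [h1, e]
    refine forall_congr' fun i => ?_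
    have : n i (x, b) = n i (x, 0) + n i (0, b) := by rw [← map_add]; simp
    simp only [LinearMap.comp_apply, LinearMap.inl_apply, this, le_sub_iff_add_le]
  · intro φ c hc hk
    obtain ⟨τ, hτ⟩ := h.g1 (φ ∘ₗ LinearMap.fst ℝ V V') (c, b)
      ((face_prod hB).2 ⟨hc, interior_subset hab.2⟩)
      fun v hv => dirs_prod.2 ⟨hk _ hv, dirs_of_interior hab.2 _⟩
    refine ⟨τ.1, fun y => ⟨fun hy => ?_, fun hy => ?_⟩⟩
    · have := (hτ (y, b)).1 ((face_prod hB).2 ⟨hy, interior_subset hab.2⟩)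
      rw [← LinearMap.neg_comp, face_prod hB] at this
      exact this.1
    · have := (hτ (y, b + τ.2)).2 (by
        rw [← LinearMap.neg_comp, face_prod hB]
        exact ⟨hy, by simpa using interior_subset hab.2⟩)
      exact ((face_prod hB).1 this).1
  · intro φ c0 h0 hc0 hk
    have hb := interior_subset hab.2
    refine (h.g2 (φ ∘ₗ LinearMap.fst ℝ V V') (c0, b) (fun h' => h0 (LinearMap.ext fun v => by
      simpa using congrArg (fun g : V × V' →ₗ[ℝ] ℝ => g (v, 0)) h'))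
      ((face_prod hB).2 ⟨hc0, hb⟩)
      fun v hv => dirs_prod.2 ⟨hk _ hv, dirs_of_interior hab.2 _⟩).imp (fun hN => ?_) (fun hS => ?_)
    · rintro x hx ψ hψ ⟨u, hu1, hu2⟩ hd y hy
      have := hN (x, b) ((face_prod hB).2 ⟨hx, hb⟩) (ψ ∘ₗ LinearMap.fst ℝ V V')
        ((face_prod hB).2 ⟨hψ, hb⟩) ⟨(u, 0), hu1, hu2⟩
        (fun v h1 h2 => dirs_prod.2 ⟨hd _ h1 h2, dirs_of_interior hab.2 _⟩) (y, b)
        ((face_prod hB).2 ⟨hy, hb⟩)
      rw [prod_sub_prod_comm, interior_prod_eq] at this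
      exact this.1
    rintro c hc ⟨v, hv, hv0⟩ ht
    have hBc : IsCompact B := by
      have := h.cpt.image continuous_snd
      rwa [snd_image_prod hA] at this
    obtain ⟨e, he⟩ := hBc.extremePoints_nonempty hB
    have he0 : ∀ w ∈ dirs B e, w = 0 := by
      intro w hw
      obtain ⟨t, ht0, h1, h2⟩ := ((eventually_mem_nhdsWithin (s := Ioi (0 : ℝ)) (a := 0)).and
        (Eventually.filter_mono nhdsWithin_le_nhds (Eventually.and hw (dirs_neg hw)))).exists
      rw [smul_neg, ← sub_eq_add_neg] at h2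
      have := he.2 h1 h2 (mem_openSegment_add_sub _ _)
      have ht0' : 0 < t := ht0
      simpa [ht0'.ne'] using this
    have hE : ∀ x : V × V', x ∈ Ef (A ×ˢ B) (c, e) ↔ x.1 ∈ Ef A c ∧ x.2 = e := by
      intro x
      constructor
      · rintro ⟨h1, h2⟩
        rw [dirs_prod] at h2
        exact ⟨⟨h1.1, h2.1⟩, sub_eq_zero.1 (he0 _ h2.2)⟩
      · rintro ⟨h1, h2⟩
        refine ⟨⟨h1.1, h2 ▸ he.1⟩, dirs_prod.2 ⟨h1.2, ?_⟩⟩
        simpa [h2] using dirs_zero he.1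
    obtain ⟨A', hA'⟩ := hS (c, e) ((face_prod hB).2 ⟨hc, he.1⟩)
      ⟨(v, 0), dirs_prod.2 ⟨hv, dirs_zero he.1⟩, by simpa using hv0⟩ (fun x hx hx' => by
        obtain ⟨h1, h2⟩ := (hE x).1 hx
        obtain ⟨y, hy, hxy⟩ := ht x.1 h1 fun h' => hx' ⟨hx, dirs_prod.2 ⟨h'.2, by
          simpa [h2] using dirs_zero he.1⟩⟩
        refine ⟨(y, e), (hE _).2 ⟨hy, rfl⟩, fun h' => hxy ?_⟩
        rw [prod_sub_prod_comm, interior_prod_eq] at h'
        exact h'.1)
    refine ⟨Prod.fst '' A', ?_⟩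
    ext x
    constructor
    · intro hx
      have : (x, e) ∈ A ×ˢ B := ⟨hx, he.1⟩
      rw [hA'] at this
      obtain ⟨p, hp, q, hq, h'⟩ := this
      exact ⟨p.1, ((hE p).1 hp).1, q.1, ⟨q, hq, rfl⟩, congrArg Prod.fst h'⟩
    · rintro ⟨p, hp, _, ⟨q, hq, rfl⟩, rfl⟩
      have : (p, e) + q ∈ A ×ˢ B := by
        rw [hA']; exact ⟨_, (hE _).2 ⟨hp, rfl⟩, _, hq, rfl⟩
      exact this.1

lemma Good.snd (h : Good (A ×ˢ B)) : Good B := by
  have := h.pre (ContinuousLinearEquiv.prodComm ℝ V' V)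
  refine Good.fst (B := A) ?_
  convert this using 1
  ext x
  simp [and_comm]

end prod

variable {A : Set V}

lemma exists_exit (hK : IsCompact A) {c w : V} (hc : c ∈ A) (hw : w ≠ 0) :
    ∃ κ : ℝ, 0 ≤ κ ∧ c + κ • w ∈ A ∧ ∀ ε : ℝ, 0 < ε → c + (κ + ε) • w ∉ A := by
  have h1 : IsCompact {t : ℝ | c + t • w ∈ A} := by
    have : Topology.IsClosedEmbedding (fun t : ℝ => c + t • w) :=
      (Homeomorph.addLeft c).isClosedEmbedding.comp (isClosedEmbedding_smul_left hw)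
    exact this.isCompact_preimage hK
  obtain ⟨κ, hκ, hmax⟩ := h1.exists_isGreatest ⟨0, by simpa using hc⟩
  refine ⟨κ, hmax (by simpa using hc), hκ, fun ε hε h => ?_⟩
  have := hmax h
  linarith

lemma ev_of_H {ι : Type} [Finite ι] {n : ι → V →ₗ[ℝ] ℝ} {h : ι → ℝ} {y v : V}
    (hy : ∀ i, n i y ≤ h i) (hv : ∀ i, n i y = h i → n i v ≤ 0) :
    ∀ᶠ t in 𝓝[>] (0 : ℝ), ∀ i, n i (y + t • v) ≤ h i := by
  refine eventually_all.2 fun i => ?_
  rcases (hy i).eq_or_lt with h1 | h1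
  · filter_upwards [eventually_mem_nhdsWithin (s := Ioi (0 : ℝ)) (a := 0)] with t ht
    have ht' : 0 < t := ht
    have := hv i h1
    simp only [map_add, map_smul, smul_eq_mul, h1]
    nlinarith
  · have hc : ContinuousAt (fun t : ℝ => n i y + t * n i v) 0 := by fun_prop
    have := hc.eventually (gt_mem_nhds (a := h i) (by simpa using h1))
    filter_upwards [Eventually.filter_mono nhdsWithin_le_nhds this] with t ht
    simpa using ht.le

lemma ev_ne (a b : ℝ) (hb : b ≠ 0) : ∀ᶠ t in 𝓝[>] (0 : ℝ), a + t * b ≠ 0 := by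
  by_cases ha : a = 0
  · filter_upwards [eventually_mem_nhdsWithin (s := Ioi (0 : ℝ)) (a := 0)] with t ht
    have ht' : 0 < t := ht
    simp [ha, hb, ht'.ne']
  · have hc : ContinuousAt (fun t : ℝ => a + t * b) 0 := by fun_prop
    exact Eventually.filter_mono nhdsWithin_le_nhds (hc.eventually_ne (by simpa using ha))

theorem lock_of_noT {S : Set V} (hA : Convex ℝ A) (hK : IsCompact A) (hH : IsH A) (hS : Adm A S)
    {φ : V →ₗ[ℝ] ℝ} {c τ : V} (hc : c ∈ face A φ) (hk : ∀ v, φ v = 0 → v ∈ dirs A c)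
    (hN : NoT A φ) (h1 : Lam A S τ 1 c) (h2 : Lam A S τ (-1) c) : ∀ t, τ + t ∈ S → t ∈ S := by
  intro t ht
  obtain ⟨s, hs, hτ, hcs, hts⟩ := h1 t ht c (self_mem_Eo hc.1)
  rw [one_smul] at hcs
  suffices s = 0 by simpa [this] using hts
  by_contra hs0
  obtain ⟨ι, _, n, h, hAH⟩ := hH
  have hφs : φ s = 0 := map_dirs_eq_zero hc.2 hs
  have hEF : ∀ x, x ∈ Ef A c ↔ x ∈ face A φ := fun x =>
    ⟨fun hx => ⟨hx.1, fun y hy => by
      have h3 := map_dirs_eq_zero hc.2 hx.2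
      have h4 := hc.2 y hy
      rw [map_sub] at h3
      linarith⟩, fun hx => ⟨hx.1, hk _ (by
        rw [map_sub, sub_eq_zero]; exact le_antisymm (hc.2 x hx.1) (hx.2 c hc.1))⟩⟩
  obtain ⟨κ, hκ0, hκ1, hκ⟩ : ∃ κ : ℝ, 0 < κ ∧ κ ≤ 1 ∧ c + κ • -s ∈ Eo A c := by
    obtain ⟨δ, hδ, h3⟩ := dirs_pos (dirs_neg hs)
    have h4 := combo_mem_Eo hA hc.1 (q := c + δ • -s) ⟨h3, by simpa using dirs_smul (dirs_neg hs) δ⟩
      (θ := 1 - 1 / (1 + δ)) (by
        rw [sub_pos, div_lt_one (by positivity)]; linarith) (by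
        have : 0 < 1 / (1 + δ) := by positivity
        linarith)
    refine ⟨δ / (1 + δ), by positivity, by rw [div_le_one (by positivity)]; linarith, ?_⟩
    convert h4 using 1
    have h5 : (1 + δ) ≠ 0 := by positivity
    match_scalars
    · ring
    · field_simp; ring
  have hκ' : c + κ • -s + s ∈ Eo A c := by
    have := combo_mem_Eo hA hc.1 (q := c + s) ⟨hcs, by simpa using hs⟩ hκ0 hκ1
    convert this using 1
    module
  set a := c + κ • -s with ha
  let b : ι × ι → (LinearMap.ker φ) →ₗ[ℝ] ℝ := fun p =>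
    (n p.2 s • n p.1 - n p.1 s • n p.2) ∘ₗ (LinearMap.ker φ).subtype
  obtain ⟨w, hw⟩ := (dense_iInter_of_isOpen (fun p => isOpen_ne (b p))
    fun p => dense_ne (b p)).nonempty
  rw [mem_iInter] at hw
  have hwd : (w : V) ∈ dirs A c := hk _ w.2
  have e1 : ∀ᶠ ε in 𝓝 (0 : ℝ), a + ε • (w : V) ∈ A := by
    rw [← dirs_eq hA hc.1 hκ] at hwd; exact hwd
  have e2 : ∀ᶠ ε in 𝓝 (0 : ℝ), a + s + ε • (w : V) ∈ A := by
    rw [← dirs_eq hA hc.1 hκ'] at hwd; exact hwd
  have e3 : ∀ᶠ ε in 𝓝[>] (0 : ℝ), ∀ p : ι × ι, b p ≠ 0 →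
      ((n p.1 a - h p.1) * n p.2 s - (n p.2 a - h p.2) * n p.1 s) + ε * b p w ≠ 0 := by
    refine eventually_all.2 fun p => ?_
    by_cases hp : b p = 0
    · exact Eventually.of_forall fun _ h => (h hp).elim
    · filter_upwards [ev_ne _ _ (hw p hp)] with t ht _ using ht
  obtain ⟨ε, h3, h4, h5⟩ := ((Eventually.filter_mono nhdsWithin_le_nhds e1).and
    ((Eventually.filter_mono nhdsWithin_le_nhds e2).and e3)).exists
  obtain ⟨l, hl0, hx, hmax⟩ := exists_exit hK h3 (neg_ne_zero.2 hs0)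
  set x := a + ε • (w : V) + l • -s with hxdef
  have hxH : ∀ i, n i x ≤ h i := hAH.le hx
  have hxE : x ∈ Ef A c := by
    refine ⟨hx, hk _ ?_⟩
    have : φ w = 0 := w.2
    simp [hxdef, ha, hφs, this]
  have hxs : x + (1 : ℝ) • s ∈ A := by
    have h6 := hA hx h4 (a := l / (1 + l)) (b := 1 / (1 + l)) (by positivity) (by positivity)
      (by field_simp; ring)
    convert h6 using 1
    have h7 : (1 + l) ≠ 0 := by positivity
    rw [hxdef]
    match_scalars
    · field_simp; ring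
    · field_simp; ring
    · field_simp; ring
  obtain ⟨i, hi1, hi2⟩ : ∃ i, n i x = h i ∧ 0 < n i (-s) := by
    by_contra hcon
    push Not at hcon
    obtain ⟨t, h6, h7⟩ := ((eventually_mem_nhdsWithin (s := Ioi (0 : ℝ)) (a := 0)).and
      (ev_of_H hxH hcon)).exists
    refine hmax t h6 (hAH.ge ?_)
    have h8 : a + ε • (w : V) + (l + t) • -s = x + t • -s := by rw [hxdef]; module
    rw [h8]
    exact h7
  have hi3 : n i s ≠ 0 := by
    intro h'; simp [h'] at hi2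
  have hnt := hN x ((hEF x).1 hxE) (n i) ⟨hx, fun y hy => hi1 ▸ hAH.le hy i⟩ ⟨s, hφs, hi3⟩
    (fun v hv1 hv2 => by
      rw [hAH]
      refine dirs_of_H hxH fun j hj => ?_
      have h6 : b (i, j) = 0 := by
        by_contra h'
        apply h5 (i, j) h'
        simp only [hxdef, map_add, map_smul, map_neg, smul_eq_mul] at hi1 hj
        simp only [b, LinearMap.comp_apply, LinearMap.sub_apply, LinearMap.smul_apply,
          Submodule.subtype_apply, smul_eq_mul, ← hi1, ← hj]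
        ring
      have h7 := congrArg (fun g : (LinearMap.ker φ) →ₗ[ℝ] ℝ => g ⟨v, hv1⟩) h6
      simpa [b, hv2, hi3] using h7)
  have h8 := claimA hA hK hS (Or.inl rfl) hc.1 h2 hxE (fun y hy => hnt y ((hEF y).1 hy)) hs hτ hxs
  have h9 := map_dirs_eq_zero (φ := n i) (fun y hy => hi1 ▸ hAH.le hy i) h8
  exact hi3 h9

theorem split (hA : Convex ℝ A) (hK : IsCompact A) (hi : (interior A).Nonempty) {c : V}
    (hc : c ∈ A) (ht : Tight A c) {A' : Set V} (hA' : A = Ef A c + A') :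
    ∃ W' : Submodule ℝ V, IsCompl (Wd hA hc) W' ∧
      ∀ x₁ ∈ A, ∀ x₂ ∈ A, ∀ x, x - x₁ ∈ W' → x - x₂ ∈ Wd hA hc → x ∈ A := by
  set D : Set V := {a | ∀ e ∈ Ef A c, e + a ∈ A} with hD
  have hDc : Convex ℝ D := by
    intro a ha b hb s t hs ht hst e he
    convert hA (ha e he) (hb e he) hs ht hst using 1
    have : t = 1 - s := by linarith
    subst this
    module
  have hdec : ∀ x ∈ A, ∃ e ∈ Ef A c, ∃ a ∈ D, x = e + a := by
    intro x hx
    rw [hA'] at hx
    obtain ⟨e, he, a, ha, rfl⟩ := hx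
    exact ⟨e, he, a, fun e' he' => by rw [hA']; exact ⟨e', he', a, ha, rfl⟩, rfl⟩
  have hinj : ∀ a ∈ D, ∀ b ∈ D, a - b ∈ dirs A c → a = b := by
    intro a ha b hb hw
    by_contra hne
    have hw0 : a - b ≠ 0 := sub_ne_zero.2 hne
    obtain ⟨κ, hκ0, hκ, hmax⟩ := exists_exit hK hc hw0
    have hκ1 : 0 < κ := by
      obtain ⟨ε, hε, h⟩ := dirs_pos hw
      refine lt_of_le_of_ne hκ0 fun h0 => hmax ε hε ?_
      rwa [← h0, zero_add]
    have hx : c + κ • (a - b) ∈ Ef A c := ⟨hκ, by simpa using dirs_smul hw κ⟩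
    obtain ⟨y, hy, hxy⟩ := ht _ hx fun h => by
      obtain ⟨ε, hε, h'⟩ := dirs_pos h.2
      refine hmax (ε * κ) (by positivity) ?_
      convert h' using 1
      module
    obtain ⟨φ, h0, hφ⟩ := sep hA hi hxy
    have h1 := hφ _ (ha _ hx) _ (hb _ hy)
    have h2 := hφ c hc y hy.1
    simp only [map_sub, map_add, map_smul, smul_eq_mul] at h1 h2
    have h3 : φ a - φ b = 0 := by nlinarith
    have h4 : ∀ p ∈ A, φ p ≤ φ c := fun p hp => by
      have := hφ p hp y hy.1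
      simp only [map_sub, map_add, map_smul, smul_eq_mul, h3] at this
      linarith
    have h5 := map_dirs_eq_zero h4 hy.2
    obtain ⟨z, hz⟩ := hi
    refine h0 (eq_zero_of_max hz fun p hp => ?_)
    have := hφ p hp z (interior_subset hz)
    simp only [map_sub, map_add, map_smul, smul_eq_mul, h3] at this h5
    linarith
  obtain ⟨-, -, a0, ha0, -⟩ := hdec c hc
  let W' : Submodule ℝ V :=
    { carrier := {v | ∃ l : ℝ, 0 < l ∧ ∃ a ∈ D, ∃ b ∈ D, v = l • (a - b)}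
      add_mem' := by
        rintro _ _ ⟨l, hl, a, ha, b, hb, rfl⟩ ⟨l', hl', a', ha', b', hb', rfl⟩
        have h1 : l / (l + l') + l' / (l + l') = 1 := by field_simp
        refine ⟨l + l', by positivity, _, hDc ha ha' (by positivity) (by positivity) h1,
          _, hDc hb hb' (by positivity) (by positivity) h1, ?_⟩
        have h2 : (l + l') * (l / (l + l')) = l := by field_simp
        have h3 : (l + l') * (l' / (l + l')) = l' := by field_simp
        simp only [smul_sub, smul_add, smul_smul, h2, h3]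
        abel
      zero_mem' := ⟨1, one_pos, a0, ha0, a0, ha0, by simp⟩
      smul_mem' := by
        rintro r _ ⟨l, hl, a, ha, b, hb, rfl⟩
        rcases lt_trichotomy r 0 with h | h | h
        · exact ⟨-r * l, by nlinarith, b, hb, a, ha, by module⟩
        · exact ⟨1, one_pos, a0, ha0, a0, ha0, by simp [h]⟩
        · exact ⟨r * l, by positivity, a, ha, b, hb, by module⟩ }
  have hW' : ∀ a ∈ D, ∀ b ∈ D, a - b ∈ W' := fun a ha b hb => ⟨1, one_pos, a, ha, b, hb, by simp⟩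
  have hdisj : Disjoint (Wd hA hc) W' := by
    rw [Submodule.disjoint_def]
    rintro _ h1 ⟨l, hl, a, ha, b, hb, rfl⟩
    have := dirs_smul h1 l⁻¹
    rw [smul_smul, inv_mul_cancel₀ hl.ne', one_smul] at this
    simp [hinj a ha b hb this]
  have hEE : ∀ e ∈ Ef A c, ∀ e' ∈ Ef A c, e - e' ∈ Wd hA hc := fun e he e' he' => by
    have := dirs_sub hA he.2 he'.2
    rwa [sub_sub_sub_cancel_right] at this
  refine ⟨W', ⟨hdisj, ?_⟩, ?_⟩
  · rw [codisjoint_iff, eq_top_iff]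
    intro v _
    obtain ⟨z, hz⟩ := hi
    obtain ⟨ε, hε, h⟩ := dirs_pos (dirs_of_interior hz v)
    obtain ⟨e, he, a, ha, h1⟩ := hdec _ h
    obtain ⟨e', he', a', ha', h2⟩ := hdec _ (interior_subset hz)
    have : v = ε⁻¹ • ((e - e') + (a - a')) := by
      have : (e - e') + (a - a') = ε • v := by
        rw [sub_add_sub_comm, ← h1, ← h2]; abel
      rw [this, smul_smul, inv_mul_cancel₀ hε.ne', one_smul]
    rw [this]
    exact Submodule.smul_mem _ _ (Submodule.add_mem_sup (hEE e he e' he') (hW' a ha a' ha'))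
  · intro x₁ h1 x₂ h2 x h3 h4
    obtain ⟨e, he, a, ha, rfl⟩ := hdec _ h1
    obtain ⟨e', he', a', ha', rfl⟩ := hdec _ h2
    have : x - (e + a') = 0 := by
      refine (Submodule.disjoint_def.1 hdisj) _ ?_ ?_
      · convert (Wd hA hc).add_mem h4 (hEE e' he' e he) using 1
        abel
      · convert W'.add_mem h3 (hW' a ha a' ha') using 1
        abel
    rw [sub_eq_zero.1 this]
    exact ha' e he

end Pool.Agent.Lib.MP_61fe1c_an
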