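import Pool.Agent.Lib.MP_61fe1c_an.Aff

/-!
Two elementary lemmas on lower envelopes of affine functions, and local finiteness.
-/

set_option linter.unusedSectionVars false

open Set Filter Topology
open scoped Pointwise RealInnerProductSpace

namespace Pool.Agent.Lib.MP_61fe1c_an

lemma env0 {ι : Type} (N : Finset ι) (X : ι → Prop) (A B C : ι → ℝ) (hC : ∀ m ∈ N, 0 < C m)
    (hA : ∀ m ∈ N, 0 ≤ A m) (hB : ∀ m ∈ N, 0 ≤ B m) {n₁ n₂ : ι} (h₁ : n₁ ∈ N) (h₂ : n₂ ∈ N)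
    (hX₁ : X n₁) (hX₂ : ¬ X n₂) (hA₁ : A n₁ = 0) (hB₂ : B n₂ = 0) :
    ∃ l μ : ℝ, 0 ≤ l ∧ l ≤ 1 ∧ 0 ≤ μ ∧ (∀ m ∈ N, μ * C m ≤ (1 - l) * A m + l * B m) ∧
      (∃ m ∈ N, X m ∧ μ * C m = (1 - l) * A m + l * B m) ∧
      ∃ m ∈ N, ¬ X m ∧ μ * C m = (1 - l) * A m + l * B m := by
  let r : ι → ℝ → ℝ := fun m l => ((1 - l) * A m + l * B m) / C m
  have hr : ∀ m, Continuous (r m) := fun m => by simp only [r]; fun_prop
  have hcl : ∀ Y : ι → Prop, IsClosed {l | ∃ m ∈ N, Y m ∧ ∀ k ∈ N, r m l ≤ r k l} := by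
    intro Y
    have : {l | ∃ m ∈ N, Y m ∧ ∀ k ∈ N, r m l ≤ r k l} =
        ⋃ m ∈ {m ∈ (N : Set ι) | Y m}, ⋂ k ∈ (N : Set ι), {l | r m l ≤ r k l} := by
      ext l; simp [and_assoc]
    rw [this]
    exact (N.finite_toSet.subset (sep_subset _ _)).isClosed_biUnion fun m _ =>
      isClosed_biInter fun k _ => isClosed_le (hr m) (hr k)
  obtain ⟨l, hl, ⟨m, hm, hXm, h3⟩, ⟨k, hk, hXk, h4⟩⟩ := isPreconnected_closed_iff.1
    (isPreconnected_Icc (a := (0 : ℝ)) (b := 1)) _ _ (hcl X) (hcl fun m => ¬ X m) (fun l _ => by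
      obtain ⟨m, hm, h⟩ := N.exists_min_image (fun m => r m l) ⟨n₁, h₁⟩
      by_cases hx : X m
      · exact Or.inl ⟨m, hm, hx, h⟩
      · exact Or.inr ⟨m, hm, hx, h⟩)
    ⟨0, ⟨le_rfl, zero_le_one⟩, n₁, h₁, hX₁, fun k hk => by
      simpa [r, hA₁] using div_nonneg (hA k hk) (hC k hk).le⟩
    ⟨1, ⟨zero_le_one, le_rfl⟩, n₂, h₂, hX₂, fun k hk => by
      simpa [r, hB₂] using div_nonneg (hB k hk) (hC k hk).le⟩
  have h5 : 0 ≤ 1 - l := by linarith [hl.2]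
  refine ⟨l, r m l, hl.1, hl.2, div_nonneg (add_nonneg (mul_nonneg h5 (hA m hm))
    (mul_nonneg hl.1 (hB m hm))) (hC m hm).le, fun j hj => (le_div_iff₀ (hC j hj)).1 (h3 j hj),
    ⟨m, hm, hXm, div_mul_cancel₀ _ (hC m hm).ne'⟩, k, hk, hXk, ?_⟩
  rw [le_antisymm (h3 k hk) (h4 m hm)]
  exact div_mul_cancel₀ _ (hC k hk).ne'

lemma env {ι E : Type} [AddCommGroup E] [Module ℝ E] (M : Submodule ℝ E) (X : ι → Prop)
    (f : ι → E →ₗ[ℝ] ℝ) (v : ι → E) (n : ℕ) : ∀ N : Finset ι, N.card = n → (∀ m ∈ N, v m ∈ M) →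
      (∀ m ∈ N, f m (v m) = 0) → (∀ m ∈ N, ∀ k ∈ N, k ≠ m → 0 < f k (v m)) →
      (∃ m ∈ N, X m) → (∃ m ∈ N, ¬ X m) →
      ∃ d ∈ M, ∃ n₁ ∈ N, ∃ n₂ ∈ N, X n₁ ∧ ¬ X n₂ ∧ f n₁ d = 0 ∧ f n₂ d = 0 ∧
        ∀ k ∈ N, k ≠ n₁ → k ≠ n₂ → 0 < f k d := by
  classical
  induction n using Nat.strong_induction_on with
  | _ n ih =>
  rintro N hN hM h0 hp ⟨n₁, h₁, hX₁⟩ ⟨n₂, h₂, hX₂⟩
  by_cases h3 : ∀ k ∈ N, k = n₁ ∨ k = n₂
  · exact ⟨0, M.zero_mem, n₁, h₁, n₂, h₂, hX₁, hX₂, map_zero _, map_zero _,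
      fun k hk h4 h5 => ((h3 k hk).elim h4 h5).elim⟩
  push Not at h3
  obtain ⟨n₃, h₃, h31, h32⟩ := h3
  have hge : ∀ m ∈ N, ∀ k ∈ N, 0 ≤ f k (v m) := fun m hm k hk => by
    by_cases h : k = m
    · rw [h, h0 m hm]
    · exact (hp m hm k hk h).le
  obtain ⟨l, μ, hl0, hl1, hμ, h4, h5, h6⟩ := env0 (N.erase n₃) X (fun m => f m (v n₁))
    (fun m => f m (v n₂)) (fun m => f m (v n₃))
    (fun m hm => hp _ h₃ m (Finset.mem_of_mem_erase hm) (Finset.ne_of_mem_erase hm))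
    (fun m hm => hge _ h₁ m (Finset.mem_of_mem_erase hm))
    (fun m hm => hge _ h₂ m (Finset.mem_of_mem_erase hm))
    (Finset.mem_erase.2 ⟨h31.symm, h₁⟩) (Finset.mem_erase.2 ⟨h32.symm, h₂⟩) hX₁ hX₂
    (h0 _ h₁) (h0 _ h₂)
  set d := (1 - l) • v n₁ + l • v n₂ - μ • v n₃ with hd
  have hf : ∀ m, f m d = (1 - l) * f m (v n₁) + l * f m (v n₂) - μ * f m (v n₃) := fun m => by
    simp [hd]
  have hdM : d ∈ M := M.sub_mem (M.add_mem (M.smul_mem _ (hM _ h₁)) (M.smul_mem _ (hM _ h₂)))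
    (M.smul_mem _ (hM _ h₃))
  have h7 : 0 < f n₃ d := by
    have e1 := hp _ h₁ _ h₃ h31
    have e2 := hp _ h₂ _ h₃ h32
    rw [hf, h0 _ h₃]
    rcases hl0.eq_or_lt with h | h
    · simpa [← h] using e1
    · nlinarith [mul_pos h e2, mul_nonneg (sub_nonneg.2 hl1) e1.le]
  have h8 : ∀ m ∈ N, 0 ≤ f m d := fun m hm => by
    by_cases h : m = n₃
    · rw [h]; exact h7.le
    · rw [hf]; exact sub_nonneg.2 (h4 m (Finset.mem_erase.2 ⟨h, hm⟩))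
  have hsub : N.filter (fun m => f m d = 0) ⊆ N := Finset.filter_subset _ _
  have hmem : ∀ Y : ι → Prop, (∃ m ∈ N.erase n₃, Y m ∧
      μ * f m (v n₃) = (1 - l) * f m (v n₁) + l * f m (v n₂)) →
      ∃ m ∈ N.filter (fun m => f m d = 0), Y m := by
    rintro Y ⟨m, hm, h, h'⟩
    exact ⟨m, Finset.mem_filter.2 ⟨Finset.mem_of_mem_erase hm, by rw [hf, ← h', sub_self]⟩, h⟩
  obtain ⟨d', hd', m₁, hm₁, m₂, hm₂, e1, e2, e3, e4, e5⟩ := ih _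
    (hN ▸ Finset.card_lt_card ((Finset.ssubset_iff_of_subset hsub).2
      ⟨n₃, h₃, fun h => h7.ne' (Finset.mem_filter.1 h).2⟩)) _ rfl
    (fun m hm => hM m (hsub hm)) (fun m hm => h0 m (hsub hm))
    (fun m hm k hk => hp m (hsub hm) k (hsub hk)) (hmem _ h5) (hmem _ h6)
  have hev : ∀ᶠ ε in 𝓝 (0 : ℝ), ∀ k ∈ N, 0 < f k d → 0 < f k d + ε * f k d' := by
    refine (eventually_all_finset N).2 fun k _ => ?_
    by_cases h : 0 < f k d
    · have hc : ContinuousAt (fun t : ℝ => f k d + t * f k d') 0 := by fun_prop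
      filter_upwards [hc.eventually (lt_mem_nhds (a := 0) (by simpa using h))] with t ht _ using ht
    · exact Eventually.of_forall fun _ h' => (h h').elim
  obtain ⟨ε, hε, hε'⟩ := ((eventually_mem_nhdsWithin (s := Ioi (0 : ℝ)) (a := 0)).and
    (Eventually.filter_mono nhdsWithin_le_nhds hev)).exists
  have hε0 : 0 < ε := hε
  refine ⟨d + ε • d', M.add_mem hdM (M.smul_mem _ hd'), m₁, hsub hm₁, m₂, hsub hm₂, e1, e2,
    by simp [e3, (Finset.mem_filter.1 hm₁).2], by simp [e4, (Finset.mem_filter.1 hm₂).2],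
    fun k hk hk1 hk2 => ?_⟩
  rw [map_add, map_smul, smul_eq_mul]
  rcases (h8 k hk).eq_or_lt with h | h
  · rw [← h, zero_add]
    exact mul_pos hε0 (e5 k (Finset.mem_filter.2 ⟨hk, h.symm⟩) hk1 hk2)
  · exact hε' k hk h

variable {V : Type} [NormedAddCommGroup V] [InnerProductSpace ℝ V] [FiniteDimensional ℝ V]
variable {L : AddSubgroup V} {ρ : ℝ}

/-- the power of the point `p` with respect to the lattice point `l` -/
def uu (l p : V) : ℝ := ⟪l, l⟫ - 2 * ⟪l, p⟫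

lemma uu_eq (l p : V) : uu l p = ‖l - p‖ ^ 2 - ‖p‖ ^ 2 := by
  rw [uu, norm_sub_sq_real, real_inner_self_eq_norm_sq]; ring

lemma Lat.fin_uu (h : Lat L ρ) (p : V) (r : ℝ) : {l ∈ (L : Set V) | uu l p ≤ r}.Finite := by
  refine (h.fin (|r| + 2 * ‖p‖ + 1)).subset fun l hl => ⟨hl.1, ?_⟩
  have h1 := hl.2
  have h2 := real_inner_le_norm l p
  rw [uu, real_inner_self_eq_norm_sq] at h1
  by_contra h3
  have h4 := le_abs_self r
  have h5 := abs_nonneg r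
  nlinarith [norm_nonneg l, norm_nonneg p]

lemma Lat.exists_min (h : Lat L ρ) {X : Set V} (hX : X ⊆ L) (hne : X.Nonempty) (p : V) :
    ∃ x ∈ X, ∀ y ∈ X, uu x p ≤ uu y p := by
  obtain ⟨a, ha⟩ := hne
  obtain ⟨x, hx, hmin⟩ := Set.exists_min_image {y ∈ X | uu y p ≤ uu a p} (fun y => uu y p)
    ((h.fin_uu p (uu a p)).subset fun y hy => ⟨hX hy.1, hy.2⟩) ⟨a, ha, le_rfl⟩
  refine ⟨x, hx.1, fun y hy => ?_⟩
  by_cases h1 : uu y p ≤ uu a p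
  · exact hmin y ⟨hy, h1⟩
  · exact hx.2.trans (not_le.1 h1).le

lemma Lat.perturb (h : Lat L ρ) (q d x : V) :
    ∀ᶠ ε in 𝓝 (0 : ℝ), ∀ l ∈ L, uu x q < uu l q → uu x (q + ε • d) < uu l (q + ε • d) := by
  have hfin := h.fin (‖x‖ + 2 * ‖q‖ + 3)
  have h1 : ∀ᶠ ε in 𝓝 (0 : ℝ), ∀ l ∈ {l ∈ (L : Set V) | ‖l‖ ≤ ‖x‖ + 2 * ‖q‖ + 3},
      uu x q < uu l q → uu x (q + ε • d) < uu l (q + ε • d) := by
    refine (eventually_all_finite hfin).2 fun l _ => ?_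
    by_cases h2 : uu x q < uu l q
    · have c1 : ContinuousAt (fun t : ℝ => uu l (q + t • d) - uu x (q + t • d)) 0 := by
        simp only [uu]; fun_prop
      filter_upwards [c1.eventually (lt_mem_nhds (a := 0) (by simpa using h2))] with t ht _
      linarith
    · exact Eventually.of_forall fun _ h' => (h2 h').elim
  have h2 : ∀ᶠ ε in 𝓝 (0 : ℝ), ‖ε • d‖ < 1 := by
    have c1 : ContinuousAt (fun t : ℝ => ‖t • d‖) 0 := by fun_prop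
    exact c1.eventually (gt_mem_nhds (by simp))
  filter_upwards [h1, h2] with ε h3 h4 l hl h5
  by_cases h6 : ‖l‖ ≤ ‖x‖ + 2 * ‖q‖ + 3
  · exact h3 l ⟨hl, h6⟩ h5
  · rw [uu_eq, uu_eq, sub_lt_sub_iff_right, sq_lt_sq₀ (norm_nonneg _) (norm_nonneg _)]
    have e1 := norm_sub_le x (q + ε • d)
    have e2 := norm_add_le q (ε • d)
    have e3 := norm_sub_norm_le l (q + ε • d)
    linarith

end Pool.Agent.Lib.MP_61fe1c_an
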