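import Pool.Agent.Lib.MP_61fe1c_an.VA

/-!
A splitting criterion for lattices: local part.
-/

set_option linter.unusedSectionVars false

open Set Filter Topology
open scoped Pointwise RealInnerProductSpace

namespace Pool.Agent.Lib.MP_61fe1c_an

variable {V : Type} [NormedAddCommGroup V] [InnerProductSpace ℝ V] [FiniteDimensional ℝ V]
variable {L P K G J : AddSubgroup V} {ρ : ℝ} {b c x : V}

/-- `b` is shortest outside `P` and the triangles on the edges of the class `b + P` lie in `K` -/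
structure Dat (L P K : AddSubgroup V) (b : V) : Prop where
  bL : b ∈ L
  bP : b ∉ P
  min : ∀ l ∈ L, l ∉ P → ⟪b, b⟫ ≤ ⟪l, l⟫
  H : ∀ a ∈ L, a - b ∈ P → (∀ l ∈ L, l ≠ 0 → l ≠ a → ⟪l, a⟫ < ⟪l, l⟫) → ∀ α : V,
    (∀ l ∈ L, 0 ≤ uu l α) → uu a α = 0 → (∀ l ∈ L, l ≠ 0 → uu l α = 0 → 0 < ⟪l, a⟫) →
    ∀ l ∈ L, uu l α = 0 → l ∈ K

lemma uu_add (l n q : V) : uu (l + n) q = uu l (q - n) + uu n q := by
  simp only [uu, inner_add_left, inner_add_right, inner_sub_right, real_inner_comm l n]; ring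

lemma uu_dir (l q d : V) (ε : ℝ) : uu l (q + ε • d) = uu l q - 2 * ε * ⟪l, d⟫ := by
  simp only [uu, inner_add_right, inner_smul_right]; ring

lemma Dat.b0 (D : Dat L P K b) : b ≠ 0 := fun h => D.bP (h ▸ P.zero_mem)

lemma Dat.bb (D : Dat L P K b) : 0 < ⟪b, b⟫ := real_inner_self_pos.2 D.b0

lemma Dat.rel (D : Dat L P K b) {l : V} (hl : l ∈ L) (h0 : l ≠ 0) (hb : l ≠ b) :
    ⟪l, b⟫ < ⟪l, l⟫ := by
  have e : ⟪b - l, b - l⟫ = ⟪b, b⟫ - 2 * ⟪l, b⟫ + ⟪l, l⟫ := by
    rw [real_inner_sub_sub_self, real_inner_comm l b]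
  have h1 : 0 < ⟪l, l⟫ := real_inner_self_pos.2 h0
  have h2 : 0 < ⟪b - l, b - l⟫ := real_inner_self_pos.2 (sub_ne_zero.2 hb.symm)
  by_cases h : l ∈ P
  · have := D.min _ (L.sub_mem D.bL hl) fun h' => D.bP (by simpa using P.add_mem h' h)
    linarith
  · have := D.min _ hl h
    linarith

lemma Dat.third (D : Dat L P K b) {l : V} (hl : l ∈ L) (h0 : l ∉ P) (hb : l - b ∉ P) :
    ⟪b, b⟫ ≤ 2 * (⟪l, l⟫ - ⟪l, b⟫) := by
  have h1 := D.min _ hl h0
  have h2 := D.min _ (L.sub_mem hl D.bL) hb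
  rw [real_inner_sub_sub_self] at h2
  linarith

lemma Dat.tri (D : Dat L P K b) (hG : G ≤ L) (hx : x ∈ L) (hxG : x ∉ G) {n₁ n₂ q : V}
    (h₁ : n₁ ∈ G) (h₂ : n₂ ∈ G) (hP₁ : n₁ ∈ P) (hP₂ : n₂ - b ∈ P) (e₁ : uu n₁ q = uu x q)
    (e₂ : uu n₂ q = uu x q) (h : ∀ l ∈ L, l ≠ x → l ≠ n₁ → l ≠ n₂ → uu x q < uu l q) :
    x - n₁ ∈ K := by
  set a := n₂ - n₁ with ha
  set y := x - n₁ with hy
  have haG : a ∈ G := G.sub_mem h₂ h₁
  have hyL : y ∈ L := L.sub_mem hx (hG h₁)
  have hyG : y ∉ G := fun h' => hxG (by simpa [hy] using G.add_mem h' h₁)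
  have haP : a - b ∈ P := by
    have := P.sub_mem hP₂ hP₁
    convert this using 1
    rw [ha]; abel
  have ha0 : a ≠ 0 := fun h' => D.bP (by simpa [h'] using haP)
  have hy0 : y ≠ 0 := fun h' => hyG (h' ▸ G.zero_mem)
  have ea : uu a (q - n₁) = 0 := by
    have := uu_add a n₁ q
    rw [ha, sub_add_cancel] at this
    linarith
  have ey : uu y (q - n₁) = 0 := by
    have := uu_add y n₁ q
    rw [hy, sub_add_cancel] at this
    linarith
  have hs : ∀ l ∈ L, l ≠ 0 → l ≠ a → l ≠ y → 0 < uu l (q - n₁) := by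
    intro l hl h0 h1 h2
    have := h (l + n₁) (L.add_mem hl (hG h₁)) (fun h' => h2 (eq_sub_of_add_eq h'))
      (fun h' => h0 (by simpa using h')) (fun h' => h1 (eq_sub_of_add_eq h'))
    rw [uu_add] at this
    linarith
  have hge : ∀ l ∈ L, 0 ≤ uu l (q - n₁) := by
    intro l hl
    by_cases h0 : l = 0
    · simp [h0, uu]
    by_cases h1 : l = a
    · rw [h1, ea]
    by_cases h2 : l = y
    · rw [h2, ey]
    exact (hs l hl h0 h1 h2).le
  refine D.H a (hG haG) haP (fun l hl h0 h1 => ?_) _ hge ea (fun l hl h0 h1 => ?_) y hyL ey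
  · have e : uu l (q - n₁) + uu (a - l) (q - n₁) = 2 * (⟪l, l⟫ - ⟪l, a⟫) + uu a (q - n₁) := by
      simp only [uu, inner_sub_left (x := a), inner_sub_right (y := a), real_inner_comm l a]; ring
    have h2 := hge l hl
    have h3 := hge _ (L.sub_mem (hG haG) hl)
    by_cases h4 : l = y
    · have h5 := hs _ (L.sub_mem (hG haG) hl) (sub_ne_zero.2 h1.symm)
        (fun h' => h0 (by simpa using h')) fun h' => by
          have h6 : a = y + y := by rw [← h4] at h' ⊢; exact eq_add_of_sub_eq h'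
          rw [h6] at ea
          have h7 : 0 < ⟪y, y⟫ := real_inner_self_pos.2 hy0
          simp only [uu, inner_add_left, inner_add_right] at ea ey
          linarith
      linarith
    · have := hs l hl h0 h1 h4
      linarith
  · by_cases h2 : l = a
    · rw [h2]; exact real_inner_self_pos.2 ha0
    by_cases h3 : l = y
    · have h4 := hs _ (L.add_mem hyL (hG haG))
        (fun h' => hyG (by rw [eq_neg_of_add_eq_zero_left h']; exact G.neg_mem haG))
        (fun h' => hy0 (by simpa using h')) (fun h' => ha0 (by simpa using h'))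
      rw [h3]
      simp only [uu, inner_add_left, inner_add_right, real_inner_comm y a] at ea ey h4
      linarith
    · exact absurd h1 (hs l hl h0 h2 h3).ne'

lemma Dat.tri' (D : Dat L P K b) (hL : Lat L ρ) (hG : G ≤ L) (hx : x ∈ L) (hxG : x ∉ G)
    {n₁ n₂ q d : V} (h₁ : n₁ ∈ G) (h₂ : n₂ ∈ G) (hP₁ : n₁ ∈ P) (hP₂ : n₂ - b ∈ P)
    (e₁ : uu n₁ q = uu x q) (e₂ : uu n₂ q = uu x q) (d₁ : ⟪x - n₁, d⟫ = 0) (d₂ : ⟪x - n₂, d⟫ = 0)
    (h : ∀ l ∈ L, l ≠ x → l ≠ n₁ → l ≠ n₂ →
      uu x q < uu l q ∨ (uu x q = uu l q ∧ 0 < ⟪x - l, d⟫)) : x - n₁ ∈ K := by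
  obtain ⟨ε, hε, hε'⟩ := ((eventually_mem_nhdsWithin (s := Ioi (0 : ℝ)) (a := 0)).and
    (Eventually.filter_mono nhdsWithin_le_nhds (hL.perturb q d x))).exists
  have hε0 : 0 < ε := hε
  rw [inner_sub_left, sub_eq_zero] at d₁ d₂
  refine D.tri hG hx hxG h₁ h₂ hP₁ hP₂ (q := q + ε • d) (by rw [uu_dir, uu_dir, e₁, d₁])
    (by rw [uu_dir, uu_dir, e₂, d₂]) fun l hl h3 h4 h5 => ?_
  rcases h l hl h3 h4 h5 with h6 | ⟨h6, h7⟩
  · exact hε' l hl h6
  · rw [uu_dir, uu_dir, h6]
    rw [inner_sub_left] at h7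
    nlinarith

/-- power of the centre of the rectangle `0, b, c, b + c` -/
def ww (b c l : V) : ℝ := ⟪l, l⟫ - ⟪l, b⟫ - ⟪l, c⟫

/-- the rectangle `0, b, c, b + c` is a Delaunay cell -/
structure Rect (L : AddSubgroup V) (b c : V) : Prop where
  cL : c ∈ L
  cb : ⟪c, b⟫ = 0
  ge : ∀ l ∈ L, 0 ≤ ww b c l
  eq : ∀ l ∈ L, ww b c l = 0 → l = 0 ∨ l = b ∨ l = c ∨ l = b + c

/-- `x` is a nearest point outside `J` -/
structure Frame (L G J : AddSubgroup V) (b c x : V) : Prop where
  rect : Rect L b c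
  GJ : G ≤ J
  JL : J ≤ L
  bG : b ∈ G
  cJ : c ∈ J
  Gc : ∀ j ∈ G, ⟪j, c⟫ = 0
  dec : ∀ l ∈ J, ∃ j ∈ G, ⟪l - j, j⟫ = 0 ∧ ⟪l - j, b⟫ = 0
  xL : x ∈ L
  xJ : x ∉ J
  min : ∀ l ∈ L, l ∉ J → ww b c x ≤ ww b c l
  hc : c = 0 ∨ ⟪x, c⟫ < ⟪c, c⟫

lemma ww_neg (h : ⟪c, b⟫ = 0) (l : V) : ww b (-c) l = ww b c (l + c) := by
  simp only [ww, inner_add_left, inner_add_right, inner_neg_right, h, real_inner_comm l c]; ring

lemma Frame.neg (F : Frame L G J b c x) (h : c = 0 ∨ 0 < ⟪x, c⟫) :
    Frame L G J b (-c) (x - c) where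
  rect := ⟨L.neg_mem F.rect.cL, by simp [F.rect.cb],
    fun l hl => by rw [ww_neg F.rect.cb]; exact F.rect.ge _ (L.add_mem hl F.rect.cL),
    fun l hl h' => by
      rw [ww_neg F.rect.cb] at h'
      rcases F.rect.eq _ (L.add_mem hl F.rect.cL) h' with h1 | h1 | h1 | h1
      · exact Or.inr (Or.inr (Or.inl (eq_neg_of_add_eq_zero_left h1)))
      · exact Or.inr (Or.inr (Or.inr (by rw [← h1]; abel)))
      · exact Or.inl (by simpa using h1)
      · exact Or.inr (Or.inl (by simpa using h1))⟩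
  GJ := F.GJ
  JL := F.JL
  bG := F.bG
  cJ := J.neg_mem F.cJ
  Gc := fun j hj => by simp [F.Gc j hj]
  dec := F.dec
  xL := L.sub_mem F.xL F.rect.cL
  xJ := fun h' => F.xJ (by simpa using J.add_mem h' F.cJ)
  min := fun l hl hJ => by
    rw [ww_neg F.rect.cb, ww_neg F.rect.cb, sub_add_cancel]
    exact F.min _ (L.add_mem hl F.rect.cL) fun h' => hJ (by simpa using J.sub_mem h' F.cJ)
  hc := h.imp (fun h => by simp [h]) fun h => by
    simp only [inner_neg_left, inner_neg_right, inner_sub_left]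
    linarith

lemma Frame.pos (F : Frame L G J b c x) : 0 < ww b c x := by
  refine lt_of_le_of_ne (F.rect.ge _ F.xL) fun h => F.xJ ?_
  rcases F.rect.eq _ F.xL h.symm with h1 | h1 | h1 | h1 <;> rw [h1]
  exacts [J.zero_mem, F.GJ F.bG, F.cJ, J.add_mem (F.GJ F.bG) F.cJ]

lemma Frame.sub (F : Frame L G J b c x) {l : V} (hl : l ∈ J) : ww b c x ≤ ww b c (x - l) :=
  F.min _ (L.sub_mem F.xL (F.JL hl)) fun h => F.xJ (by simpa using J.add_mem h hl)

lemma Frame.sub' (F : Frame L G J b c x) {l : V} (hl : l ∈ J) : ww b c x ≤ ww b c (x + b - l) := by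
  have := F.sub (J.sub_mem hl (F.GJ F.bG))
  convert this using 2
  abel

lemma Frame.isRect (F : Frame L G J b c x) (hx : ⟪x, b⟫ = 0) : Rect L b x := by
  have e : ∀ l, 2 * ww b x l = ww b c l + ww b c (x + b - l) - ww b c x := fun l => by
    simp only [ww, inner_add_left, inner_add_right, inner_sub_left, inner_sub_right,
      real_inner_comm l x, real_inner_comm l b, real_inner_comm x b, real_inner_comm c b, hx,
      F.rect.cb]
    ring
  have key : ∀ l ∈ J, 0 ≤ ww b c l + ww b c (x + b - l) - ww b c x ∧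
      (ww b c l + ww b c (x + b - l) - ww b c x = 0 → l = 0 ∨ l = b) := by
    intro l hl
    have h1 := F.rect.ge _ (F.JL hl)
    have h2 := F.sub' hl
    refine ⟨by linarith, fun h => ?_⟩
    have h3 : ww b c (x + b - l) = ww b c x := by linarith
    have hcb := F.rect.cb
    rcases F.rect.eq _ (F.JL hl) (by linarith) with h4 | h4 | h4 | h4
    · exact Or.inl h4
    · exact Or.inr h4
    · refine F.hc.imp (fun h5 => h4.trans h5) fun h5 => ?_
      rw [h4] at h3
      simp only [ww, inner_add_left, inner_add_right, inner_sub_left, inner_sub_right,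
        real_inner_comm x c, real_inner_comm x b, real_inner_comm c b] at h3
      linarith
    · refine Or.inr (F.hc.elim (fun h5 => by simpa [h5] using h4) fun h5 => ?_)
      rw [h4] at h3
      simp only [ww, inner_add_left, inner_add_right, inner_sub_left, inner_sub_right,
        real_inner_comm x c, real_inner_comm x b, real_inner_comm c b] at h3
      linarith
  have all : ∀ l ∈ L, 0 ≤ ww b x l ∧ (ww b x l = 0 → l = 0 ∨ l = b ∨ l = x ∨ l = b + x) := by
    intro l hl
    have h0 := e l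
    by_cases h1 : l ∈ J
    · exact ⟨by linarith [(key l h1).1], fun h =>
        ((key l h1).2 (by linarith)).imp_right Or.inl⟩
    by_cases h2 : x + b - l ∈ J
    · have h3 := key _ h2
      rw [sub_sub_cancel] at h3
      refine ⟨by linarith [h3.1], fun h => Or.inr (Or.inr ?_)⟩
      rcases h3.2 (by linarith) with h4 | h4
      · exact Or.inr (by rw [← sub_eq_zero.1 h4, add_comm])
      · exact Or.inl (add_right_cancel ((sub_eq_iff_eq_add'.1 h4).symm))
    · have h3 := F.min _ hl h1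
      have h4 := F.min _ (L.sub_mem (L.add_mem F.xL (F.JL (F.GJ F.bG))) hl) h2
      have h5 := F.pos
      exact ⟨by linarith, fun h => by linarith⟩
  exact ⟨F.xL, hx, fun l hl => (all l hl).1, fun l hl => (all l hl).2⟩

/-- the test point -/
noncomputable def qq (b c x : V) (s μ : ℝ) : V := (2 * (1 + μ))⁻¹ • (x + s • b + μ • (b + c))

lemma uu_qq {s μ : ℝ} (hμ : 0 < μ) (l : V) :
    (1 + μ) * uu l (qq b c x s μ) = ⟪l, l⟫ - ⟪l, x⟫ - s * ⟪l, b⟫ + μ * ww b c l := by
  simp only [uu, qq, ww, inner_add_right, inner_smul_right]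
  field_simp
  ring

lemma Frame.strict (F : Frame L G J b c x) (hb : b ≠ 0) {s μ : ℝ} (h0 : 0 < s) (h1 : s < 1)
    (hμ : 0 < μ) (hG : ∀ j ∈ G, uu x (qq b c x s μ) ≤ uu j (qq b c x s μ)) {l : V} (hl : l ∈ L)
    (hlG : l ∉ G) (hlx : l ≠ x) : uu x (qq b c x s μ) < uu l (qq b c x s μ) := by
  have hbb : 0 < ⟪b, b⟫ := real_inner_self_pos.2 hb
  have hcb := F.rect.cb
  by_cases hJ : l ∈ J
  · obtain ⟨j, hj, h2, h3⟩ := F.dec l hJ
    set e := l - j with he
    have heJ : e ∈ J := J.sub_mem hJ (F.GJ hj)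
    have e1 : uu l (qq b c x s μ) = uu e (qq b c x s μ) + uu j (qq b c x s μ) := by
      rw [show l = e + j by simp [he]]
      simp only [uu, inner_add_left, inner_add_right, real_inner_comm e j, h2]; ring
    have e2 := uu_qq (b := b) (c := c) (x := x) (s := s) hμ e
    have e3 : 2 * (⟪e, e⟫ - ⟪e, x⟫) = ww b c e + ww b c (x - e) - ww b c x := by
      simp only [ww, inner_sub_left (x := x), inner_sub_right (y := x), real_inner_comm e x]; ring
    have h4 := F.sub heJ
    have h5 := F.rect.ge _ (F.JL heJ)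
    have h6 : 0 < ⟪e, e⟫ - ⟪e, x⟫ := by
      rcases h5.eq_or_lt with h7 | h7
      · have he0 : e ≠ 0 := fun h' => hlG (by rw [sub_eq_zero.1 h']; exact hj)
        rcases F.rect.eq _ (F.JL heJ) h7.symm with h8 | h8 | h8 | h8
        · exact (he0 h8).elim
        · rw [h8] at h3; linarith
        · rw [h8] at he0 ⊢
          rw [real_inner_comm x c, sub_pos]
          exact F.hc.resolve_left he0
        · rw [h8, inner_add_left] at h3; linarith
      · linarith
    have h7 : 0 < (1 + μ) * uu e (qq b c x s μ) := by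
      rw [e2, h3]
      nlinarith [mul_nonneg hμ.le h5]
    have h8 := (mul_pos_iff_of_pos_left (by linarith)).1 h7
    linarith [hG j hj]
  · have e1 := uu_qq (b := b) (c := c) (x := x) (s := s) hμ l
    have e2 := uu_qq (b := b) (c := c) (x := x) (s := s) hμ x
    have e3 : ww b c (x + b - l) = ww b c (x - l) + 2 * ⟪x - l, b⟫ := by
      simp only [ww, inner_add_left, inner_add_right, inner_sub_left, inner_sub_right,
        real_inner_comm l b, real_inner_comm x b, real_inner_comm c b, hcb]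
      ring
    have e4 : 2 * (⟪l, l⟫ - ⟪l, x⟫) = ww b c l + ww b c (x - l) - ww b c x := by
      simp only [ww, inner_sub_left (x := x), inner_sub_right (y := x), real_inner_comm l x]; ring
    have h2 := F.min l hl hJ
    have hxl := L.sub_mem F.xL hl
    have h3 := F.rect.ge _ hxl
    have h4 := F.rect.ge _ (L.sub_mem (L.add_mem F.xL (F.JL (F.GJ F.bG))) hl)
    have e5 : 2 * ((1 + μ) * (uu l (qq b c x s μ) - uu x (qq b c x s μ))) =
        (2 * μ + 1) * (ww b c l - ww b c x) + (1 - s) * ww b c (x - l) +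
          s * ww b c (x + b - l) := by
      rw [mul_sub (1 + μ), e1, e2, e3, inner_sub_left]
      linear_combination e4
    have h5 : 0 < (2 * μ + 1) * (ww b c l - ww b c x) + (1 - s) * ww b c (x - l) +
        s * ww b c (x + b - l) := by
      have t1 : 0 ≤ (2 * μ + 1) * (ww b c l - ww b c x) := mul_nonneg (by linarith) (by linarith)
      have t2 : 0 ≤ (1 - s) * ww b c (x - l) := mul_nonneg (by linarith) h3
      have t3 : 0 ≤ s * ww b c (x + b - l) := mul_nonneg h0.le h4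
      rcases h3.eq_or_lt with h6 | h6
      · rcases F.rect.eq _ hxl h6.symm with h8 | h8 | h8 | h8
        · exact (hlx (sub_eq_zero.1 h8).symm).elim
        · rw [e3, ← h6, h8]; nlinarith [mul_pos h0 hbb]
        · have h9 := F.hc.resolve_left fun h' => hlx (sub_eq_zero.1 (h8.trans h')).symm
          have h10 : ww b c l - ww b c x = 2 * (⟪c, c⟫ - ⟪x, c⟫) := by
            rw [show l = x - c by rw [← h8]; abel]
            simp only [ww, inner_sub_left, inner_sub_right, real_inner_comm x c, hcb]; ring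
          have := mul_pos (show 0 < 2 * μ + 1 by linarith) (show 0 < ww b c l - ww b c x by linarith)
          linarith
        · rw [e3, ← h6, h8, inner_add_left, hcb]; nlinarith [mul_pos h0 hbb]
      · nlinarith [mul_pos (sub_pos.2 h1) h6]
    rw [← e5] at h5
    have h6 := (mul_pos_iff_of_pos_left (show 0 < 1 + μ by linarith)).1 (by linarith :
      0 < (1 + μ) * (uu l (qq b c x s μ) - uu x (qq b c x s μ)))
    linarith

end Pool.Agent.Lib.MP_61fe1c_an
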