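import Pool.Agent.Lib.MP_61fe1c_an.VB

/-!
A splitting criterion for lattices.
-/

set_option linter.unusedSectionVars false

open Set Filter Topology
open scoped Pointwise RealInnerProductSpace

namespace Pool.Agent.Lib.MP_61fe1c_an

variable {V : Type} [NormedAddCommGroup V] [InnerProductSpace ℝ V] [FiniteDimensional ℝ V]
variable {L P K G J : AddSubgroup V} {ρ : ℝ} {b c x : V}

lemma Frame.A (F : Frame L G J b c x) {j : V} (hj : j ∈ G) :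
    ⟪j, j⟫ - ⟪j, b⟫ ≤ 2 * (⟪j, j⟫ - ⟪j, x⟫) := by
  have h := F.sub (F.GJ hj)
  simp only [ww, inner_sub_left, inner_sub_right, real_inner_comm j x, F.Gc j hj] at h
  linarith

lemma Frame.B (F : Frame L G J b c x) {j : V} (hj : j ∈ G) :
    ⟪j, j⟫ - ⟪j, b⟫ ≤ 2 * (⟪j, j⟫ - ⟪j, x⟫ - ⟪j, b⟫ + ⟪x, b⟫) := by
  have h := F.A (G.sub_mem hj F.bG)
  simp only [inner_sub_left, inner_sub_right, real_inner_comm j b, real_inner_comm x b] at h
  linarith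

lemma Frame.diff (F : Frame L G J b c x) {s μ : ℝ} (hμ : 0 < μ) {j : V} (hj : j ∈ G) :
    (1 + μ) * (uu j (qq b c x s μ) - uu x (qq b c x s μ)) =
      (1 - s) * (⟪j, j⟫ - ⟪j, x⟫) + s * (⟪j, j⟫ - ⟪j, x⟫ - ⟪j, b⟫ + ⟪x, b⟫) -
        μ * (ww b c x - (⟪j, j⟫ - ⟪j, b⟫)) := by
  rw [mul_sub, uu_qq hμ, uu_qq hμ, ww, F.Gc j hj]
  ring

lemma uu_mid (m x n q : V) :
    2 * ⟪x - m, (1 / 2 : ℝ) • (x + n) - q⟫ = ⟪m - x, m - n⟫ - (uu m q - uu x q) := by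
  simp only [uu, inner_add_right, inner_sub_left, inner_sub_right, inner_smul_right,
    real_inner_comm m x]
  ring

lemma uu_rect (m x n q : V) :
    uu (x + n - m) q = uu x q + uu n q - uu m q + 2 * ⟪m - x, m - n⟫ := by
  simp only [uu, inner_add_left, inner_add_right, inner_sub_left, inner_sub_right,
    real_inner_comm m x, real_inner_comm m n, real_inner_comm n x]
  ring

theorem Dat.key (D : Dat L P K b) (hL : Lat L ρ) (F : Frame L G J b c x)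
    (hc : c = 0 ∨ 0 < ⟪x, c⟫) (h0 : 0 < ⟪x, b⟫) (h1 : ⟪x, b⟫ < ⟪b, b⟫) :
    ∃ n ∈ G, x - n ∈ K ∧ x - c - n ∈ K := by
  classical
  have F' := F.neg hc
  have hGL : G ≤ L := F.GJ.trans F.JL
  have hbb := D.bb
  have hpos := F.pos
  have hfin : {j | j ∈ G ∧ ⟪j, j⟫ - ⟪j, b⟫ < ww b c x}.Finite := by
    refine (hL.fin_uu ((1 / 2 : ℝ) • b) (ww b c x)).subset fun j hj => ⟨hGL hj.1, ?_⟩
    rw [uu, inner_smul_right]
    linarith [hj.2]
  have hs : ∀ j ∈ G, j ≠ 0 → j ≠ b → 0 < ⟪j, j⟫ - ⟪j, b⟫ := fun j hj h2 h3 =>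
    sub_pos.2 (D.rel (hGL hj) h2 h3)
  have hA : ∀ j ∈ G, j ≠ 0 → 0 < ⟪j, j⟫ - ⟪j, x⟫ := fun j hj h2 => by
    by_cases h3 : j = b
    · rw [h3, real_inner_comm x b]; linarith
    · linarith [hs j hj h2 h3, F.A hj]
  have hB : ∀ j ∈ G, j ≠ b → 0 < ⟪j, j⟫ - ⟪j, x⟫ - ⟪j, b⟫ + ⟪x, b⟫ := fun j hj h3 => by
    by_cases h2 : j = 0
    · simpa [h2] using h0
    · linarith [hs j hj h2 h3, F.B hj]
  have hA' : ∀ j ∈ G, 0 ≤ ⟪j, j⟫ - ⟪j, x⟫ := fun j hj => by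
    by_cases h2 : j = 0
    · simp [h2]
    · exact (hA j hj h2).le
  have hBb : ⟪b, b⟫ - ⟪b, x⟫ - ⟪b, b⟫ + ⟪x, b⟫ = 0 := by rw [real_inner_comm x b]; ring
  have hB' : ∀ j ∈ G, 0 ≤ ⟪j, j⟫ - ⟪j, x⟫ - ⟪j, b⟫ + ⟪x, b⟫ := fun j hj => by
    by_cases h2 : j = b
    · rw [h2, hBb]
    · exact (hB j hj h2).le
  have m0 : (0 : V) ∈ hfin.toFinset := hfin.mem_toFinset.2 ⟨G.zero_mem, by simpa using hpos⟩
  have mb : b ∈ hfin.toFinset := hfin.mem_toFinset.2 ⟨F.bG, by simpa using hpos⟩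
  obtain ⟨s, μ, hs0, hs1, hμ, h4, ⟨m₁, hm₁, hX₁, e₁⟩, ⟨m₂, hm₂, hX₂, e₂⟩⟩ :=
    env0 hfin.toFinset (· ∈ P) (fun j => ⟪j, j⟫ - ⟪j, x⟫)
      (fun j => ⟪j, j⟫ - ⟪j, x⟫ - ⟪j, b⟫ + ⟪x, b⟫) (fun j => ww b c x - (⟪j, j⟫ - ⟪j, b⟫))
      (fun j hj => sub_pos.2 (hfin.mem_toFinset.1 hj).2)
      (fun j hj => hA' j (hfin.mem_toFinset.1 hj).1) (fun j hj => hB' j (hfin.mem_toFinset.1 hj).1)
      m0 mb P.zero_mem D.bP (by simp) hBb
  have g₁ := (hfin.mem_toFinset.1 hm₁).1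
  have g₂ := (hfin.mem_toFinset.1 hm₂).1
  have n₁ : m₁ ≠ b := fun h => D.bP (h ▸ hX₁)
  have n₂ : m₂ ≠ 0 := fun h => hX₂ (h ▸ P.zero_mem)
  have i0 := h4 0 m0
  have ib := h4 b mb
  simp only [inner_zero_left, sub_zero, mul_zero, zero_add, hBb, add_zero, sub_self] at i0 ib
  have hs0' : 0 < s := by
    refine lt_of_le_of_ne hs0 fun h => ?_
    rw [← h] at i0 e₂
    have h5 : μ = 0 := le_antisymm (by nlinarith) hμ
    rw [h5] at e₂
    linarith [hA _ g₂ n₂]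
  have hs1' : s < 1 := by
    refine lt_of_le_of_ne hs1 fun h => ?_
    rw [h] at ib e₁
    have h5 : μ = 0 := le_antisymm (by nlinarith) hμ
    rw [h5] at e₁
    linarith [hB _ g₁ n₁]
  have hμ' : 0 < μ := by
    refine lt_of_le_of_ne hμ fun h => ?_
    rw [← h] at e₁
    nlinarith [mul_pos hs0' (hB _ g₁ n₁), mul_nonneg (sub_nonneg.2 hs1) (hA' _ g₁)]
  set δ : V → ℝ := fun j => (1 - s) * (⟪j, j⟫ - ⟪j, x⟫) +
    s * (⟪j, j⟫ - ⟪j, x⟫ - ⟪j, b⟫ + ⟪x, b⟫) - μ * (ww b c x - (⟪j, j⟫ - ⟪j, b⟫)) with hδ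
  set q₁ := qq b c x s μ with hq₁
  set q₂ := qq b (-c) (x - c) s μ with hq₂
  have d₁ : ∀ j ∈ G, (1 + μ) * (uu j q₁ - uu x q₁) = δ j := fun j hj => F.diff hμ' hj
  have d₂ : ∀ j ∈ G, (1 + μ) * (uu j q₂ - uu (x - c) q₂) = δ j := fun j hj => by
    rw [F'.diff hμ' hj, ww_neg F.rect.cb, sub_add_cancel, inner_sub_right, inner_sub_left,
      F.Gc j hj, F.rect.cb, sub_zero, sub_zero]
  have d₁₂ : ∀ j ∈ G, uu j q₁ - uu x q₁ = uu j q₂ - uu (x - c) q₂ := fun j hj =>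
    mul_left_cancel₀ (by linarith) ((d₁ j hj).trans (d₂ j hj).symm)
  have hout : ∀ j ∈ G, j ∉ hfin.toFinset → 0 < δ j := by
    intro j hj h5
    have h6 : ww b c x ≤ ⟪j, j⟫ - ⟪j, b⟫ := not_lt.1 fun h => h5 (hfin.mem_toFinset.2 ⟨hj, h⟩)
    have t1 := mul_nonneg (sub_nonneg.2 hs1) (hA' _ hj)
    have t2 := mul_pos hs0' (hB j hj fun h => h5 (h ▸ mb))
    have t3 := mul_nonneg hμ (sub_nonneg.2 h6)
    simp only [hδ]
    linarith
  have hge : ∀ j ∈ G, 0 ≤ δ j := fun j hj => by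
    by_cases h5 : j ∈ hfin.toFinset
    · exact sub_nonneg.2 (h4 j h5)
    · exact (hout j hj h5).le
  have u₁ : ∀ j ∈ G, uu x q₁ ≤ uu j q₁ := fun j hj => by
    have := hge j hj
    rw [← d₁ j hj] at this
    exact sub_nonneg.1 ((mul_nonneg_iff_of_pos_left (by linarith)).1 this)
  have u₂ : ∀ j ∈ G, uu (x - c) q₂ ≤ uu j q₂ := fun j hj => by linarith [u₁ j hj, d₁₂ j hj]
  have st₁ := fun l => F.strict (l := l) D.b0 hs0' hs1' hμ' u₁
  have st₂ := fun l => F'.strict (l := l) D.b0 hs0' hs1' hμ' u₂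
  set N := hfin.toFinset.filter (fun j => δ j = 0) with hN
  have hNG : ∀ j ∈ N, j ∈ G := fun j hj => (hfin.mem_toFinset.1 (Finset.mem_filter.1 hj).1).1
  have hN₁ : ∀ j ∈ N, uu j q₁ = uu x q₁ := fun j hj => by
    have := d₁ j (hNG j hj)
    rw [(Finset.mem_filter.1 hj).2] at this
    exact sub_eq_zero.1 ((mul_eq_zero.1 this).resolve_left (by linarith))
  have hN' : ∀ j ∈ G, uu j q₁ = uu x q₁ → j ∈ N := fun j hj h => by
    have h5 : δ j = 0 := by rw [← d₁ j hj, h, sub_self, mul_zero]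
    refine Finset.mem_filter.2 ⟨?_, h5⟩
    by_contra h6
    exact (hout j hj h6).ne' h5
  have hthird : ∀ j ∈ N, j ∉ P → j - b ∈ P := by
    intro j hj h5
    by_contra h6
    have h7 := D.third (hGL (hNG j hj)) h5 h6
    have h8 : δ j = 0 := (Finset.mem_filter.1 hj).2
    have h9 := F.A (hNG j hj)
    have h10 := F.B (hNG j hj)
    simp only [hδ] at h8
    rw [real_inner_comm x b] at ib
    have t1 : 0 < μ * (⟪j, j⟫ - ⟪j, b⟫) := mul_pos hμ' (by linarith)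
    have t2 : ⟪b, b⟫ < 4 * (s * ⟪j, b⟫) := by nlinarith
    have t3 : ⟪b, b⟫ < 4 * ((1 - s) * (⟪b, b⟫ - ⟪j, b⟫)) := by nlinarith
    have t4 : 0 < ⟪j, b⟫ := by
      by_contra h
      nlinarith [mul_nonneg hs0 (neg_nonneg.2 (not_lt.1 h))]
    have t5 : 0 < ⟪b, b⟫ - ⟪j, b⟫ := by
      by_contra h
      nlinarith [mul_nonneg (sub_nonneg.2 hs1) (neg_nonneg.2 (not_lt.1 h))]
    have t6 : ⟪b, b⟫ < s * ⟪b, b⟫ + ⟪j, b⟫ := by
      by_contra h
      have := mul_lt_mul_of_pos_left t2 hbb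
      nlinarith [sq_nonneg (s * ⟪b, b⟫ - ⟪j, b⟫), mul_pos hs0' hbb]
    have := mul_lt_mul_of_pos_left t3 hbb
    nlinarith [sq_nonneg ((1 - s) * ⟪b, b⟫ - (⟪b, b⟫ - ⟪j, b⟫)), mul_pos (sub_pos.2 hs1') hbb]
  let M : Submodule ℝ (V × V) :=
    { carrier := {d | ∀ m ∈ G, ⟪x - m, d.1⟫ = ⟪x - c - m, d.2⟫}
      add_mem' := fun {a a'} ha ha' m hm => by
        simp only [Prod.fst_add, Prod.snd_add, inner_add_right, ha m hm, ha' m hm]
      zero_mem' := fun m _ => by simp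
      smul_mem' := fun r a ha m hm => by
        simp only [Prod.smul_fst, Prod.smul_snd, inner_smul_right, ha m hm] }
  let f : V → (V × V) →ₗ[ℝ] ℝ := fun m => (innerₛₗ ℝ (x - m) : V →ₗ[ℝ] ℝ) ∘ₗ LinearMap.fst ℝ V V
  have hf : ∀ m d, f m d = ⟪x - m, d.1⟫ := fun m d => rfl
  have xG : x ∉ G := fun h => F.xJ (F.GJ h)
  have xG' : x - c ∉ G := fun h => F'.xJ (F.GJ h)
  obtain ⟨d, hd, k₁, hk₁, k₂, hk₂, hP₁, hP₂, z₁, z₂, z₃⟩ := env M (· ∈ P) f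
    (fun n => ((1 / 2 : ℝ) • (x + n) - q₁, (1 / 2 : ℝ) • (x - c + n) - q₂)) _ N rfl
    (fun n hn m hm => by
      have h5 := uu_mid m x n q₁
      have h6 := uu_mid m (x - c) n q₂
      have h7 : ⟪m - (x - c), m - n⟫ = ⟪m - x, m - n⟫ := by
        rw [show m - (x - c) = m - x + c by abel, inner_add_left, real_inner_comm (m - n) c,
          F.Gc _ (G.sub_mem hm (hNG n hn)), add_zero]
      linarith [d₁₂ m hm])
    (fun n hn => by
      have h5 := uu_mid n x n q₁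
      rw [sub_self, inner_zero_right, hN₁ n hn] at h5
      rw [hf]; linarith)
    (fun n hn m hm hmn => by
      have h5 := uu_mid m x n q₁
      have h6 := uu_rect m x n q₁
      have h7 := st₁ (x + n - m) (L.sub_mem (L.add_mem F.xL (hGL (hNG n hn))) (hGL (hNG m hm)))
        (fun h => xG (by simpa using G.sub_mem (G.add_mem h (hNG m hm)) (hNG n hn)))
        (fun h => hmn (by simpa using (sub_eq_iff_eq_add.1 h).symm))
      rw [hf]; linarith [hN₁ n hn, hN₁ m hm])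
    ⟨m₁, Finset.mem_filter.2 ⟨hm₁, by simp only [hδ]; linarith⟩, hX₁⟩
    ⟨m₂, Finset.mem_filter.2 ⟨hm₂, by simp only [hδ]; linarith⟩, hX₂⟩
  have G₁ := hNG _ hk₁
  have G₂ := hNG _ hk₂
  refine ⟨k₁, G₁, D.tri' hL hGL F.xL xG G₁ G₂ hP₁ (hthird _ hk₂ hP₂) (hN₁ _ hk₁) (hN₁ _ hk₂)
    z₁ z₂ fun l hl h5 h6 h7 => ?_, D.tri' (q := q₂) (d := d.2) hL hGL F'.xL xG' G₁ G₂ hP₁
      (hthird _ hk₂ hP₂) (by linarith [d₁₂ _ G₁, hN₁ _ hk₁]) (by linarith [d₁₂ _ G₂, hN₁ _ hk₂])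
      ((hd _ G₁).symm.trans z₁) ((hd _ G₂).symm.trans z₂) fun l hl h5 h6 h7 => ?_⟩
  · by_cases h8 : l ∈ G
    · exact (u₁ l h8).lt_or_eq.imp_right fun h => ⟨h, z₃ l (hN' l h8 h.symm) h6 h7⟩
    · exact Or.inl (st₁ l hl h8 h5)
  · by_cases h8 : l ∈ G
    · refine (u₂ l h8).lt_or_eq.imp_right fun h => ⟨h, ?_⟩
      rw [← hd l h8]
      exact z₃ l (hN' l h8 (by linarith [d₁₂ l h8])) h6 h7
    · exact Or.inl (st₂ l hl h8 h5)

lemma ww_eq (b c l : V) : ww b c l = uu l ((1 / 2 : ℝ) • (b + c)) := by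
  simp only [ww, uu, inner_smul_right, inner_add_right]; ring

lemma Dat.exists_x (D : Dat L P K b) (hL : Lat L ρ) (hb : b ∈ J) (hcb : ⟪c, b⟫ = 0)
    (hJ : ∃ l ∈ L, l ∉ J) : ∃ x ∈ L, x ∉ J ∧ (∀ l ∈ L, l ∉ J → ww b c x ≤ ww b c l) ∧
      0 ≤ ⟪x, b⟫ ∧ ⟪x, b⟫ < ⟪b, b⟫ := by
  obtain ⟨x, hx, hmin⟩ := hL.exists_min (X := {l | l ∈ L ∧ l ∉ J}) (fun _ h => h.1) hJ
    ((1 / 2 : ℝ) • (b + c))
  simp only [← ww_eq] at hmin
  have h1 := hmin (x + b) ⟨L.add_mem hx.1 D.bL, fun h => hx.2 (by simpa using J.sub_mem h hb)⟩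
  have m2 : x - b ∈ L ∧ x - b ∉ J :=
    ⟨L.sub_mem hx.1 D.bL, fun h => hx.2 (by simpa using J.add_mem h hb)⟩
  have h2 := hmin (x - b) m2
  have e : ww b c (x - b) = ww b c x + 2 * (⟪b, b⟫ - ⟪x, b⟫) := by
    simp only [ww, inner_sub_left, inner_sub_right, real_inner_comm x b, real_inner_comm c b, hcb]
    ring
  simp only [ww, inner_add_left, inner_add_right, real_inner_comm x b, real_inner_comm c b,
    hcb] at h1
  by_cases h3 : ⟪x, b⟫ = ⟪b, b⟫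
  · refine ⟨x - b, m2.1, m2.2, fun l hl hl' => ?_, by rw [inner_sub_left, h3, sub_self],
      by rw [inner_sub_left, h3, sub_self]; exact D.bb⟩
    rw [e, h3]
    simpa using hmin l ⟨hl, hl'⟩
  · exact ⟨x, hx.1, hx.2, fun l hl hl' => hmin l ⟨hl, hl'⟩, by linarith,
      lt_of_le_of_ne (by linarith) h3⟩

theorem Dat.split (D : Dat L P K b) (hL : Lat L ρ) (hK : ∃ l ∈ L, l ∉ K) :
    ∃ C : Submodule ℝ V, C ≠ ⊥ ∧ C ≠ ⊤ ∧ ∀ l ∈ L, ∃ y ∈ L, y ∈ C ∧ l - y ∈ Cᗮ := by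
  have hrect : Rect L b 0 := by
    have : ∀ l ∈ L, l ≠ 0 → l ≠ b → 0 < ww b 0 l := fun l hl h1 h2 => by
      simpa [ww] using D.rel hl h1 h2
    refine ⟨L.zero_mem, by simp, fun l hl => ?_, fun l hl h => ?_⟩
    · by_cases h1 : l = 0
      · simp [h1, ww]
      by_cases h2 : l = b
      · simp [h2, ww]
      exact (this l hl h1 h2).le
    · by_contra h'
      push Not at h'
      exact (this l hl h'.1 h'.2.1).ne' h
  have hbK : b ∈ K := by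
    have e : ∀ l, uu l ((1 / 2 : ℝ) • (b + 0)) = ww b 0 l := fun l => (ww_eq _ _ _).symm
    refine D.H b D.bL (by simp) (fun l hl => D.rel hl) ((1 / 2 : ℝ) • (b + 0))
      (fun l hl => e l ▸ hrect.ge l hl) (by rw [e]; simp [ww]) (fun l hl h0 h => ?_) b D.bL
      (by rw [e]; simp [ww])
    rcases hrect.eq l hl (e l ▸ h) with h1 | h1 | h1 | h1
    exacts [(h0 h1).elim, h1 ▸ D.bb, (h0 h1).elim, by simpa [h1] using D.bb]
  obtain ⟨c₀, hc₀, hc₀K⟩ : ∃ c, Rect L b c ∧ c ∉ K := by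
    obtain ⟨l, hl, hl'⟩ := hK
    obtain ⟨x, h1, h2, h3, h4, h5⟩ := D.exists_x (J := L ⊓ K) (c := 0) hL ⟨D.bL, hbK⟩ (by simp)
      ⟨l, hl, fun h => hl' h.2⟩
    have F : Frame L (L ⊓ K) (L ⊓ K) b 0 x := ⟨hrect, le_rfl, inf_le_left, ⟨D.bL, hbK⟩,
      zero_mem _, by simp, fun l hl => ⟨l, hl, by simp, by simp⟩, h1, h2, h3, Or.inl rfl⟩
    rcases h4.eq_or_lt with h6 | h6
    · exact ⟨x, F.isRect h6.symm, fun h => h2 ⟨h1, h⟩⟩
    · obtain ⟨n, hn, h7, -⟩ := D.key hL F (Or.inl rfl) h6 h5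
      exact (h2 ⟨h1, by simpa using K.add_mem h7 hn.2⟩).elim
  set C : Submodule ℝ V := Submodule.span ℝ {c | Rect L b c ∧ c ∉ K} with hC
  have hperp : ∀ v, (∀ c, Rect L b c → c ∉ K → ⟪c, v⟫ = 0) → v ∈ Cᗮ := by
    intro v h u hu
    induction hu using Submodule.span_induction with
    | mem x hx => exact h x hx.1 hx.2
    | zero => simp
    | add x y _ _ hx hy => rw [inner_add_left, hx, hy, add_zero]
    | smul a x _ hx => rw [real_inner_smul_left, hx, mul_zero]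
  have hbC : b ∈ Cᗮ := hperp b fun c h _ => h.cb
  have hcap : ∀ c, Rect L b c → c ∉ K → c ∈ C := fun c h h' => Submodule.subset_span ⟨h, h'⟩
  refine ⟨C, fun h => hc₀K ?_, fun h => D.b0 ?_, ?_⟩
  · have := hcap _ hc₀ hc₀K
    rw [h, Submodule.mem_bot] at this
    exact this ▸ K.zero_mem
  · rwa [h, Submodule.top_orthogonal_eq_bot, Submodule.mem_bot] at hbC
  set G : AddSubgroup V := L ⊓ Cᗮ.toAddSubgroup with hG
  set J : AddSubgroup V := (L ⊓ C.toAddSubgroup) ⊔ G with hJ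
  have hdec : ∀ l ∈ J, ∃ y ∈ L, y ∈ C ∧ l - y ∈ G := fun l hl => by
    obtain ⟨y, hy, z, hz, rfl⟩ := AddSubgroup.mem_sup.1 hl
    exact ⟨y, hy.1, hy.2, by simpa using hz⟩
  by_contra hcon
  have hne : ∃ l ∈ L, l ∉ J := by
    by_contra h
    push Not at h
    exact hcon fun l hl => let ⟨y, h1, h2, h3⟩ := hdec l (h l hl); ⟨y, h1, h2, h3.2⟩
  have hGJ : G ≤ J := le_sup_right
  have hCJ : ∀ y ∈ L, y ∈ C → y ∈ J := fun y h1 h2 => AddSubgroup.mem_sup_left ⟨h1, h2⟩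
  have hbJ : b ∈ J := hGJ ⟨D.bL, hbC⟩
  obtain ⟨g, g1, g2, g3, -, -⟩ := D.exists_x (J := J) (c := 0) hL hbJ (by simp) hne
  refine g2 (hGJ ⟨g1, hperp g fun c hc hcK => ?_⟩)
  by_contra hgc
  have hcC := hcap c hc hcK
  have hcJ := hCJ c hc.cL hcC
  obtain ⟨x, h1, h2, h3, h4, h5⟩ := D.exists_x (J := J) hL hbJ hc.cb hne
  have hlt : ww b c x < ww b 0 g := by
    have t1 := h3 g g1 g2
    have t2 := h3 (b - g) (L.sub_mem D.bL g1) fun h => g2 (by simpa using J.sub_mem hbJ h)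
    have e1 : ww b c g = ww b 0 g - ⟪c, g⟫ := by simp [ww, real_inner_comm c g]
    have e2 : ww b c (b - g) = ww b 0 g + ⟪c, g⟫ := by
      simp only [ww, inner_sub_left, inner_sub_right, real_inner_comm g b, real_inner_comm c b,
        real_inner_comm c g, hc.cb, inner_zero_right]
      ring
    rcases lt_or_gt_of_ne hgc with h | h <;> linarith
  have m1 : x - c ∉ J := fun h => h2 (by simpa using J.add_mem h hcJ)
  have p1 : 0 < ⟪x, c⟫ := by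
    have t2 := g3 x h1 h2
    simp only [ww, inner_zero_right] at t2 hlt
    linarith
  have p2 : ⟪x, c⟫ < ⟪c, c⟫ := by
    have t2 := g3 (x - c) (L.sub_mem h1 hc.cL) m1
    simp only [ww, inner_sub_left, inner_sub_right, real_inner_comm x c, hc.cb,
      inner_zero_right] at t2 hlt
    linarith
  have F : Frame L G J b c x := ⟨hc, hGJ, sup_le inf_le_left inf_le_left, ⟨D.bL, hbC⟩, hcJ,
    fun j hj => Submodule.inner_left_of_mem_orthogonal hcC hj.2, fun l hl => by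
      obtain ⟨y, -, y2, y3⟩ := hdec l hl
      refine ⟨_, y3, ?_, ?_⟩ <;> rw [sub_sub_cancel]
      exacts [Submodule.inner_right_of_mem_orthogonal y2 y3.2,
        Submodule.inner_right_of_mem_orthogonal y2 hbC], h1, h2, h3, Or.inr p2⟩
  rcases h4.eq_or_lt with h6 | h6
  · have F' := F.neg (Or.inr p1)
    have k1 : x ∈ K := by
      by_contra h
      exact h2 (hCJ x h1 (hcap x (F.isRect h6.symm) h))
    have k2 : x - c ∈ K := by
      by_contra h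
      exact m1 (hCJ _ F'.xL (hcap _ (F'.isRect (by rw [inner_sub_left, hc.cb, ← h6, sub_zero])) h))
    exact hcK (by simpa using K.sub_mem k1 k2)
  · obtain ⟨n, -, k1, k2⟩ := D.key hL F (Or.inr p1) h6 h5
    exact hcK (by simpa using K.sub_mem k1 k2)

end Pool.Agent.Lib.MP_61fe1c_an
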