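import Pool.Agent.Lib.MP_61fe1c_an.VC

/-!
All Voronoi cells.
-/

set_option linter.unusedSectionVars false

open Set Filter Topology MeasureTheory
open scoped Pointwise RealInnerProductSpace

namespace Pool.Agent.Lib.MP_61fe1c_an

section

variable {V : Type} [NormedAddCommGroup V] [NormedSpace ℝ V] [FiniteDimensional ℝ V]
variable {A S : Set V}

theorem descent2 (hA : Convex ℝ A) (hK : IsCompact A) (hi : (interior A).Nonempty) (hS : Adm A S)
    {τ : V} (n : ℕ) : ∀ (c : V) (hc : c ∈ A), Module.finrank ℝ (Wd hA hc) = n →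
      Lam A S τ 1 c → Lam A S τ (-1) c → ∃ c' ∈ Ef A c, Tight A c' ∧ Lam A S τ 1 c' := by
  induction n using Nat.strong_induction_on with
  | _ n ih =>
  intro c hc hn h1 h2
  by_cases ht : Tight A c
  · exact ⟨c, (self_mem_Eo hc).1, ht, h1⟩
  · simp only [Tight, not_forall, not_exists, not_and, not_not] at ht
    obtain ⟨α, hα, hα', hnt⟩ := ht
    have hlt : Wd hA hα.1 < Wd hA hc :=
      lt_of_le_of_ne (dirs_mono hA hα) fun h => hα' ⟨hα, by
        have : α - c ∈ Wd hA hc := hα.2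
        rwa [← h] at this⟩
    obtain ⟨c', h, h'⟩ := ih _ (hn ▸ Submodule.finrank_lt_finrank_of_lt hlt) α hα.1 rfl
      (claimB hA hK hi hS (Or.inl rfl) hc h1 h2 hα hnt)
      (claimB hA hK hi hS (Or.inr rfl) hc h2 (by simpa using h1) hα hnt)
    exact ⟨c', Ef_trans hA hα h, h'⟩

lemma Stmt.pre {V' : Type} [NormedAddCommGroup V'] [NormedSpace ℝ V'] [FiniteDimensional ℝ V']
    [MeasurableSpace V] [BorelSpace V] [MeasurableSpace V'] [BorelSpace V']
    (hA : MeasurableSet A) (h : Stmt V A) (f : V' ≃L[ℝ] V) : Stmt V' (f ⁻¹' A) := by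
  intro μ _ Y _ ν _ I ξ k J hk h1
  have hf : MeasurePreserving f μ (μ.map f) := ⟨f.continuous.measurable, rfl⟩
  let g : V' × Y ≃ᵐ V × Y :=
    MeasurableEquiv.prodCongr f.toHomeomorph.toMeasurableEquiv (MeasurableEquiv.refl Y)
  have hg : MeasurePreserving g ((μ.restrict (f ⁻¹' A)).prod ν) (((μ.map f).restrict A).prod ν) :=
    (hf.restrict_preimage hA).prod (MeasurePreserving.id ν)
  exact h (μ.map f) Y ν I (fun i => ξ i ∘ₗ (f.symm : V →ₗ[ℝ] V')) k J hk (h1.comp g.symm hg.symm)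

end

variable {V : Type} [NormedAddCommGroup V] [InnerProductSpace ℝ V] [FiniteDimensional ℝ V]
variable {L : AddSubgroup V} {ρ : ℝ} {S : Set V}

lemma sub_mem_vor {y a : V} (hy : y ∈ vor (L : Set V)) (ha : a ∈ L) (h : 2 * ⟪a, y⟫ = ⟪a, a⟫) :
    y - a ∈ vor (L : Set V) := fun l hl => by
  have := hy (l + a) (L.add_mem hl ha)
  rw [inner_add_left, real_inner_add_add_self] at this
  rw [inner_sub_right]
  linarith

theorem Lat.slide (h : Lat L ρ) (hS : Adm (vor (L : Set V)) S) {τ c : V} (hc : c ∈ vor (L : Set V))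
    (ht : Tight (vor (L : Set V)) c) (hΛ : Lam (vor (L : Set V)) S τ 1 c) :
    (∀ t, τ + t ∈ S → ∃ s ∈ vor (L : Set V), τ + s ∈ S ∧ t - s ∈ S) ∧
      ∀ s ∈ vor (L : Set V), τ + s ∈ S → s ∈ dirs (vor (L : Set V)) c := by
  set A := vor (L : Set V) with hA
  set D : Set V := {l | l ∈ L ∧ 2 * ⟪l, c⟫ = ⟪l, l⟫} with hD
  set U : Submodule ℝ V := Submodule.span ℝ D with hU
  have hW : ∀ v, v ∈ Uᗮ ↔ v ∈ dirs A c := fun v => by
    rw [h.dirs_iff hc]
    refine ⟨fun h1 l hl h2 => Submodule.inner_right_of_mem_orthogonal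
      (Submodule.subset_span (s := D) ⟨hl, h2⟩) h1, fun h1 u hu => ?_⟩
    induction hu using Submodule.span_induction with
    | mem x hx => exact h1 x hx.1 hx.2
    | zero => simp
    | add x y _ _ hx hy => rw [inner_add_left, hx, hy, add_zero]
    | smul a x _ hx => rw [real_inner_smul_left, hx, mul_zero]
  have hUW : ∀ {u w : V}, u ∈ U → w ∈ Uᗮ → ⟪u, w⟫ = 0 := fun hu hw =>
    Submodule.inner_right_of_mem_orthogonal hu hw
  have hWU : ∀ {u w : V}, u ∈ U → w ∈ Uᗮ → ⟪w, u⟫ = 0 := fun hu hw =>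
    Submodule.inner_left_of_mem_orthogonal hu hw
  obtain ⟨x₀, hx₀, u₀, hu₀, hcd⟩ := U.exists_add_mem_mem_orthogonal c
  let LW : AddSubgroup V := L ⊓ Uᗮ.toAddSubgroup
  have hED : ∀ x ∈ Ef A c, ∀ a ∈ D, 2 * ⟪a, x⟫ = ⟪a, a⟫ := fun x hx a ha => by
    have := hUW (Submodule.subset_span ha) ((hW _).2 hx.2)
    rw [inner_sub_right] at this
    linarith [ha.2]
  have hQ : ∀ w ∈ Uᗮ, w ∈ vor (LW : Set V) → x₀ + w ∈ A := by
    intro w hw hwQ
    by_cases h0 : w - u₀ = 0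
    · rwa [sub_eq_zero.1 h0, ← hcd]
    have hwd : w - u₀ ∈ dirs A c := (hW _).1 (Uᗮ.sub_mem hw hu₀)
    obtain ⟨κ, hκ0, hκ, hmax⟩ := exists_exit h.cpt hc h0
    have hκ1 : 0 < κ := by
      obtain ⟨ε, hε, h'⟩ := dirs_pos hwd
      refine lt_of_le_of_ne hκ0 fun h0 => hmax ε hε ?_
      rwa [← h0, zero_add]
    have hx : c + κ • (w - u₀) ∈ Ef A c := ⟨hκ, by simpa using dirs_smul hwd κ⟩
    obtain ⟨y, hy, hxy⟩ := ht _ hx fun h => by
      obtain ⟨ε, hε, h'⟩ := dirs_pos h.2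
      refine hmax (ε * κ) (by positivity) ?_
      convert h' using 1
      module
    obtain ⟨l, hl, hl0, h1, h2⟩ := h.tight hκ hy.1 hxy
    have hlW : l ∈ Uᗮ := (hW l).2 ((h.dirs_iff hc).2 fun a ha ha' => by
      have h3 := hκ (a + l) (L.add_mem ha hl)
      have h4 := hy.1 (a - l) (L.sub_mem ha hl)
      have h5 := hED _ hx a ⟨ha, ha'⟩
      have h6 := hED _ hy a ⟨ha, ha'⟩
      rw [inner_add_left, real_inner_add_add_self] at h3
      rw [inner_sub_left, real_inner_sub_sub_self] at h4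
      linarith)
    have h3 : 2 * ⟪l, c⟫ < ⟪l, l⟫ := lt_of_le_of_ne (hc l hl) fun h' =>
      hl0 (inner_self_eq_zero.1 (hUW (Submodule.subset_span ⟨hl, h'⟩) hlW))
    have h4 := hwQ l ⟨hl, hlW⟩
    have h5 : ⟪l, c⟫ = ⟪l, u₀⟫ := by rw [hcd, inner_add_right, hWU hx₀ hlW, zero_add]
    rw [inner_add_right, inner_smul_right, inner_sub_right, h5] at h1
    have h6 : 1 ≤ κ := by
      by_contra h7
      nlinarith
    have := (convex_vor _).add_smul_sub_mem hc hκ (t := κ⁻¹) ⟨by positivity, inv_le_one_of_one_le₀ h6⟩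
    rw [add_sub_cancel_left, smul_smul, inv_mul_cancel₀ hκ1.ne', one_smul] at this
    convert this using 1
    rw [hcd]; abel
  have hQ' : ∀ w ∈ Uᗮ, w ∈ A → x₀ + w ∈ A := fun w hw h1 => hQ w hw fun l hl => h1 l hl.1
  have hWA : ∀ w ∈ Uᗮ, x₀ + w ∈ A → w ∈ A := by
    intro w hw h1
    have h2 := neg_mem_vor (hQ (-w) (Uᗮ.neg_mem hw) (neg_mem_vor fun l hl => by
      have := h1 l hl.1
      rwa [inner_add_right, hWU hx₀ hl.2, zero_add] at this))
    intro l hl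
    have h3 := h1 l hl
    have h4 := h2 l hl
    simp only [inner_add_right, inner_neg_right] at h3 h4
    linarith
  have hEo : ∀ q ∈ Uᗮ, q ∈ interior A → x₀ + q ∈ Eo A c := by
    intro q hq h1
    have h2 : x₀ + q - c ∈ Uᗮ := by
      rw [hcd, add_sub_add_left_eq_sub]; exact Uᗮ.sub_mem hq hu₀
    refine ⟨⟨hQ' q hq (interior_subset h1), (hW _).1 h2⟩, ?_⟩
    filter_upwards [dirs_of_interior h1 (x₀ + q - c)] with t h3
    rw [add_assoc]
    exact hQ' _ (Uᗮ.add_mem hq (Uᗮ.smul_mem _ h2)) h3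
  have h0 : (0 : V) ∈ interior A :=
    h.mem_int fun l _ h0 => by simpa using real_inner_self_pos.2 h0
  refine ⟨fun t h1 => ?_, fun s hs h1 => ?_⟩
  · obtain ⟨s, h2, h3, h4, h5⟩ := hΛ t h1 _ (hEo 0 Uᗮ.zero_mem h0)
    exact ⟨s, hWA s ((hW s).2 h2) (by simpa using h4), h3, h5⟩
  obtain ⟨p, hp, w, hw, hs'⟩ := U.exists_add_mem_mem_orthogonal s
  set Z : Set V := {v | ∀ e ∈ Uᗮ, e ∈ A → e + v ∈ A} with hZ
  have hZc : Convex ℝ Z := by
    intro a ha b hb r t hr ht hrt e he he'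
    convert convex_vor _ (ha e he he') (hb e he he') hr ht hrt using 1
    have : t = 1 - r := by linarith
    subst this
    module
  have hZ0 : (0 : V) ∈ Z := fun e _ he => by simpa using he
  have hZa : ∀ a ∈ D, x₀ - a ∈ Wd hZc hZ0 := by
    intro a ha
    have h2 : ∀ e ∈ Uᗮ, e ∈ A → x₀ + e - a ∈ A := fun e he he' =>
      sub_mem_vor (hQ' e he he') ha.1 (by
        have := ha.2
        rw [hcd, inner_add_right, hUW (Submodule.subset_span ha) hu₀] at this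
        rw [inner_add_right, hUW (Submodule.subset_span ha) he, this])
    refine mem_dirs_of hZc one_pos one_pos (fun e he he' => ?_) fun e he he' => ?_
    · convert h2 e he he' using 1
      module
    · convert neg_mem_vor (h2 (-e) (Uᗮ.neg_mem he) (neg_mem_vor he')) using 1
      module
  have hpZ : p ∈ Wd hZc hZ0 := by
    refine Submodule.span_le.2 (fun a ha => ?_) hp
    have := (Wd hZc hZ0).sub_mem (hZa 0 ⟨L.zero_mem, by simp⟩) (hZa a ha)
    simpa using this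
  have e1 : ∀ᶠ t in 𝓝 (0 : ℝ), t • -w ∈ interior A := by
    have hc : ContinuousAt (fun t : ℝ => t • -w) 0 := by fun_prop
    exact hc.eventually (isOpen_interior.mem_nhds (by simpa using h0))
  have e2 : ∀ᶠ t in 𝓝 (0 : ℝ), t ≤ 1 := Iic_mem_nhds one_pos
  obtain ⟨ε, hε, h2, h3, h4⟩ := ((eventually_mem_nhdsWithin (s := Ioi (0 : ℝ)) (a := 0)).and
    (Eventually.filter_mono nhdsWithin_le_nhds (e1.and (e2.and (dirs_neg hpZ))))).exists
  have hε0 : 0 < ε := hε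
  have hεw : ε • -w ∈ Uᗮ := Uᗮ.smul_mem _ (Uᗮ.neg_mem hw)
  obtain ⟨s', h5, -, h6, h7⟩ := hΛ s h1 _ (hEo _ hεw h2)
  have h8 : ε • -w + s' ∈ Uᗮ := Uᗮ.add_mem hεw ((hW _).2 h5)
  have h9 := h4 _ h8 (hWA _ h8 (by simpa [add_assoc] using h6))
  have h10 := (convex_vor (L : Set V)).combo_interior_self_mem_interior h0 hs (a := ε) (b := 1 - ε)
    hε0 (by linarith) (by ring)
  have h11 : s - s' = 0 := by
    refine hS.pack _ h7 ?_
    convert subset_interior_sub_left (sub_mem_sub h10 h9) using 1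
    rw [hs']
    module
  rwa [sub_eq_zero.1 h11]

theorem Lat.lam_rel (h : Lat L ρ) (hS : Adm (vor (L : Set V)) S) {a α : V} (ha : a ∈ L)
    (ha0 : a ≠ 0) (hr : ∀ l ∈ L, l ≠ 0 → l ≠ a → ⟪l, a⟫ < ⟪l, l⟫) (hα : α ∈ vor (L : Set V))
    (h1 : 2 * ⟪a, α⟫ = ⟪a, a⟫) (h2 : ∀ l ∈ L, l ≠ 0 → 2 * ⟪l, α⟫ = ⟪l, l⟫ → 0 < ⟪l, a⟫) :
    ∃ c ∈ Ef (vor (L : Set V)) α, Tight (vor (L : Set V)) c ∧ Lam (vor (L : Set V)) S a 1 c := by
  set φ : V →ₗ[ℝ] ℝ := innerₛₗ ℝ a with hφ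
  have hφ' : ∀ v, φ v = ⟪a, v⟫ := fun _ => rfl
  have e : ∀ l : V, 2 * ⟪l, (1 / 2 : ℝ) • a⟫ = ⟪l, a⟫ := fun l => by rw [inner_smul_right]; ring
  have hc : (1 / 2 : ℝ) • a ∈ vor (L : Set V) := fun l hl => by
    rw [e]
    by_cases h3 : l = 0
    · simp [h3]
    by_cases h4 : l = a
    · rw [h4]
    exact (hr l hl h3 h4).le
  have hF : ∀ y, y ∈ face (vor (L : Set V)) φ ↔ y ∈ vor (L : Set V) ∧ 2 * ⟪a, y⟫ = ⟪a, a⟫ :=
    fun y => and_congr_right fun hy => ⟨fun h3 => by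
      have h4 := h3 _ hc
      rw [hφ', hφ'] at h4
      linarith [e a, hy a ha], fun h3 z hz => by rw [hφ', hφ']; linarith [hz a ha]⟩
  have hk : ∀ v, φ v = 0 → v ∈ dirs (vor (L : Set V)) ((1 / 2 : ℝ) • a) := fun v hv =>
    (h.dirs_iff hc).2 fun l hl h3 => by
      by_cases h4 : l = 0
      · simp [h4]
      by_cases h5 : l = a
      · rw [h5]; exact hv
      exact absurd (e l ▸ h3) (hr l hl h4 h5).ne
  have hG : ∀ y, y ∈ face (vor (L : Set V)) (-φ) ↔ -y ∈ face (vor (L : Set V)) φ := fun y =>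
    ⟨fun h2 => ⟨neg_mem_vor h2.1, fun z hz => by simpa using h2.2 _ (neg_mem_vor hz)⟩,
      fun h2 => ⟨by simpa using neg_mem_vor h2.1,
        fun z hz => by simpa using h2.2 _ (neg_mem_vor hz)⟩⟩
  have hR : ∀ y, y ∈ face (vor (L : Set V)) φ → -(y - a) ∈ face (vor (L : Set V)) φ := by
    intro y hy
    obtain ⟨h2, h3⟩ := (hF y).1 hy
    exact (hF _).2 ⟨neg_mem_vor (sub_mem_vor h2 ha h3), by rw [neg_sub, inner_sub_right]; linarith⟩
  obtain ⟨l1, l2⟩ := lam_top (convex_vor _) h.cpt h.int hS (φ := φ) (τ := a)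
    (fun h3 => ha0 (inner_self_eq_zero.1 (by rw [← hφ', h3]; rfl))) ((hF _).2 ⟨hc, e a⟩) hk
    fun y => by rw [hG]; exact ⟨hR y, fun h2 => by simpa using hR _ h2⟩
  have hE : α ∈ Ef (vor (L : Set V)) ((1 / 2 : ℝ) • a) :=
    ⟨hα, hk _ (by rw [hφ', inner_sub_right]; linarith [e a])⟩
  have hnt : ∀ y ∈ Ef (vor (L : Set V)) ((1 / 2 : ℝ) • a),
      α - y ∈ interior (vor (L : Set V) - vor (L : Set V)) := by
    intro y hy
    by_contra h3
    obtain ⟨l, hl, hl0, h4, h5⟩ := h.tight hα hy.1 h3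
    have h6 := (h.dirs_iff hc).1 hy.2 a ha (e a)
    have h7 := hy.1 _ (L.sub_mem ha hl)
    have h8 := h2 l hl hl0 h4
    rw [inner_sub_right] at h6
    rw [real_inner_sub_sub_self, inner_sub_left, real_inner_comm l a] at h7
    linarith [e a]
  exact descent2 (convex_vor _) h.cpt h.int hS _ α hα rfl
    (claimB (convex_vor _) h.cpt h.int hS (Or.inl rfl) hc l1 l2 hE hnt)
    (claimB (convex_vor _) h.cpt h.int hS (Or.inr rfl) hc l2 (by simpa using l1) hE hnt)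

theorem Lat.split_or (h : Lat L ρ) (hS : Adm (vor (L : Set V)) S) : L ≤ periods S ∨
    ∃ C : Submodule ℝ V, C ≠ ⊥ ∧ C ≠ ⊤ ∧ ∀ l ∈ L, ∃ y ∈ L, y ∈ C ∧ l - y ∈ Cᗮ := by
  refine or_iff_not_imp_left.2 fun hP => ?_
  obtain ⟨b, hbL, hbP, hmin, t, ht1, ht2⟩ : ∃ b ∈ L, b ∉ periods S ∧
      (∀ l ∈ L, l ∉ periods S → ⟪b, b⟫ ≤ ⟪l, l⟫) ∧ ∃ t, b + t ∈ S ∧ t ∉ S := by
    obtain ⟨b, hb, hmin⟩ := h.exists_min (X := {l | l ∈ L ∧ l ∉ periods S}) (fun _ h => h.1)
      (SetLike.not_le_iff_exists.1 hP) 0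
    simp only [uu, inner_zero_right, mul_zero, sub_zero] at hmin
    obtain ⟨t, ht⟩ := not_forall.1 hb.2
    by_cases h1 : t ∈ S
    · exact ⟨-b, L.neg_mem hb.1, fun h => hb.2 ((periods S).neg_mem_iff.1 h),
        fun l h2 h3 => by simpa using hmin l ⟨h2, h3⟩, b + t, by simpa using h1,
        fun h => ht ⟨fun _ => h1, fun _ => h⟩⟩
    · exact ⟨b, hb.1, hb.2, fun l h2 h3 => hmin l ⟨h2, h3⟩, t,
        by_contra fun h => ht ⟨fun h' => (h h').elim, fun h' => (h1 h').elim⟩, h1⟩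
  have D0 : Dat L (periods S) ⊤ b := ⟨hbL, hbP, hmin, fun _ _ _ _ _ _ _ _ _ _ _ => trivial⟩
  have e : ∀ l : V, 2 * ⟪l, (1 / 2 : ℝ) • b⟫ = ⟪l, b⟫ := fun l => by rw [inner_smul_right]; ring
  obtain ⟨c, hc, hct, hcl⟩ := h.lam_rel hS hbL D0.b0 (fun l => D0.rel) (α := (1 / 2 : ℝ) • b)
    (fun l hl => by
      rw [e]
      by_cases h3 : l = 0
      · simp [h3]
      by_cases h4 : l = b
      · rw [h4]
      exact (D0.rel hl h3 h4).le) (e b) fun l hl h3 h4 => by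
      by_cases h5 : l = b
      · rw [h5]; exact D0.bb
      exact absurd (e l ▸ h4) (D0.rel hl h3 h5).ne
  obtain ⟨s, hs, h1, h2⟩ := (h.slide hS hc.1 hct hcl).1 t ht1
  have hs0 : s ≠ 0 := fun h => ht2 (by simpa [h] using h2)
  refine Dat.split (P := periods S) (K := (LinearMap.ker (innerₛₗ ℝ s : V →ₗ[ℝ] ℝ)).toAddSubgroup)
    ⟨hbL, hbP, hmin, fun a ha haP hr α h3 h4 h5 l hl h6 => ?_⟩ h ?_
  · have hα : α ∈ vor (L : Set V) := fun l hl => sub_nonneg.1 (h3 l hl)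
    obtain ⟨c', hc', h7, h8⟩ := h.lam_rel hS ha (fun h => hbP (by simpa [h] using haP)) hr hα
      (sub_eq_zero.1 h4).symm fun l hl h0 h' => h5 l hl h0 (sub_eq_zero.2 h'.symm)
    have h9 := (h.slide hS hc'.1 h7 h8).2 s hs (by
      have := (haP (b + s)).2 h1
      convert this using 1
      abel)
    have := (h.dirs_iff hα).1 (dirs_mono (convex_vor _) hc' h9) l hl (sub_eq_zero.1 h6).symm
    change ⟪s, l⟫ = 0
    rwa [real_inner_comm]
  · by_contra hcon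
    push Not at hcon
    have hss : 0 < ‖s‖ := norm_pos_iff.2 hs0
    obtain ⟨l, hl, h3⟩ := h.cov (((|ρ| + 1) / ‖s‖) • s)
    have h4 : ⟪s, l⟫ = 0 := hcon l hl
    have h5 := real_inner_le_norm s (((|ρ| + 1) / ‖s‖) • s - l)
    rw [inner_sub_right, h4, inner_smul_right, real_inner_self_eq_norm_sq, sub_zero] at h5
    have h6 : (|ρ| + 1) / ‖s‖ * ‖s‖ ^ 2 = ‖s‖ * (|ρ| + 1) := by field_simp
    have h7 := le_abs_self ρ
    nlinarith

lemma Lat.sub (h : Lat L ρ) (C : Submodule ℝ V) (hd : ∀ l ∈ L, ∃ y ∈ L, y ∈ C ∧ l - y ∈ Cᗮ) :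
    Lat (L.comap C.subtype.toAddMonoidHom) ρ := by
  refine ⟨fun R => ?_, fun x => ?_⟩
  · exact ((h.fin R).preimage (f := fun x : C => (x : V)) Subtype.val_injective.injOn).subset
      fun x hx => hx
  · obtain ⟨l, hl, h1⟩ := h.cov x
    obtain ⟨y, hy, h2, h3⟩ := hd l hl
    refine ⟨⟨y, h2⟩, hy, le_trans ?_ h1⟩
    change ‖(x : V) - y‖ ≤ _
    have h4 : (x : V) - l = ((x : V) - y) - (l - y) := by abel
    rw [← sq_le_sq₀ (norm_nonneg _) (norm_nonneg _), h4, norm_sub_sq_real (x - y : V),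
      Submodule.inner_right_of_mem_orthogonal (C.sub_mem x.2 h2) h3]
    nlinarith [sq_nonneg ‖l - y‖]

theorem stmt_vor (n : ℕ) : ∀ (V : Type) [NormedAddCommGroup V] [InnerProductSpace ℝ V]
    [FiniteDimensional ℝ V] [MeasurableSpace V] [BorelSpace V] (L : AddSubgroup V) (ρ : ℝ),
    Module.finrank ℝ V = n → Lat L ρ → Stmt V (vor (L : Set V)) := by
  induction n using Nat.strong_induction_on with
  | _ n ih =>
  intro V _ _ _ _ _ L ρ hn h
  by_cases hsp : ∃ C : Submodule ℝ V, C ≠ ⊥ ∧ C ≠ ⊤ ∧ ∀ l ∈ L, ∃ y ∈ L, y ∈ C ∧ l - y ∈ Cᗮ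
  swap
  · refine stmt_locked (convex_vor _) h.cpt h.int fun S hS p => ?_
    obtain ⟨l, hl, h1⟩ := exists_near h.fin p
    exact ⟨-l, (h.split_or hS).resolve_right hsp (L.neg_mem hl), by rwa [← sub_eq_add_neg]⟩
  obtain ⟨C, h0, h1, hd⟩ := hsp
  have l1 := h.sub C hd
  have l2 := h.sub Cᗮ fun l hl => by
    obtain ⟨y, hy, h2, h3⟩ := hd l hl
    exact ⟨l - y, L.sub_mem hl hy, h3, by simpa using h2⟩
  have hW := C.isCompl_orthogonal
  let f : (C × Cᗮ) ≃L[ℝ] V := (Submodule.prodEquivOfIsCompl C Cᗮ hW).toContinuousLinearEquiv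
  have hf : ∀ x : C × Cᗮ, f x = x.1 + x.2 := fun x => rfl
  have e : f ⁻¹' vor (L : Set V) = vor (L.comap C.subtype.toAddMonoidHom : Set C) ×ˢ
      vor (L.comap Cᗮ.subtype.toAddMonoidHom : Set Cᗮ) := by
    ext x
    rw [mem_preimage, hf]
    refine ⟨fun hx => ⟨fun l hl => ?_, fun l hl => ?_⟩, fun hx l hl => ?_⟩
    · have := hx l hl
      rwa [inner_add_right, Submodule.inner_right_of_mem_orthogonal l.2 x.2.2, add_zero] at this
    · have := hx l hl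
      rwa [inner_add_right, Submodule.inner_left_of_mem_orthogonal x.1.2 l.2, zero_add] at this
    · obtain ⟨y, hy, h2, h3⟩ := hd l hl
      have h4 : 2 * ⟪y, (x.1 : V)⟫ ≤ ⟪y, y⟫ := hx.1 ⟨y, h2⟩ hy
      have h5 : 2 * ⟪l - y, (x.2 : V)⟫ ≤ ⟪l - y, l - y⟫ := hx.2 ⟨l - y, h3⟩ (L.sub_mem hl hy)
      rw [show l = y + (l - y) by abel, real_inner_add_add_self, inner_add_left, inner_add_right,
        inner_add_right, Submodule.inner_right_of_mem_orthogonal h2 h3,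
        Submodule.inner_right_of_mem_orthogonal h2 x.2.2,
        Submodule.inner_left_of_mem_orthogonal x.1.2 h3]
      linarith
  have hd' := Submodule.finrank_add_eq_of_isCompl hW
  have d1 : Module.finrank ℝ C < n := hn ▸ Submodule.finrank_lt h1
  have d2 : Module.finrank ℝ Cᗮ < n := by
    have : Module.finrank ℝ C ≠ 0 := by rwa [Ne, Submodule.finrank_eq_zero]
    omega
  exact stmt_sum f h.cpt.measurableSet l2.cpt e (ih _ d1 C _ ρ rfl l1) (ih _ d2 Cᗮ _ ρ rfl l2)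

theorem spectral_vor {n m : ℕ} (h : Lat L ρ) (T : (Fin n → ℝ) ≃ᵃ[ℝ] V)
    {B : Set (Fin m → ℝ)} (hB : Bornology.IsBounded B) (hBm : MeasurableSet B)
    (hs : isSpectral (N0f6e0b2f.productSet (T ⁻¹' {x | ∀ l ∈ (L : Set V), ‖x‖ ≤ ‖x - l‖}) B)) :
    isSpectral B := by
  rw [pre_eq] at hs
  let _ : MeasurableSpace V := borel V
  have : BorelSpace V := ⟨rfl⟩
  have hm : MeasurableSet (T.linear ⁻¹' vor (L : Set V)) :=
    h.cpt.measurableSet.preimage T.linear.toContinuousLinearEquiv.continuous.measurable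
  exact bridge (hm.preimage (by fun_prop))
    (((stmt_vor _ V L ρ rfl h).pre h.cpt.measurableSet T.linear.toContinuousLinearEquiv).shift hm _)
    hBm hB.measure_lt_top.ne hs

end Pool.Agent.Lib.MP_61fe1c_an
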