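import Pool.Agent.Lib.MP_61fe1c_an.Ext

/-!
Voronoi cells of lattices.
-/

set_option linter.unusedSectionVars false

open Set Filter Topology
open scoped Pointwise RealInnerProductSpace

namespace Pool.Agent.Lib.MP_61fe1c_an

variable {V : Type} [NormedAddCommGroup V] [InnerProductSpace ℝ V] [FiniteDimensional ℝ V]

/-- the Voronoi cell -/
def vor (L : Set V) : Set V := {x | ∀ l ∈ L, 2 * ⟪l, x⟫ ≤ ⟪l, l⟫}

lemma norm_le_iff (x l : V) : ‖x‖ ≤ ‖x - l‖ ↔ 2 * ⟪l, x⟫ ≤ ⟪l, l⟫ := by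
  rw [← sq_le_sq₀ (norm_nonneg _) (norm_nonneg _), norm_sub_sq_real, real_inner_self_eq_norm_sq,
    real_inner_comm]
  constructor <;> intro h <;> linarith

lemma convex_vor (L : Set V) : Convex ℝ (vor L) := by
  intro x hx y hy a b ha hb hab l hl
  have h1 := hx l hl
  have h2 := hy l hl
  rw [inner_add_right, inner_smul_right, inner_smul_right]
  have : ⟪l, l⟫ = a * ⟪l, l⟫ + b * ⟪l, l⟫ := by rw [← add_mul, hab, one_mul]
  nlinarith

lemma zero_mem_vor (L : Set V) : (0 : V) ∈ vor L := fun l _ => by simp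

lemma neg_mem_vor {L : AddSubgroup V} {x : V} (h : x ∈ vor (L : Set V)) : -x ∈ vor (L : Set V) :=
  fun l hl => by simpa using h (-l) (L.neg_mem hl)

lemma exists_near {L : AddSubgroup V} (hf : ∀ R : ℝ, {l ∈ (L : Set V) | ‖l‖ ≤ R}.Finite) (x : V) :
    ∃ l ∈ L, x - l ∈ vor (L : Set V) := by
  obtain ⟨l, hl, hmin⟩ := Set.exists_min_image _ (fun l => ‖x - l‖) (hf (2 * ‖x‖))
    ⟨0, L.zero_mem, by simp⟩
  refine ⟨l, hl.1, fun k hk => (norm_le_iff _ _).1 ?_⟩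
  rw [sub_sub]
  by_cases h : ‖l + k‖ ≤ 2 * ‖x‖
  · exact hmin _ ⟨L.add_mem hl.1 hk, h⟩
  · have h1 := hmin 0 ⟨L.zero_mem, by simp⟩
    have h2 := norm_sub_norm_le (l + k) x
    rw [norm_sub_rev] at h2
    simp only [sub_zero] at h1
    linarith

/-- a lattice, in the form used here -/
structure Lat (L : AddSubgroup V) (ρ : ℝ) : Prop where
  fin : ∀ R : ℝ, {l ∈ (L : Set V) | ‖l‖ ≤ R}.Finite
  cov : ∀ x, ∃ l ∈ L, ‖x - l‖ ≤ ρ

variable {L : AddSubgroup V} {ρ : ℝ}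

lemma Lat.bdd (h : Lat L ρ) {x : V} (hx : x ∈ vor (L : Set V)) : ‖x‖ ≤ ρ := by
  obtain ⟨l, hl, h1⟩ := h.cov x
  exact ((norm_le_iff _ _).2 (hx l hl)).trans h1

lemma Lat.eqH (h : Lat L ρ) : vor (L : Set V) =
    {x | ∀ i : {l ∈ (L : Set V) | ‖l‖ ≤ 2 * (ρ + 1)}, (2 : ℝ) • innerₛₗ ℝ (i : V) x ≤
      ⟪(i : V), (i : V)⟫} := by
  have hρ : 0 ≤ ρ := by simpa using h.bdd (zero_mem_vor _)
  have key : ∀ x, ‖x‖ ≤ ρ + 1 → x ∈ vor {l ∈ (L : Set V) | ‖l‖ ≤ 2 * (ρ + 1)} →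
      x ∈ vor (L : Set V) := by
    intro x h1 h2 l hl
    by_cases h3 : ‖l‖ ≤ 2 * (ρ + 1)
    · exact h2 l ⟨hl, h3⟩
    · have := real_inner_le_norm l x
      rw [real_inner_self_eq_norm_sq]
      nlinarith [norm_nonneg l, norm_nonneg x]
  refine Subset.antisymm (fun x hx i => hx i i.2.1) fun x hx => ?_
  have hx' : x ∈ vor {l ∈ (L : Set V) | ‖l‖ ≤ 2 * (ρ + 1)} := fun l hl => hx ⟨l, hl⟩
  by_cases h1 : ‖x‖ ≤ ρ + 1
  · exact key x h1 hx'
  · push Not at h1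
    have h0 : 0 < ‖x‖ := by linarith
    have h2 : ‖((ρ + 1) / ‖x‖) • x‖ = ρ + 1 := by
      rw [norm_smul, Real.norm_of_nonneg (by positivity), div_mul_cancel₀ _ h0.ne']
    have h3 := h.bdd (key _ h2.le ((convex_vor _).smul_mem_of_zero_mem (zero_mem_vor _) hx'
      ⟨by positivity, by rw [div_le_one h0]; exact h1.le⟩))
    linarith

lemma Lat.isH (h : Lat L ρ) : IsH (vor (L : Set V)) :=
  ⟨_, (h.fin _).to_subtype, fun i => (2 : ℝ) • (innerₛₗ ℝ (i : V) : V →ₗ[ℝ] ℝ), _, h.eqH⟩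

lemma Lat.cpt (h : Lat L ρ) : IsCompact (vor (L : Set V)) := by
  refine Metric.isCompact_of_isClosed_isBounded ?_
    ((Metric.isBounded_closedBall (x := (0 : V)) (r := ρ)).subset fun x hx => by
      simpa using h.bdd hx)
  rw [vor, ofPred_forall]
  refine isClosed_iInter fun l => ?_
  rw [ofPred_forall]
  exact isClosed_iInter fun _ => isClosed_le (by fun_prop) continuous_const

lemma Lat.mem_int (h : Lat L ρ) {x : V} (hx : ∀ l ∈ L, l ≠ 0 → 2 * ⟪l, x⟫ < ⟪l, l⟫) :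
    x ∈ interior (vor (L : Set V)) := by
  have := (h.fin (2 * (ρ + 1))).to_subtype
  rw [mem_interior_iff_mem_nhds, h.eqH]
  refine eventually_all.2 fun i => ?_
  by_cases h0 : (i : V) = 0
  · exact Eventually.of_forall fun y => by simp [h0]
  · have hc : ContinuousAt (fun y : V => 2 * ⟪(i : V), y⟫) x := by fun_prop
    filter_upwards [hc.eventually (gt_mem_nhds (hx i i.2.1 h0))] with y hy using hy.le

lemma Lat.int (h : Lat L ρ) : (interior (vor (L : Set V))).Nonempty :=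
  ⟨0, h.mem_int fun l _ h0 => by simpa using real_inner_self_pos.2 h0⟩

lemma Lat.dirs_iff (h : Lat L ρ) {c v : V} (hc : c ∈ vor (L : Set V)) :
    v ∈ dirs (vor (L : Set V)) c ↔ ∀ l ∈ L, 2 * ⟪l, c⟫ = ⟪l, l⟫ → ⟪l, v⟫ = 0 := by
  constructor
  · intro hv l hl h1
    exact map_dirs_eq_zero (φ := (innerₛₗ ℝ l : V →ₗ[ℝ] ℝ)) (fun y hy => by
      have := hy l hl
      change ⟪l, y⟫ ≤ ⟪l, c⟫
      linarith) hv
  · intro hv
    have := (h.fin (2 * (ρ + 1))).to_subtype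
    have hc' := h.eqH.le hc
    rw [h.eqH]
    exact dirs_of_H (n := fun i : {l ∈ (L : Set V) | ‖l‖ ≤ 2 * (ρ + 1)} =>
      (2 : ℝ) • (innerₛₗ ℝ (i : V) : V →ₗ[ℝ] ℝ)) hc' fun i hi => by
        have := hv i i.2.1 hi
        simp [this]

lemma Lat.tight (h : Lat L ρ) {x y : V} (hx : x ∈ vor (L : Set V)) (hy : y ∈ vor (L : Set V))
    (hxy : x - y ∉ interior (vor (L : Set V) - vor (L : Set V))) :
    ∃ l ∈ L, l ≠ 0 ∧ 2 * ⟪l, x⟫ = ⟪l, l⟫ ∧ -(2 * ⟪l, y⟫) = ⟪l, l⟫ := by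
  by_contra hcon
  push Not at hcon
  have h1 : (1 / 2 : ℝ) • (x - y) ∈ interior (vor (L : Set V)) := h.mem_int fun l hl h0 => by
    have h2 := hx l hl
    have h3 := hy (-l) (L.neg_mem hl)
    have h4 := hcon l hl h0
    simp only [inner_neg_left, inner_neg_right, neg_neg] at h3
    rw [inner_smul_right, inner_sub_right]
    by_contra h5
    exact h4 (by linarith) (by linarith)
  have := subset_interior_sub_left (sub_mem_sub h1 (neg_mem_vor (interior_subset h1)))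
  apply hxy
  convert this using 1
  module

lemma Lat.g1 (h : Lat L ρ) (φ : V →ₗ[ℝ] ℝ) (c : V) (hc : c ∈ face (vor (L : Set V)) φ)
    (hk : ∀ v, φ v = 0 → v ∈ dirs (vor (L : Set V)) c) :
    ∃ τ, ∀ y, y ∈ face (vor (L : Set V)) φ ↔ y - τ ∈ face (vor (L : Set V)) (-φ) := by
  by_cases h0 : φ = 0
  · exact ⟨0, fun y => by simp [h0]⟩
  obtain ⟨l, hl, hl0, h1⟩ : ∃ l ∈ L, l ≠ 0 ∧ 2 * ⟪l, c⟫ = ⟪l, l⟫ := by
    by_contra hcon
    push Not at hcon
    exact h0 (eq_zero_of_max (h.mem_int fun l hl hl0 =>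
      lt_of_le_of_ne (hc.1 l hl) (hcon l hl hl0)) hc.2)
  obtain ⟨κ, hκ⟩ := eq_smul_of_ker (ψ := (innerₛₗ ℝ l : V →ₗ[ℝ] ℝ)) h0
    fun v hv => (h.dirs_iff hc.1).1 (hk v hv) l hl h1
  replace hκ : ∀ v, ⟪l, v⟫ = κ * φ v := hκ
  have hll : 0 < ⟪l, l⟫ := real_inner_self_pos.2 hl0
  have hκ0 : 0 < κ := by
    have h2 := hc.2 0 (zero_mem_vor _)
    have h3 := hκ c
    rw [map_zero] at h2
    by_contra h4
    nlinarith
  have hF : ∀ y, y ∈ face (vor (L : Set V)) φ ↔ y ∈ vor (L : Set V) ∧ 2 * ⟪l, y⟫ = ⟪l, l⟫ := by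
    refine fun y => and_congr_right fun hy => ⟨fun h2 => ?_, fun h2 z hz => ?_⟩
    · rw [← h1, hκ, hκ, le_antisymm (hc.2 y hy) (h2 c hc.1)]
    · have := hz l hl
      rw [← h2, hκ, hκ] at this
      nlinarith
  have hG : ∀ y, y ∈ face (vor (L : Set V)) (-φ) ↔ -y ∈ face (vor (L : Set V)) φ := fun y =>
    ⟨fun h2 => ⟨neg_mem_vor h2.1, fun z hz => by simpa using h2.2 _ (neg_mem_vor hz)⟩,
      fun h2 => ⟨by simpa using neg_mem_vor h2.1,
        fun z hz => by simpa using h2.2 _ (neg_mem_vor hz)⟩⟩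
  have hR : ∀ y, y ∈ face (vor (L : Set V)) φ → -(y - l) ∈ face (vor (L : Set V)) φ := by
    intro y hy
    obtain ⟨h2, h3⟩ := (hF y).1 hy
    refine (hF _).2 ⟨fun k hk => ?_, by rw [neg_sub, inner_sub_right]; linarith⟩
    have := h2 (l - k) (L.sub_mem hl hk)
    simp only [neg_sub, inner_sub_left, inner_sub_right, real_inner_comm l k] at this ⊢
    linarith
  refine ⟨l, fun y => ?_⟩
  rw [hG]
  exact ⟨hR y, fun h2 => by simpa using hR _ h2⟩

lemma pow_core {ι : Type} [Fintype ι] {P : AddSubgroup V} {x₀ : V} {a : ι → V} {f : ι → ℝ}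
    (H : ∀ p ∈ P, 2 * ⟪p, x₀⟫ ≤ ⟪p, p⟫ ∧ (2 * ⟪p, x₀⟫ = ⟪p, p⟫ → p ∈ L))
    (haP : ∀ i, a i ∈ P) (haL : ∀ i, a i ∈ L) (ha : ∀ i, 2 * ⟪a i, x₀⟫ = ⟪a i, a i⟫)
    (hf : ∀ i, 0 ≤ f i) {m : ℤ} (hm : ∑ i, f i = m) (hm2 : m ≤ 2) (hp : ∑ i, f i • a i ∈ P) :
    ∑ i, f i • a i ∈ L := by
  set p := ∑ i, f i • a i with hpd
  have hin : ∀ v, ⟪v, p⟫ = ∑ i, f i * ⟪v, a i⟫ := fun v => by
    simp only [hpd, inner_sum, inner_smul_right]
  have h0 : (0 : ℝ) ≤ m := hm ▸ Finset.sum_nonneg fun i _ => hf i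
  have h0' : 0 ≤ m := by exact_mod_cast h0
  by_cases hz : ∀ i, f i = 0
  · simp [hpd, hz, L.zero_mem]
  push Not at hz
  obtain ⟨j, hj⟩ := hz
  have hj0 : 0 < f j := lt_of_le_of_ne (hf j) hj.symm
  have h1 : (0 : ℝ) < m := hm ▸ hj0.trans_le (Finset.single_le_sum (fun i _ => hf i)
    (Finset.mem_univ j))
  have h1' : 0 < m := by exact_mod_cast h1
  obtain rfl | rfl : m = 1 ∨ m = 2 := by omega
  · refine (H p hp).2 (le_antisymm (H p hp).1 ?_)
    have h2 : 0 ≤ ∑ i, f i * ⟪p - a i, p - a i⟫ :=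
      Finset.sum_nonneg fun i _ => mul_nonneg (hf i) real_inner_self_nonneg
    have h3 : ∑ i, f i * ⟪p - a i, p - a i⟫ =
        (∑ i, f i) * ⟪p, p⟫ - 2 * ∑ i, f i * ⟪p, a i⟫ + 2 * ∑ i, f i * ⟪x₀, a i⟫ := by
      rw [Finset.sum_mul, Finset.mul_sum, Finset.mul_sum, ← Finset.sum_sub_distrib,
        ← Finset.sum_add_distrib]
      refine Finset.sum_congr rfl fun i _ => ?_
      rw [real_inner_sub_sub_self, ← ha i, real_inner_comm x₀]
      ring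
    rw [h3, hm, ← hin, ← hin, real_inner_comm p x₀] at h2
    push_cast at h2
    linarith
  · have h2 : ∀ i ∈ Finset.univ, 0 ≤ f i * (⟪p - a i, p - a i⟫ - 2 * ⟪p - a i, x₀⟫) :=
      fun i _ => mul_nonneg (hf i) (sub_nonneg.2 (H _ (P.sub_mem hp (haP i))).1)
    have h3 : ∑ i, f i * (⟪p - a i, p - a i⟫ - 2 * ⟪p - a i, x₀⟫) =
        (∑ i, f i) * (⟪p, p⟫ - 2 * ⟪p, x₀⟫) - 2 * ∑ i, f i * ⟪p, a i⟫ +
          4 * ∑ i, f i * ⟪x₀, a i⟫ := by
      rw [Finset.sum_mul, Finset.mul_sum, Finset.mul_sum, ← Finset.sum_sub_distrib,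
        ← Finset.sum_add_distrib]
      refine Finset.sum_congr rfl fun i _ => ?_
      rw [real_inner_sub_sub_self, ← ha i, inner_sub_left, real_inner_comm x₀ (a i)]
      ring
    rw [hm, ← hin, ← hin, real_inner_comm p x₀] at h3
    have h4 := (Finset.sum_eq_zero_iff_of_nonneg h2).1 (by rw [h3]; push_cast; ring) j
      (Finset.mem_univ j)
    have h5 := (H _ (P.sub_mem hp (haP j))).2
      (sub_eq_zero.1 ((mul_eq_zero.1 h4).resolve_left hj)).symm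
    simpa using L.add_mem h5 (haL j)

lemma pow_lemma {k : ℕ} (hk : k ≤ 4) {P : AddSubgroup V} {x₀ : V} {a : Fin k → V}
    (H : ∀ p ∈ P, 2 * ⟪p, x₀⟫ ≤ ⟪p, p⟫ ∧ (2 * ⟪p, x₀⟫ = ⟪p, p⟫ → p ∈ L))
    (haP : ∀ i, a i ∈ P) (haL : ∀ i, a i ∈ L) (ha : ∀ i, 2 * ⟪a i, x₀⟫ = ⟪a i, a i⟫)
    {c : Fin k → ℝ} (hp : ∑ i, c i • a i ∈ P) : ∑ i, c i • a i ∈ L := by
  let b : Option (Fin k) → V := fun i => i.elim 0 a
  have key : ∀ c : Option (Fin k) → ℝ, ∑ i, c i = 0 → ∑ i, c i • b i ∈ P →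
      ∃ m : ℤ, ∑ i, Int.fract (c i) = m ∧ (m ≤ 2 → ∑ i, c i • b i ∈ L) := by
    intro c h1 h2
    have hbP : ∀ i, b i ∈ P := by rintro (_ | i); exacts [P.zero_mem, haP i]
    have hbL : ∀ i, b i ∈ L := by rintro (_ | i); exacts [L.zero_mem, haL i]
    have e : ∑ i, c i • b i = ∑ i, Int.fract (c i) • b i + ∑ i, ⌊c i⌋ • b i := by
      rw [← Finset.sum_add_distrib]
      refine Finset.sum_congr rfl fun i _ => ?_
      rw [← Int.cast_smul_eq_zsmul ℝ, ← add_smul, Int.fract_add_floor]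
    have hm : ∑ i, Int.fract (c i) = ((-∑ i, ⌊c i⌋ : ℤ) : ℝ) := by
      simp only [Int.fract, Finset.sum_sub_distrib, h1]
      push_cast
      ring
    refine ⟨_, hm, fun h3 => ?_⟩
    rw [e] at h2 ⊢
    refine L.add_mem (pow_core H hbP hbL ?_ (fun i => Int.fract_nonneg _) hm h3 ?_)
      (L.sum_mem fun i _ => L.zsmul_mem (hbL i) _)
    · rintro (_ | i)
      · simp [b]
      · exact ha i
    · exact (P.add_mem_cancel_right (P.sum_mem fun i _ => P.zsmul_mem (hbP i) _)).1 h2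
  let d : Option (Fin k) → ℝ := fun i => i.elim (-∑ j, c j) c
  have e : ∑ i, d i • b i = ∑ i, c i • a i := by simp [Fintype.sum_option, b, d]
  have e0 : ∑ i, d i = 0 := by simp [Fintype.sum_option, d]
  have e' : ∑ i, (-d i) • b i = -∑ i, c i • a i := by simp [← e]
  obtain ⟨m, h1, h2⟩ := key d e0 (e ▸ hp)
  obtain ⟨m', h3, h4⟩ := key (fun i => -d i) (by simp [e0]) (by rw [e']; exact P.neg_mem hp)
  have h5 : ((m + m' : ℤ) : ℝ) ≤ ((k + 1 : ℕ) : ℝ) := by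
    push_cast
    rw [← h1, ← h3, ← Finset.sum_add_distrib]
    refine (Finset.sum_le_card_nsmul _ _ 1 fun i _ => ?_).trans (by simp)
    by_cases h : Int.fract (d i) = 0
    · rw [h, zero_add]; exact (Int.fract_lt_one _).le
    · rw [Int.fract_neg h]; simp
  have h6 : m + m' ≤ ((k + 1 : ℕ) : ℤ) := by exact_mod_cast h5
  by_cases h7 : m ≤ 2
  · exact e ▸ h2 h7
  · have := h4 (by omega)
    rw [e'] at this
    exact L.neg_mem_iff.1 this

theorem Lat.sm (h : Lat L ρ) (hd : Module.finrank ℝ V ≤ 5) {c : V} (hc : c ∈ vor (L : Set V))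
    (hv : ∃ v ∈ dirs (vor (L : Set V)) c, v ≠ 0) (ht : Tight (vor (L : Set V)) c) :
    ∃ A', vor (L : Set V) = Ef (vor (L : Set V)) c + A' := by
  set A := vor (L : Set V) with hA
  set D : Set V := {l | l ∈ L ∧ 2 * ⟪l, c⟫ = ⟪l, l⟫} with hD
  set U : Submodule ℝ V := Submodule.span ℝ D with hU
  have hW : ∀ v, v ∈ Uᗮ ↔ v ∈ dirs A c := fun v => by
    rw [h.dirs_iff hc]
    refine ⟨fun h1 l hl h2 => Submodule.inner_right_of_mem_orthogonal
      (Submodule.subset_span (s := D) ⟨hl, h2⟩) h1, fun h1 u hu => ?_⟩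
    induction hu using Submodule.span_induction with
    | mem x hx => exact h1 x hx.1 hx.2
    | zero => simp
    | add x y _ _ hx hy => rw [inner_add_left, hx, hy, add_zero]
    | smul a x _ hx => rw [real_inner_smul_left, hx, mul_zero]
  have hUW : ∀ {u w : V}, u ∈ U → w ∈ Uᗮ → ⟪u, w⟫ = 0 := fun hu hw =>
    Submodule.inner_right_of_mem_orthogonal hu hw
  have hWU : ∀ {u w : V}, u ∈ U → w ∈ Uᗮ → ⟪w, u⟫ = 0 := fun hu hw =>
    Submodule.inner_left_of_mem_orthogonal hu hw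
  obtain ⟨x₀, hx₀, u₀, hu₀, hcd⟩ := U.exists_add_mem_mem_orthogonal c
  let LW : AddSubgroup V := L ⊓ Uᗮ.toAddSubgroup
  have hED : ∀ x ∈ Ef A c, ∀ a ∈ D, 2 * ⟪a, x⟫ = ⟪a, a⟫ := fun x hx a ha => by
    have := hUW (Submodule.subset_span ha) ((hW _).2 hx.2)
    rw [inner_sub_right] at this
    linarith [ha.2]
  have hQ : ∀ w ∈ Uᗮ, w ∈ vor (LW : Set V) → x₀ + w ∈ A := by
    intro w hw hwQ
    by_cases h0 : w - u₀ = 0
    · rwa [sub_eq_zero.1 h0, ← hcd]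
    have hwd : w - u₀ ∈ dirs A c := (hW _).1 (Uᗮ.sub_mem hw hu₀)
    obtain ⟨κ, hκ0, hκ, hmax⟩ := exists_exit h.cpt hc h0
    have hκ1 : 0 < κ := by
      obtain ⟨ε, hε, h'⟩ := dirs_pos hwd
      refine lt_of_le_of_ne hκ0 fun h0 => hmax ε hε ?_
      rwa [← h0, zero_add]
    have hx : c + κ • (w - u₀) ∈ Ef A c := ⟨hκ, by simpa using dirs_smul hwd κ⟩
    obtain ⟨y, hy, hxy⟩ := ht _ hx fun h => by
      obtain ⟨ε, hε, h'⟩ := dirs_pos h.2
      refine hmax (ε * κ) (by positivity) ?_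
      convert h' using 1
      module
    obtain ⟨l, hl, hl0, h1, h2⟩ := h.tight hκ hy.1 hxy
    have hlW : l ∈ Uᗮ := (hW l).2 ((h.dirs_iff hc).2 fun a ha ha' => by
      have h3 := hκ (a + l) (L.add_mem ha hl)
      have h4 := hy.1 (a - l) (L.sub_mem ha hl)
      have h5 := hED _ hx a ⟨ha, ha'⟩
      have h6 := hED _ hy a ⟨ha, ha'⟩
      rw [inner_add_left, real_inner_add_add_self] at h3
      rw [inner_sub_left, real_inner_sub_sub_self] at h4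
      linarith)
    have h3 : 2 * ⟪l, c⟫ < ⟪l, l⟫ := lt_of_le_of_ne (hc l hl) fun h' =>
      hl0 (inner_self_eq_zero.1 (hUW (Submodule.subset_span ⟨hl, h'⟩) hlW))
    have h4 := hwQ l ⟨hl, hlW⟩
    have h5 : ⟪l, c⟫ = ⟪l, u₀⟫ := by rw [hcd, inner_add_right, hWU hx₀ hlW, zero_add]
    rw [inner_add_right, inner_smul_right, inner_sub_right, h5] at h1
    have h6 : 1 ≤ κ := by
      by_contra h7
      nlinarith
    have := (convex_vor _).add_smul_sub_mem hc hκ (t := κ⁻¹) ⟨by positivity, inv_le_one_of_one_le₀ h6⟩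
    rw [add_sub_cancel_left, smul_smul, inv_mul_cancel₀ hκ1.ne', one_smul] at this
    convert this using 1
    rw [hcd]; abel
  let P : AddSubgroup V := (L ⊔ Uᗮ.toAddSubgroup) ⊓ U.toAddSubgroup
  have H : ∀ p ∈ P, 2 * ⟪p, x₀⟫ ≤ ⟪p, p⟫ ∧ (2 * ⟪p, x₀⟫ = ⟪p, p⟫ → p ∈ L) := by
    rintro p ⟨h1, hp⟩
    obtain ⟨y, hy, w, hw, rfl⟩ := AddSubgroup.mem_sup.1 h1
    obtain ⟨l, hl, h2⟩ := exists_near (L := LW) (fun R => (h.fin R).subset
      fun x hx => ⟨hx.1.1, hx.2⟩) (-w)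
    have hw' : -w - l ∈ Uᗮ := Uᗮ.sub_mem (Uᗮ.neg_mem hw) hl.2
    have h3 := hQ _ hw' h2 (y - l) (L.sub_mem hy hl.1)
    have e : y - l = (y + w) + (-w - l) := by abel
    rw [e, real_inner_add_add_self, inner_add_left, inner_add_right, inner_add_right,
      hUW hp hw', hWU hx₀ hw'] at h3
    have h4 : 0 ≤ ⟪-w - l, -w - l⟫ := real_inner_self_nonneg
    refine ⟨by linarith, fun h5 => ?_⟩
    have h6 : -w - l = 0 := inner_self_eq_zero.1 (le_antisymm (by linarith) h4)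
    rw [h6, add_zero] at e
    exact e ▸ L.sub_mem hy hl.1
  have hPL : ∀ p ∈ P, p ∈ L := by
    intro p hp
    obtain ⟨a, ha, hsp, -⟩ := Submodule.exists_fun_fin_finrank_span_eq ℝ D
    have hk : Module.finrank ℝ U ≤ 4 := by
      obtain ⟨v, hv, hv0⟩ := hv
      have : Module.finrank ℝ U < Module.finrank ℝ V := Submodule.finrank_lt fun htop =>
        hv0 (inner_self_eq_zero.1 (hUW (htop ▸ Submodule.mem_top) ((hW v).2 hv)))
      omega
    have hp' : p ∈ Submodule.span ℝ (range a) := by rw [hsp]; exact hp.2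
    obtain ⟨t, rfl⟩ := (Submodule.mem_span_range_iff_exists_fun ℝ).1 hp'
    refine pow_lemma hk H (fun i => ⟨AddSubgroup.mem_sup_left (ha i).1,
      Submodule.subset_span (ha i)⟩) (fun i => (ha i).1) (fun i => ?_) hp
    rw [← (ha i).2, hcd, inner_add_right, hUW (Submodule.subset_span (ha i)) hu₀, add_zero]
  have hdec : ∀ y ∈ L, ∃ p ∈ U, ∃ w ∈ Uᗮ, p ∈ L ∧ w ∈ L ∧ y = p + w := by
    intro y hy
    obtain ⟨p, hp, w, hw, rfl⟩ := U.exists_add_mem_mem_orthogonal y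
    have := hPL p ⟨AddSubgroup.mem_sup.2 ⟨_, hy, -w, Uᗮ.neg_mem hw, by abel⟩, hp⟩
    exact ⟨p, hp, w, hw, this, by simpa using L.sub_mem hy this, rfl⟩
  refine ⟨{v | v ∈ U ∧ v + x₀ ∈ A}, Subset.antisymm (fun z hz => ?_) ?_⟩
  · obtain ⟨p, hp, w, hw, rfl⟩ := U.exists_add_mem_mem_orthogonal z
    refine ⟨x₀ + w, ⟨hQ w hw fun l hl => ?_, (hW _).1 ?_⟩, p - x₀, ⟨U.sub_mem hp hx₀, ?_⟩,
      by simp only []; abel⟩
    · have := hz l hl.1
      rwa [inner_add_right, hWU hp hl.2, zero_add] at this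
    · rw [hcd, add_sub_add_left_eq_sub]; exact Uᗮ.sub_mem hw hu₀
    · intro y hy
      obtain ⟨p', hp', w', hw', h1, h2, rfl⟩ := hdec y hy
      have h3 := hz p' h1
      have h4 : 0 ≤ ⟪w', w'⟫ := real_inner_self_nonneg
      rw [inner_add_right, hUW hp' hw] at h3
      rw [sub_add_cancel, real_inner_add_add_self, inner_add_left, hWU hp hw', hUW hp' hw']
      linarith
  · rintro _ ⟨e, he, v, ⟨hv, hv'⟩, rfl⟩ y hy
    obtain ⟨p', hp', w', hw', h1, h2, rfl⟩ := hdec y hy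
    have h3 := hv' p' h1
    have h4 := he.1 w' h2
    have h5 := hUW hp' ((hW _).2 he.2)
    rw [hcd, inner_sub_right, inner_add_right, hUW hp' hu₀] at h5
    rw [inner_add_right] at h3
    simp only []
    rw [real_inner_add_add_self, inner_add_left, inner_add_right, inner_add_right,
      hUW hp' hw', hWU hv hw']
    linarith

theorem Lat.good (h : Lat L ρ) (hd : Module.finrank ℝ V ≤ 5) : Good (vor (L : Set V)) :=
  ⟨convex_vor _, h.cpt, h.int, h.isH, h.g1,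
    fun _ _ _ _ _ => Or.inr fun _ hc hv ht => h.sm hd hc.1 hv ht⟩

end Pool.Agent.Lib.MP_61fe1c_an
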